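import Pool.Agent.H667R5.NX.PZ.Stubs

/-!
# AUN: approximate units
-/

set_option autoImplicit false

namespace Pool.Agent.H30R2.PZ

open Filter Topology
open scoped CStarAlgebra ComplexOrder

universe u

/-- **AUN** -/
theorem t_AUN : StAUN.{u} := by
  intro D _ _ _ F ε hε
  have hl := CStarAlgebra.increasingApproximateUnit D
  have := hl.neBot
  have h1 : ∀ᶠ x in CStarAlgebra.approximateUnit D, 0 ≤ x := hl.eventually_nonneg
  have h2 : ∀ᶠ x in CStarAlgebra.approximateUnit D, ‖x‖ ≤ 1 := hl.eventually_norm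
  have h3 : ∀ᶠ u in CStarAlgebra.approximateUnit D, ∀ x ∈ F, ‖u * x - x‖ ≤ ε ∧ ‖x * u - x‖ ≤ ε := by
    rw [Filter.eventually_all_finset]
    intro x _
    have a1 : ∀ᶠ u in CStarAlgebra.approximateUnit D, dist (u * x) x < ε :=
      (hl.tendsto_mul_right x).eventually (Metric.ball_mem_nhds x hε)
    have a2 : ∀ᶠ u in CStarAlgebra.approximateUnit D, dist (x * u) x < ε :=
      (hl.tendsto_mul_left x).eventually (Metric.ball_mem_nhds x hε)
    filter_upwards [a1, a2] with u b1 b2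
    rw [dist_eq_norm] at b1 b2
    exact ⟨b1.le, b2.le⟩
  obtain ⟨u, u1, u2, u3⟩ := (h1.and (h2.and h3)).exists
  exact ⟨u, u1, u2, u3⟩

end Pool.Agent.H30R2.PZ
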