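import Pool.Agent.H667R5.NX.PZ.Stubs

/-!
# Extension of a bounded trace from the positive cone (helper248)
-/

set_option autoImplicit false

namespace Pool.Agent.H30R2.PZ

open Filter Topology Pool.Agent.H327R4.Pure
open scoped ENNReal CStarAlgebra ComplexOrder

universe u

namespace EXTaux

section

variable {D : Type u} [NonUnitalCStarAlgebra D] [PartialOrder D] [StarOrderedRing D]

/-- the extension to self-adjoint elements -/
noncomputable def G (g : D → ℝ) (x : D) : ℝ := g x⁺ - g x⁻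

variable {g : D → ℝ} {C : ℝ} (hb : ∀ x, 0 ≤ x → 0 ≤ g x ∧ g x ≤ C * ‖x‖)
  (ha : ∀ x y, 0 ≤ x → 0 ≤ y → g (x + y) = g x + g y)
  (hs : ∀ (c : ℝ) (x : D), 0 ≤ c → 0 ≤ x → g (c • x) = c * g x)

include ha in
lemma G_sub (x p q : D) (hx : IsSelfAdjoint x) (hp : 0 ≤ p) (hq : 0 ≤ q) (h : x = p - q) :
    G g x = g p - g q := by
  have h1 : x⁺ - x⁻ = x := CFC.posPart_sub_negPart x hx
  have h2 : x⁺ + q = p + x⁻ := by
    have h3 : x⁺ - x⁻ = p - q := h1.trans h
    have h4 : x⁺ = p - q + x⁻ := by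
      rw [← h3]; abel
    rw [h4]; abel
  have h5 := ha x⁺ q (CFC.posPart_nonneg x) hq
  have h6 := ha p x⁻ hp (CFC.negPart_nonneg x)
  unfold G
  rw [h2] at h5
  linarith

include hs in
lemma g_zero : g 0 = 0 := by
  have h := hs 0 0 le_rfl le_rfl
  simpa using h

include ha hs in
lemma G_nonneg (x : D) (hx : 0 ≤ x) : G g x = g x := by
  rw [G_sub ha x x 0 (IsSelfAdjoint.of_nonneg hx) hx le_rfl (by simp), g_zero hs, sub_zero]

include ha in
lemma G_add (x y : D) (hx : IsSelfAdjoint x) (hy : IsSelfAdjoint y) :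
    G g (x + y) = G g x + G g y := by
  have h1 : x⁺ - x⁻ = x := CFC.posPart_sub_negPart x hx
  have h2 : y⁺ - y⁻ = y := CFC.posPart_sub_negPart y hy
  rw [G_sub ha (x + y) (x⁺ + y⁺) (x⁻ + y⁻) (hx.add hy)
    (add_nonneg (CFC.posPart_nonneg x) (CFC.posPart_nonneg y))
    (add_nonneg (CFC.negPart_nonneg x) (CFC.negPart_nonneg y))
    (by
      conv_lhs => rw [← h1, ← h2]
      abel)]
  rw [ha _ _ (CFC.posPart_nonneg x) (CFC.posPart_nonneg y),
    ha _ _ (CFC.negPart_nonneg x) (CFC.negPart_nonneg y)]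
  unfold G
  ring

include ha hs in
lemma G_smul (c : ℝ) (x : D) (hx : IsSelfAdjoint x) : G g (c • x) = c * G g x := by
  have h1 : x⁺ - x⁻ = x := CFC.posPart_sub_negPart x hx
  have hcx : IsSelfAdjoint (c • x) := IsSelfAdjoint.smul (IsSelfAdjoint.all c) hx
  rcases le_total 0 c with hc | hc
  · rw [G_sub ha (c • x) (c • x⁺) (c • x⁻) hcx (smul_nonneg hc (CFC.posPart_nonneg x))
      (smul_nonneg hc (CFC.negPart_nonneg x)) (by rw [← smul_sub, h1]),
      hs c _ hc (CFC.posPart_nonneg x), hs c _ hc (CFC.negPart_nonneg x)]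
    unfold G
    ring
  · have hc' : 0 ≤ -c := by linarith
    rw [G_sub ha (c • x) ((-c) • x⁻) ((-c) • x⁺) hcx (smul_nonneg hc' (CFC.negPart_nonneg x))
      (smul_nonneg hc' (CFC.posPart_nonneg x)) (by
        rw [← smul_sub, ← neg_sub, h1, smul_neg, neg_smul, neg_neg]),
      hs (-c) _ hc' (CFC.posPart_nonneg x), hs (-c) _ hc' (CFC.negPart_nonneg x)]
    unfold G
    ring

include hb in
lemma G_bound (x : D) : |G g x| ≤ 2 * |C| * ‖x‖ := by
  have h1 := hb x⁺ (CFC.posPart_nonneg x)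
  have h2 := hb x⁻ (CFC.negPart_nonneg x)
  have h3 : ‖x⁺‖ ≤ ‖x‖ := CStarAlgebra.norm_posPart_le x
  have h4 : ‖x⁻‖ ≤ ‖x‖ := CStarAlgebra.norm_negPart_le x
  have h5 : C * ‖x⁺‖ ≤ |C| * ‖x‖ :=
    mul_le_mul (le_abs_self C) h3 (norm_nonneg _) (abs_nonneg _)
  have h6 : C * ‖x⁻‖ ≤ |C| * ‖x‖ :=
    mul_le_mul (le_abs_self C) h4 (norm_nonneg _) (abs_nonneg _)
  unfold G
  rw [abs_le]
  constructor
  · nlinarith [h1.1, h1.2, h2.1, h2.2, abs_nonneg C, norm_nonneg x]
  · nlinarith [h1.1, h1.2, h2.1, h2.2, abs_nonneg C, norm_nonneg x]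

open ComplexStarModule in
/-- the linear extension -/
noncomputable def T0 (g : D → ℝ)
    (ha : ∀ x y, 0 ≤ x → 0 ≤ y → g (x + y) = g x + g y)
    (hs : ∀ (c : ℝ) (x : D), 0 ≤ c → 0 ≤ x → g (c • x) = c * g x) : D →ₗ[ℂ] ℂ where
  toFun x := (G g (ℜ x : D) : ℂ) + Complex.I * (G g (ℑ x : D) : ℂ)
  map_add' x y := by
    rw [map_add, map_add, AddSubgroup.coe_add, AddSubgroup.coe_add,
      G_add ha _ _ (ℜ x).2 (ℜ y).2, G_add ha _ _ (ℑ x).2 (ℑ y).2]
    push_cast
    ring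
  map_smul' c x := by
    rw [realPart_smul, imaginaryPart_smul]
    have h1 : ((c.re • ℜ x - c.im • ℑ x : selfAdjoint D) : D) =
        c.re • (ℜ x : D) + (-c.im) • (ℑ x : D) := by
      rw [AddSubgroupClass.coe_sub, selfAdjoint.val_smul, selfAdjoint.val_smul, neg_smul,
        sub_eq_add_neg]
    have h2 : ((c.re • ℑ x + c.im • ℜ x : selfAdjoint D) : D) =
        c.re • (ℑ x : D) + c.im • (ℜ x : D) := by
      rw [AddSubgroup.coe_add, selfAdjoint.val_smul, selfAdjoint.val_smul]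
    rw [h1, h2, G_add ha _ _ (IsSelfAdjoint.smul (IsSelfAdjoint.all _) (ℜ x).2)
      (IsSelfAdjoint.smul (IsSelfAdjoint.all _) (ℑ x).2),
      G_add ha _ _ (IsSelfAdjoint.smul (IsSelfAdjoint.all _) (ℑ x).2)
      (IsSelfAdjoint.smul (IsSelfAdjoint.all _) (ℜ x).2),
      G_smul ha hs _ _ (ℜ x).2, G_smul ha hs _ _ (ℑ x).2, G_smul ha hs _ _ (ℑ x).2,
      G_smul ha hs _ _ (ℜ x).2]
    simp only [RingHom.id_apply, smul_eq_mul]
    apply Complex.ext
    · simp
      try ring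
    · simp
      try ring

open ComplexStarModule in
lemma T0_apply (x : D) : T0 g ha hs x =
    (G g (ℜ x : D) : ℂ) + Complex.I * (G g (ℑ x : D) : ℂ) := rfl

open ComplexStarModule in
lemma T0_nonneg (x : D) (hx : 0 ≤ x) : T0 g ha hs x = (g x : ℂ) := by
  have hsa : IsSelfAdjoint x := IsSelfAdjoint.of_nonneg hx
  rw [T0_apply, hsa.coe_realPart, hsa.imaginaryPart]
  have h0 : G g ((0 : selfAdjoint D) : D) = 0 := by
    rw [show ((0 : selfAdjoint D) : D) = 0 from rfl, G_nonneg ha hs 0 le_rfl, g_zero hs]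
  rw [h0, G_nonneg ha hs x hx]
  simp

open ComplexStarModule in
include hb in
lemma T0_bound (x : D) : ‖T0 g ha hs x‖ ≤ (4 * |C|) * ‖x‖ := by
  rw [T0_apply]
  have h1 := G_bound hb (ℜ x : D)
  have h2 := G_bound hb (ℑ x : D)
  have h3 : ‖(ℜ x : D)‖ ≤ ‖x‖ := realPart.norm_le x
  have h4 : ‖(ℑ x : D)‖ ≤ ‖x‖ := imaginaryPart.norm_le x
  calc ‖(G g (ℜ x : D) : ℂ) + Complex.I * (G g (ℑ x : D) : ℂ)‖
      ≤ ‖(G g (ℜ x : D) : ℂ)‖ + ‖Complex.I * (G g (ℑ x : D) : ℂ)‖ := norm_add_le _ _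
    _ = |G g (ℜ x : D)| + |G g (ℑ x : D)| := by
        rw [norm_mul, Complex.norm_I, one_mul, Complex.norm_real, Complex.norm_real,
          Real.norm_eq_abs, Real.norm_eq_abs]
    _ ≤ 2 * |C| * ‖x‖ + 2 * |C| * ‖x‖ := by
        have h5 : 2 * |C| * ‖(ℜ x : D)‖ ≤ 2 * |C| * ‖x‖ :=
          mul_le_mul_of_nonneg_left h3 (by positivity)
        have h6 : 2 * |C| * ‖(ℑ x : D)‖ ≤ 2 * |C| * ‖x‖ :=
          mul_le_mul_of_nonneg_left h4 (by positivity)
        linarith
    _ = (4 * |C|) * ‖x‖ := by ring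

/-- polarisation -/
lemma tr_of_sq (T : D →ₗ[ℂ] ℂ) (h : ∀ x, T (star x * x) = T (x * star x)) (x y : D) :
    T (x * y) = T (y * x) := by
  have key : ∀ x w : D, T (star w * x) = T (x * star w) := by
    intro x w
    have h0 := h (x + w)
    have h2 := h (x - w)
    have h1 := h (x + Complex.I • w)
    have h3 := h (x - Complex.I • w)
    have hx := h x
    have hw := h w
    simp only [star_add, star_sub, star_smul, add_mul, mul_add, sub_mul, mul_sub, smul_mul_assoc,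
      mul_smul_comm, map_add, map_sub, map_smul, smul_eq_mul] at h0 h1 h2 h3
    have hI : star Complex.I = -Complex.I := Complex.conj_I
    simp only [hI] at h1 h3
    have hII : Complex.I * Complex.I = -1 := Complex.I_mul_I
    have e1 : T (star x * w) + T (star w * x) = T (x * star w) + T (w * star x) := by
      linear_combination (1 / 2 : ℂ) * (h0 - h2)
    have e2 : T (star x * w) - T (star w * x) = T (w * star x) - T (x * star w) := by
      linear_combination (-(Complex.I) / 2 : ℂ) * (h1 - h3) +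
        (T (star x * w) - T (star w * x) - (T (w * star x) - T (x * star w))) * hII
    linear_combination (1 / 2 : ℂ) * (e1 - e2)
  have := key x (star y)
  rw [star_star] at this
  exact this.symm

end

end EXTaux

theorem t_EXT : StEXT.{u} := by
  intro D _ _ _ g C hb ha hs ht
  have hT : ∀ x, EXTaux.T0 g ha hs (star x * x) = EXTaux.T0 g ha hs (x * star x) := by
    intro x
    rw [EXTaux.T0_nonneg ha hs _ (star_mul_self_nonneg x),
      EXTaux.T0_nonneg ha hs _ (mul_star_self_nonneg x), ht x]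
  refine ⟨⟨(EXTaux.T0 g ha hs).mkContinuous (4 * |C|) (EXTaux.T0_bound hb ha hs), ?_, ?_⟩, ?_⟩
  · intro x
    rw [LinearMap.mkContinuous_apply, EXTaux.T0_nonneg ha hs _ (star_mul_self_nonneg x)]
    exact ⟨by rw [Complex.ofReal_re]; exact (hb _ (star_mul_self_nonneg x)).1,
      Complex.ofReal_im _⟩
  · intro x y
    rw [LinearMap.mkContinuous_apply, LinearMap.mkContinuous_apply]
    exact EXTaux.tr_of_sq _ hT x y
  · intro x hx
    show (((EXTaux.T0 g ha hs).mkContinuous (4 * |C|) (EXTaux.T0_bound hb ha hs)) x).re = g x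
    rw [LinearMap.mkContinuous_apply, EXTaux.T0_nonneg ha hs _ hx, Complex.ofReal_re]

end Pool.Agent.H30R2.PZ
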