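import Pool.Agent.H667R5.NX.PZ.Stubs

/-!
# Task FULLN: in a simple algebra every nonzero positive element is algebraically full
-/

set_option autoImplicit false

namespace Pool.Agent.H30R2.PZ

open Filter Topology Pool.Agent.H327R4.Pure Pool.Agent.H667R5.TW Pool.Agent.H270R2.NU
open scoped ENNReal CStarAlgebra ComplexOrder

universe u

namespace FULLNx

section one
variable {A : Type u} [NonUnitalCStarAlgebra A]

/-- sums `∑ a_i c b_i` -/
def J (c : A) : Set A := {x | ∃ (n : ℕ) (a b : Fin n → A), x = ∑ i, a i * c * b i}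

theorem J_zero (c : A) : (0 : A) ∈ J c := ⟨0, Fin.elim0, Fin.elim0, by simp⟩

theorem J_add (c : A) {x y : A} (hx : x ∈ J c) (hy : y ∈ J c) : x + y ∈ J c := by
  obtain ⟨n, a, b, rfl⟩ := hx
  obtain ⟨m, a', b', rfl⟩ := hy
  refine ⟨n + m, Fin.append a a', Fin.append b b', ?_⟩
  rw [Fin.sum_univ_add]
  simp

theorem J_left (c : A) {x y : A} (hy : y ∈ J c) : x * y ∈ J c := by
  obtain ⟨m, a, b, rfl⟩ := hy
  refine ⟨m, fun i => x * a i, b, ?_⟩
  rw [Finset.mul_sum]
  exact Finset.sum_congr rfl fun i _ => by simp only [mul_assoc]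

theorem J_right (c : A) {x y : A} (hx : x ∈ J c) : x * y ∈ J c := by
  obtain ⟨m, a, b, rfl⟩ := hx
  refine ⟨m, a, fun i => b i * y, ?_⟩
  rw [Finset.sum_mul]
  exact Finset.sum_congr rfl fun i _ => by simp only [mul_assoc]

theorem J_smul (c : A) (z : ℂ) {x : A} (hx : x ∈ J c) : z • x ∈ J c := by
  obtain ⟨m, a, b, rfl⟩ := hx
  refine ⟨m, fun i => z • a i, b, ?_⟩
  rw [Finset.smul_sum]
  exact Finset.sum_congr rfl fun i _ => by simp only [smul_mul_assoc]

/-- the ideal generated by `c` -/
def Jm (c : A) : Submodule ℂ A where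
  carrier := J c
  add_mem' := fun hx hy => J_add c hx hy
  zero_mem' := J_zero c
  smul_mem' := fun z _ hx => J_smul c z hx

theorem exists_near (h : SimpleN A) (c : A) (hcs : star c = c) (hc : c ≠ 0) (e : A) :
    ∃ X ∈ J c, ‖e - X‖ < 1 / 4 := by
  set I := (Jm c).topologicalClosure with hI
  have hcoe : (I : Set A) = closure (J c) := Submodule.topologicalClosure_coe _
  have hcl : IsClosed (I : Set A) := Submodule.isClosed_topologicalClosure _
  have hl : ∀ x y, y ∈ I → x * y ∈ I := by
    intro x y hy
    have hy' : y ∈ closure (J c) := by rw [← hcoe]; exact hy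
    have : x * y ∈ closure (J c) :=
      map_mem_closure (f := fun z => x * z) (continuous_const.mul continuous_id) hy'
        fun _ h => J_left c (x := x) h
    rw [← hcoe] at this
    exact this
  have hr : ∀ x y, x ∈ I → x * y ∈ I := by
    intro x y hx
    have hx' : x ∈ closure (J c) := by rw [← hcoe]; exact hx
    have : x * y ∈ closure (J c) :=
      map_mem_closure (f := fun z => z * y) (continuous_id.mul continuous_const) hx'
        fun _ h => J_right c (y := y) h
    rw [← hcoe] at this
    exact this
  rcases h.2 I hcl hl hr with hb | ht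
  · exfalso
    have h1 : c * c * c ∈ I := by
      have : c * c * c ∈ closure (J c) := subset_closure ⟨1, fun _ => c, fun _ => c, by simp⟩
      rw [← hcoe] at this
      exact this
    rw [hb, Submodule.mem_bot] at h1
    have h2 : star (c * c) * (c * c) = 0 := by
      rw [star_mul, hcs]
      calc c * c * (c * c) = c * c * c * c := by simp only [mul_assoc]
        _ = 0 := by rw [h1, zero_mul]
    have h3 : c * c = 0 := (CStarRing.star_mul_self_eq_zero_iff _).1 h2
    have h4 : star c * c = 0 := by rw [hcs]; exact h3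
    exact hc ((CStarRing.star_mul_self_eq_zero_iff _).1 h4)
  · have h1 : e ∈ closure (J c) := by
      rw [← hcoe, ht]
      trivial
    rw [Metric.mem_closure_iff] at h1
    obtain ⟨X, hX, hd⟩ := h1 (1 / 4) (by norm_num)
    refine ⟨X, hX, ?_⟩
    rw [dist_eq_norm] at hd
    exact hd

end one

section two
variable {A : Type u} [NonUnitalCStarAlgebra A] [PartialOrder A] [StarOrderedRing A]

theorem conj (c w s q : A) (hs : star s = s) :
    star (w * s * star q) * c * (w * s * star q) = (q * s) * (star w * c * w) * (s * star q) := by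
  rw [star_mul, star_star, star_mul, hs]
  simp only [mul_assoc]

/-- quasi-inverse of `T - e` -/
theorem quasi (e T X : A) (he : 0 ≤ e) (hX : ‖e - X‖ < 1 / 4) (hT : X + star X ≤ T)
    (hTs : star T = T) :
    ∃ l : A, star l = l ∧ (T - e) + l + (T - e) * l = 0 ∧ l + (T - e) + l * (T - e) = 0 := by
  have hes : star e = e := (IsSelfAdjoint.of_nonneg he).star_eq
  set σ : A := (X - e) + star (X - e) with hσ
  have hσs : IsSelfAdjoint σ := IsSelfAdjoint.add_star_self _
  have hσn : ‖σ + σ‖ ≤ 1 := by
    have h1 : ‖X - e‖ < 1 / 4 := by rw [norm_sub_rev]; exact hX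
    have h2 : ‖σ‖ ≤ 1 / 4 + 1 / 4 := by
      refine (norm_add_le _ _).trans ?_
      rw [norm_star]
      linarith
    have h3 := norm_add_le σ σ
    linarith
  set u : Unitization ℂ A := 1 + ((T - e : A) : Unitization ℂ A) with hu
  have h1 : (0 : Unitization ℂ A) ≤ ((T - (X + star X) : A) : Unitization ℂ A) :=
    Unitization.inr_nonneg_iff.2 (sub_nonneg.2 hT)
  have h2 : (0 : Unitization ℂ A) ≤ ((e : A) : Unitization ℂ A) := Unitization.inr_nonneg_iff.2 he
  have h3 : (0 : Unitization ℂ A) ≤ 1 + ((σ + σ : A) : Unitization ℂ A) := by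
    have hs : IsSelfAdjoint ((σ + σ : A) : Unitization ℂ A) := by
      have := (hσs.add hσs)
      exact this.inr ℂ
    have h4 := hs.neg_algebraMap_norm_le_self
    have h5 : ‖((σ + σ : A) : Unitization ℂ A)‖ ≤ 1 := by
      rw [Unitization.norm_inr]
      exact hσn
    have h6 : -(1 : Unitization ℂ A) ≤ ((σ + σ : A) : Unitization ℂ A) := by
      refine le_trans ?_ h4
      rw [neg_le_neg_iff]
      have := (algebraMap_mono (Unitization ℂ A) :
        Monotone (algebraMap ℝ (Unitization ℂ A))) h5
      simpa using this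
    have h7 : (0 : Unitization ℂ A) ≤ ((σ + σ : A) : Unitization ℂ A) - -1 := sub_nonneg.2 h6
    rw [sub_neg_eq_add, add_comm] at h7
    exact h7
  have h8 : u + u = 1 + ((1 + ((σ + σ : A) : Unitization ℂ A)) +
      (((T - (X + star X) : A) : Unitization ℂ A) + ((T - (X + star X) : A) : Unitization ℂ A)) +
      (((e : A) : Unitization ℂ A) + ((e : A) : Unitization ℂ A))) := by
    rw [hu, hσ, star_sub, hes]
    simp only [Unitization.inr_add, Unitization.inr_sub]
    abel
  have h9 : (1 : Unitization ℂ A) ≤ u + u := by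
    rw [h8]
    refine le_add_of_nonneg_right ?_
    exact add_nonneg (add_nonneg h3 (add_nonneg h1 h1)) (add_nonneg h2 h2)
  have h10 : IsUnit (u + u) := by
    have h0 : (0 : Unitization ℂ A) ≤ 1 := zero_le_one
    exact CStarAlgebra.isUnit_of_le 1 h9
  obtain ⟨x, hx⟩ := h10
  set w : Unitization ℂ A := ((x⁻¹ : (Unitization ℂ A)ˣ) : Unitization ℂ A) with hw
  have hxw : (u + u) * w = 1 := by rw [← hx, hw, Units.mul_inv]
  have hwx : w * (u + u) = 1 := by rw [← hx, hw, Units.inv_mul]
  set v : Unitization ℂ A := w + w with hv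
  have huv : u * v = 1 := by
    rw [hv, mul_add, ← add_mul, hxw]
  have hvu : v * u = 1 := by
    rw [hv, add_mul, ← mul_add, hwx]
  have hus : star u = u := by
    rw [hu, star_add, star_one, ← Unitization.inr_star, star_sub, hTs, hes]
  have hvs : star v = v := by
    have h11 : star v * u = 1 := by
      rw [← hus, ← star_mul, huv, star_one]
    calc star v = star v * (u * v) := by rw [huv, mul_one]
      _ = v := by rw [← mul_assoc, h11, one_mul]
  have hfu : u.fst = 1 := by
    rw [hu, Unitization.fst_add, Unitization.fst_one, Unitization.fst_inr, add_zero]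
  have hsu : u.snd = T - e := by
    rw [hu, Unitization.snd_add, Unitization.snd_one, Unitization.snd_inr, zero_add]
  have hfv : v.fst = 1 := by
    have h12 : (u * v).fst = (1 : Unitization ℂ A).fst := by rw [huv]
    rw [Unitization.fst_mul, hfu, one_mul, Unitization.fst_one] at h12
    exact h12
  refine ⟨v.snd, ?_, ?_, ?_⟩
  · have h13 : (star v).snd = v.snd := by rw [hvs]
    rw [Unitization.snd_star] at h13
    exact h13
  · have h14 : (u * v).snd = (1 : Unitization ℂ A).snd := by rw [huv]
    rw [Unitization.snd_mul, hfu, hfv, hsu, one_smul, one_smul, Unitization.snd_one] at h14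
    rw [← h14]
    abel
  · have h15 : (v * u).snd = (1 : Unitization ℂ A).snd := by rw [hvu]
    rw [Unitization.snd_mul, hfu, hfv, hsu, one_smul, one_smul, Unitization.snd_one] at h15
    rw [← h15]
    abel

end two

end FULLNx

theorem t_FULLN : StFULLN.{u} := by
  intro A _ _ _ hA c h hc0 hc hh ε hε
  have hcs : star c = c := (IsSelfAdjoint.of_nonneg hc0).star_eq
  have hhs : IsSelfAdjoint h := IsSelfAdjoint.of_nonneg hh
  -- functions of `h`
  set m : ℝ → ℝ := fun t => Real.sqrt (max (t - ε) 0) with hm
  set f : ℝ → ℝ := fun t => min 1 (|t| / ε) with hf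
  have hmc : Continuous m := by rw [hm]; fun_prop
  have hm0 : m 0 = 0 := by simp [hm, hε.le]
  have hfc : Continuous f := by rw [hf]; fun_prop
  have hf0 : f 0 = 0 := by simp [hf]
  set r : A := cfcₙ m h with hr
  set e : A := cfcₙ f h with he
  have hrs : star r = r := (IsSelfAdjoint.cfcₙ (f := m) (a := h)).star_eq
  have he0 : 0 ≤ e := cfcₙ_nonneg fun t _ => le_min zero_le_one (by positivity)
  have hrr : r * r = cut ε h := by
    rw [hr, ← cfcₙ_mul m m h hmc.continuousOn hm0 hmc.continuousOn hm0]
    unfold cut
    exact cfcₙ_congr fun t _ => Real.mul_self_sqrt (le_max_right _ _)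
  have hre : r * e = r := by
    rw [hr, he, ← cfcₙ_mul m f h hmc.continuousOn hm0 hfc.continuousOn hf0]
    refine cfcₙ_congr fun t _ => ?_
    show m t * f t = m t
    rcases le_total t ε with ht | ht
    · have : m t = 0 := by
        simp only [hm]
        rw [max_eq_right (by linarith), Real.sqrt_zero]
      rw [this, zero_mul]
    · have : f t = 1 := by
        simp only [hf]
        apply min_eq_left
        rw [le_div_iff₀ hε, one_mul, abs_of_nonneg (by linarith)]
        exact ht
      rw [this, mul_one]
  -- approximation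
  obtain ⟨X, ⟨n, a, b, hXe⟩, hX⟩ := FULLNx.exists_near hA c hcs hc e
  set z : Fin (n + n) → A := Fin.append (fun i => star (a i)) b with hz
  set T : A := ∑ j, star (z j) * c * z j with hT
  have hT' : T = ∑ i, (a i * c * star (a i) + star (b i) * c * b i) := by
    rw [hT, hz, Fin.sum_univ_add, Finset.sum_add_distrib]
    simp only [Fin.append_left, Fin.append_right, star_star]
  have hXT : X + star X ≤ T := by
    rw [hXe, star_sum, ← Finset.sum_add_distrib, hT']
    refine Finset.sum_le_sum fun i _ => ?_
    have h := star_right_conjugate_nonneg hc0 (a i - star (b i))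
    have e : (a i - star (b i)) * c * star (a i - star (b i)) =
        (a i * c * star (a i) + star (b i) * c * b i) -
          (a i * c * b i + star (a i * c * b i)) := by
      rw [star_sub, star_star, star_mul, star_mul, hcs]
      noncomm_ring
    rw [e] at h
    exact sub_nonneg.1 h
  have hTs : star T = T := by
    rw [hT, star_sum]
    refine Finset.sum_congr rfl fun j _ => ?_
    rw [star_mul, star_mul, star_star, hcs, mul_assoc]
  obtain ⟨l, hls, hk1, hk2⟩ := FULLNx.quasi e T X he0 hX hXT hTs
  -- `b = (1 + l) T (1 + l)`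
  set w : Fin (n + n) → A := fun j => z j + z j * l with hw
  set B : A := ∑ j, star (w j) * c * w j with hB
  have hB' : B = T + l * T + T * l + l * T * l := by
    have h1 : ∀ j, star (w j) * c * w j = star (z j) * c * z j + l * (star (z j) * c * z j) +
        (star (z j) * c * z j) * l + l * (star (z j) * c * z j) * l := by
      intro j
      simp only [hw]
      rw [star_add, star_mul, hls]
      noncomm_ring
    rw [hB, Finset.sum_congr rfl fun j _ => h1 j, Finset.sum_add_distrib,
      Finset.sum_add_distrib, Finset.sum_add_distrib, ← Finset.mul_sum, ← Finset.sum_mul,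
      ← Finset.sum_mul, ← Finset.mul_sum]
  have hB0 : 0 ≤ B := Finset.sum_nonneg fun j _ => star_left_conjugate_nonneg hc0 (w j)
  have hBs : star B = B := (IsSelfAdjoint.of_nonneg hB0).star_eq
  set s : A := CFC.sqrt B with hs
  have hs0 : 0 ≤ s := CFC.sqrt_nonneg B
  have hss : star s = s := (IsSelfAdjoint.of_nonneg hs0).star_eq
  have hssB : s * s = B := CFC.sqrt_mul_sqrt_self B hB0
  have h1 : r * T = r + r * (T - e) := by
    rw [mul_sub, hre]
    abel
  have h2 : r * T + r * T * l = r := by
    have h3 : r * T + r * T * l = r + r * ((T - e) + l + (T - e) * l) := by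
      rw [h1]
      noncomm_ring
    rw [h3, hk1, mul_zero, add_zero]
  have hdB : r * T * B = r := by
    have h3 : r * T * B = (r * T + r * T * l) * T + (r * T + r * T * l) * T * l := by
      rw [hB']
      noncomm_ring
    rw [h3, h2, h2]
  refine ⟨n + n, fun j => w j * s * star (r * T), ?_⟩
  have h4 : ∀ j, star (w j * s * star (r * T)) * c * (w j * s * star (r * T)) =
      (r * T * s) * (star (w j) * c * w j) * (s * star (r * T)) := by
    intro j
    exact FULLNx.conj c (w j) s (r * T) hss
  rw [Finset.sum_congr rfl fun j _ => h4 j, ← Finset.sum_mul, ← Finset.mul_sum, ← hB]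
  have h5 : s * B * s = B * B := by
    rw [← hssB]
    simp only [mul_assoc]
  calc r * T * s * B * (s * star (r * T)) = r * T * (s * B * s) * star (r * T) := by
        simp only [mul_assoc]
    _ = (r * T * B) * star (r * T * B) := by
        rw [h5, star_mul (r * T) B, hBs]
        simp only [mul_assoc]
    _ = cut ε h := by rw [hdB, hrs, hrr]

end Pool.Agent.H30R2.PZ
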