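import Pool.Agent.H667R5.NX.PZ.Stubs

/-!
# HB: basic facts on hereditary subalgebras
-/

set_option autoImplicit false

namespace Pool.Agent.H30R2.PZ

open Filter Topology Pool.Agent.H327R4.Pure Pool.Agent.H667R5.TW Pool.Agent.H270R2.NU
open scoped ENNReal CStarAlgebra ComplexOrder

universe u

section hb
variable {A D : Type u} [NonUnitalCStarAlgebra A] [PartialOrder A]
  [StarOrderedRing A] [NonUnitalCStarAlgebra D] [PartialOrder D] [StarOrderedRing D]

omit [PartialOrder A] [StarOrderedRing A] [PartialOrder D] [StarOrderedRing D] in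
theorem hb_inj {ι : D →⋆ₙₐ[ℂ] A} {a : A} (h : IsHer ι a) {x y : D} (hxy : ι x = ι y) : x = y := by
  have h1 : ‖ι (x - y)‖ = ‖x - y‖ := h.norm _
  rw [map_sub, hxy, sub_self, norm_zero] at h1
  exact sub_eq_zero.1 (norm_eq_zero.1 h1.symm)

omit [PartialOrder A] [StarOrderedRing A] [PartialOrder D] [StarOrderedRing D] in
theorem hb_cont {ι : D →⋆ₙₐ[ℂ] A} {a : A} (h : IsHer ι a) : Continuous ι :=
  (AddMonoidHomClass.isometry_of_norm ι h.norm).continuous

omit [PartialOrder A] [StarOrderedRing A] [PartialOrder D] [StarOrderedRing D] in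
theorem hb_mem {ι : D →⋆ₙₐ[ℂ] A} {a : A} (h : IsHer ι a) (w : A)
    (hw : ∀ ε : ℝ, 0 < ε → ∃ z : D, ‖w - ι z‖ < ε) : ∃ z : D, ι z = w := by
  have h1 : IsClosed (Set.range ι) := by rw [h.range]; exact isClosed_closure
  have h2 : w ∈ closure (Set.range ι) := by
    rw [Metric.mem_closure_iff]
    intro ε hε
    obtain ⟨z, hz⟩ := hw ε hε
    exact ⟨ι z, ⟨z, rfl⟩, by rw [dist_eq_norm]; exact hz⟩
  rw [h1.closure_eq] at h2
  exact h2

omit [PartialOrder A] [StarOrderedRing A] [PartialOrder D] [StarOrderedRing D] in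
theorem hb_one {ι : D →⋆ₙₐ[ℂ] A} {a : A} (h : IsHer ι a) (x y : D) (t : A) :
    ∃ z : D, ι z = ι x * t * ι y := by
  have hx : ι x ∈ closure (Set.range fun t : A => a * t * a) := by
    rw [← h.range]; exact ⟨x, rfl⟩
  have hy : ι y ∈ closure (Set.range fun t : A => a * t * a) := by
    rw [← h.range]; exact ⟨y, rfl⟩
  have hf : Continuous (Function.uncurry fun p q : A => p * t * q) := by
    simp only [Function.uncurry_def]
    fun_prop
  have h1 : ι x * t * ι y ∈ closure (Set.range fun t : A => a * t * a) := by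
    refine map_mem_closure₂ (f := fun p q : A => p * t * q) hf hx hy ?_
    rintro _ ⟨p, rfl⟩ _ ⟨q, rfl⟩
    refine ⟨p * a * t * (a * q), ?_⟩
    simp only [mul_assoc]
  rw [← h.range] at h1
  exact h1

omit [PartialOrder A] [StarOrderedRing A] [PartialOrder D] [StarOrderedRing D] in
theorem hb_cfc {ι : D →⋆ₙₐ[ℂ] A} {a : A} (h : IsHer ι a) (f : ℝ → ℝ) (x : D)
    (hf : Continuous f) (hf0 : f 0 = 0) (hx : IsSelfAdjoint x) :
    ι (cfcₙ f x) = cfcₙ f (ι x) := by
  have h2 : IsSelfAdjoint (ι x) := hx.map ι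
  exact NonUnitalStarAlgHomClass.map_cfcₙ (S := ℂ) ι f x hf.continuousOn hf0 (hb_cont h) hx h2

theorem hb_nn (ι : D →⋆ₙₐ[ℂ] A) {x : D} (hx : 0 ≤ x) : 0 ≤ ι x := by
  obtain ⟨y, rfl⟩ := CStarAlgebra.nonneg_iff_eq_star_mul_self.1 hx
  rw [map_mul, map_star]
  exact star_mul_self_nonneg _

theorem hb_pos {ι : D →⋆ₙₐ[ℂ] A} {a : A} (h : IsHer ι a) (x : D) : 0 ≤ x ↔ 0 ≤ ι x := by
  refine ⟨hb_nn ι, fun hx => ?_⟩
  have hs : IsSelfAdjoint x := by
    have h1 : star (ι x) = ι x := (IsSelfAdjoint.of_nonneg hx).star_eq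
    rw [← map_star] at h1
    exact hb_inj h h1
  have h1 : ι (cfcₙ (fun t : ℝ => min t 0) x) = 0 := by
    rw [hb_cfc h _ x (by fun_prop) (by simp) hs]
    have h2 : cfcₙ (fun t : ℝ => min t 0) (ι x) = cfcₙ (fun _ : ℝ => (0 : ℝ)) (ι x) := by
      refine cfcₙ_congr fun t ht => ?_
      have : 0 ≤ t := quasispectrum_nonneg_of_nonneg _ hx t ht
      simp [this]
    rw [h2]
    simp
  have h2 : cfcₙ (fun t : ℝ => min t 0) x = 0 := by
    apply hb_inj h
    rw [h1, map_zero]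
  have h3 : x = cfcₙ (fun t : ℝ => max t 0 + min t 0) x := by
    conv_lhs => rw [← cfcₙ_id' ℝ x hs]
    refine cfcₙ_congr fun t _ => ?_
    simp [max_add_min]
  rw [h3, cfcₙ_add _ _ x (by fun_prop) (by simp) (by fun_prop) (by simp), h2, add_zero]
  exact cfcₙ_nonneg fun t _ => le_max_right _ _

theorem hb_le {ι : D →⋆ₙₐ[ℂ] A} {a : A} (h : IsHer ι a) (x y : D) : x ≤ y ↔ ι x ≤ ι y := by
  rw [← sub_nonneg, hb_pos h, map_sub, sub_nonneg]

omit [PartialOrder D] [StarOrderedRing D] in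
theorem hb_a {ι : D →⋆ₙₐ[ℂ] A} {a : A} (ha : 0 ≤ a) (h : IsHer ι a) : ∃ z : D, ι z = a := by
  refine hb_mem h a fun ε hε => ?_
  have hs : IsSelfAdjoint a := IsSelfAdjoint.of_nonneg ha
  have hd : ∀ t : ℝ, t ^ 2 + ε ^ 2 ≠ 0 := fun t => by positivity
  have hc : Continuous fun t : ℝ => t / (t ^ 2 + ε ^ 2) := by
    refine Continuous.div (by fun_prop) (by fun_prop) hd
  have h1 : a * cfcₙ (fun t : ℝ => t / (t ^ 2 + ε ^ 2)) a * a ∈ Set.range ι := by
    rw [h.range]
    exact subset_closure ⟨_, rfl⟩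
  obtain ⟨z, hz⟩ := h1
  refine ⟨z, ?_⟩
  rw [hz]
  have h2 : a - a * cfcₙ (fun t : ℝ => t / (t ^ 2 + ε ^ 2)) a * a
      = cfcₙ (fun t : ℝ => t - t * (t / (t ^ 2 + ε ^ 2)) * t) a := by
    rw [cfcₙ_sub (fun t : ℝ => t) (fun t : ℝ => t * (t / (t ^ 2 + ε ^ 2)) * t) a
      (by fun_prop) (by simp) (by fun_prop) (by simp),
      cfcₙ_mul (fun t : ℝ => t * (t / (t ^ 2 + ε ^ 2))) (fun t : ℝ => t) a
      (by fun_prop) (by simp) (by fun_prop) (by simp),
      cfcₙ_mul (fun t : ℝ => t) (fun t : ℝ => t / (t ^ 2 + ε ^ 2)) a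
      (by fun_prop) (by simp) hc.continuousOn (by simp), cfcₙ_id' ℝ a hs]
  rw [h2]
  refine lt_of_le_of_lt (norm_cfcₙ_le (c := ε / 2) fun t _ => ?_) (by linarith)
  have hp : 0 < t ^ 2 + ε ^ 2 := by positivity
  have h3 : t - t * (t / (t ^ 2 + ε ^ 2)) * t = t * ε ^ 2 / (t ^ 2 + ε ^ 2) := by
    field_simp
    ring
  rw [h3, Real.norm_eq_abs, abs_div, abs_of_pos hp, div_le_iff₀ hp, abs_mul,
    abs_of_nonneg (by positivity : 0 ≤ ε ^ 2)]
  have h4 : |t| ^ 2 = t ^ 2 := sq_abs t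
  nlinarith [sq_nonneg (|t| - ε), abs_nonneg t]

theorem hb_her {ι : D →⋆ₙₐ[ℂ] A} {a : A} (h : IsHer ι a) (c : A) (x : D) (hc : 0 ≤ c)
    (hcx : c ≤ ι x) : ∃ z : D, ι z = c := by
  have hy : 0 ≤ ι x := hc.trans hcx
  have hx : 0 ≤ x := (hb_pos h x).2 hy
  have hsx : IsSelfAdjoint x := IsSelfAdjoint.of_nonneg hx
  have hsy : IsSelfAdjoint (ι x) := IsSelfAdjoint.of_nonneg hy
  obtain ⟨r, hr0, hrr⟩ : ∃ r : A, 0 ≤ r ∧ r * r = c :=
    ⟨CFC.sqrt c, CFC.sqrt_nonneg c, CFC.sqrt_mul_sqrt_self c hc⟩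
  have hsr : star r = r := (IsSelfAdjoint.of_nonneg hr0).star_eq
  refine hb_mem h c fun ε hε => ?_
  set η : ℝ := ε / (2 * ‖r‖ + 1) with hη
  have hη0 : 0 < η := by positivity
  set g : ℝ → ℝ := fun t => t / (|t| + η ^ 2) with hg
  have hd : ∀ t : ℝ, |t| + η ^ 2 ≠ 0 := fun t => by positivity
  have hgc : Continuous g := by
    refine Continuous.div (by fun_prop) (by fun_prop) hd
  have hg0 : g 0 = 0 := by simp [hg]
  set e' : D := cfcₙ g x with he'
  set e : A := cfcₙ g (ι x) with he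
  have hee : ι e' = e := hb_cfc h g x hgc hg0 hsx
  have hse : star e = e := (cfcₙ_predicate (R := ℝ) (p := IsSelfAdjoint) g (ι x)).star_eq
  have hen : ‖e‖ ≤ 1 := by
    refine norm_cfcₙ_le (c := 1) fun t _ => ?_
    have hp : 0 < |t| + η ^ 2 := by positivity
    simp only [hg, Real.norm_eq_abs, abs_div]
    rw [abs_of_pos hp, div_le_iff₀ hp]
    nlinarith [sq_nonneg η]
  -- positivity of q
  have hq : ∀ w : A, 0 ≤ w → 0 ≤ w - e * w - w * e + e * w * e := by
    intro w hw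
    obtain ⟨v, rfl⟩ := CStarAlgebra.nonneg_iff_eq_star_mul_self.1 hw
    have h1 : star v * v - e * (star v * v) - star v * v * e + e * (star v * v) * e
        = star (v - v * e) * (v - v * e) := by
      rw [star_sub, star_mul, hse]
      noncomm_ring
    rw [h1]
    exact star_mul_self_nonneg _
  have hqc : c - e * c - c * e + e * c * e ≤ ι x - e * ι x - ι x * e + e * ι x * e := by
    rw [← sub_nonneg]
    have h1 := hq (ι x - c) (sub_nonneg.2 hcx)
    have h2 : (ι x - c) - e * (ι x - c) - (ι x - c) * e + e * (ι x - c) * e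
        = ι x - e * ι x - ι x * e + e * ι x * e - (c - e * c - c * e + e * c * e) := by
      noncomm_ring
    rw [h2] at h1
    exact h1
  have hqy : ι x - e * ι x - ι x * e + e * ι x * e
      = cfcₙ (fun t : ℝ => t - g t * t - t * g t + g t * t * g t) (ι x) := by
    rw [cfcₙ_add (fun t : ℝ => t - g t * t - t * g t) (fun t : ℝ => g t * t * g t) (ι x)
      (by fun_prop) (by simp) (by fun_prop) (by simp),
      cfcₙ_sub (fun t : ℝ => t - g t * t) (fun t : ℝ => t * g t) (ι x)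
      (by fun_prop) (by simp) (by fun_prop) (by simp),
      cfcₙ_sub (fun t : ℝ => t) (fun t : ℝ => g t * t) (ι x)
      (by fun_prop) (by simp) (by fun_prop) (by simp),
      cfcₙ_mul (fun t : ℝ => g t * t) g (ι x)
      (by fun_prop) (by simp) (by fun_prop) (by simp [hg0]),
      cfcₙ_mul g (fun t : ℝ => t) (ι x)
      (by fun_prop) (by simp [hg0]) (by fun_prop) (by simp),
      cfcₙ_mul (fun t : ℝ => t) g (ι x)
      (by fun_prop) (by simp) (by fun_prop) (by simp [hg0]), cfcₙ_id' ℝ (ι x) hsy]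
  have hqn : ‖c - e * c - c * e + e * c * e‖ ≤ η ^ 2 := by
    refine (CStarAlgebra.norm_le_norm_of_nonneg_of_le (hq c hc) hqc).trans ?_
    rw [hqy]
    refine norm_cfcₙ_le (c := η ^ 2) fun t ht => ?_
    have ht0 : 0 ≤ t := quasispectrum_nonneg_of_nonneg _ hy t ht
    have hp : 0 < t + η ^ 2 := by positivity
    have h3 : t - g t * t - t * g t + g t * t * g t
        = t * (η ^ 2) ^ 2 / (t + η ^ 2) ^ 2 := by
      simp only [hg, abs_of_nonneg ht0]
      field_simp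
      ring
    rw [h3, Real.norm_eq_abs, abs_of_nonneg (by positivity), div_le_iff₀ (by positivity)]
    have h5 : 0 < η ^ 2 := by positivity
    have h6 : 0 ≤ t * η ^ 2 := by positivity
    nlinarith [mul_nonneg h5.le (sq_nonneg t), mul_nonneg h5.le (sq_nonneg (η ^ 2)),
      mul_nonneg h5.le h6]
  have hA : ‖r - e * r‖ ≤ η := by
    have h1 : ‖r - e * r‖ * ‖r - e * r‖ ≤ η * η := by
      rw [← CStarRing.norm_self_mul_star]
      have h2 : (r - e * r) * star (r - e * r) = c - e * c - c * e + e * c * e := by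
        rw [star_sub, star_mul, hse, hsr, ← hrr]
        noncomm_ring
      rw [h2]
      linarith [hqn, sq η]
    nlinarith [norm_nonneg (r - e * r)]
  have hB : ‖r - r * e‖ ≤ η := by
    have h1 : r - r * e = star (r - e * r) := by
      rw [star_sub, star_mul, hse, hsr]
    rw [h1, norm_star]
    exact hA
  obtain ⟨z, hz⟩ := hb_one h e' e' c
  refine ⟨z, ?_⟩
  rw [hz, hee]
  have h1 : c - e * c * e = (r - e * r) * r + e * (r * (r - r * e)) := by
    rw [← hrr]
    noncomm_ring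
  rw [h1]
  have h2 : ‖(r - e * r) * r‖ ≤ η * ‖r‖ :=
    (norm_mul_le _ _).trans (mul_le_mul_of_nonneg_right hA (norm_nonneg _))
  have h3 : ‖e * (r * (r - r * e))‖ ≤ ‖r‖ * η := by
    have h4 : ‖r * (r - r * e)‖ ≤ ‖r‖ * η :=
      (norm_mul_le _ _).trans (mul_le_mul_of_nonneg_left hB (norm_nonneg _))
    refine (norm_mul_le _ _).trans ?_
    have h5 : 0 ≤ ‖r‖ * η := by positivity
    nlinarith [norm_nonneg e, norm_nonneg (r * (r - r * e))]
  refine lt_of_le_of_lt (norm_add_le _ _) ?_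
  have h6 : η * (2 * ‖r‖ + 1) = ε := by
    rw [hη]
    field_simp
  nlinarith [norm_nonneg r]

end hb

theorem t_HB (hA : StAUN.{u}) : StHB.{u} := by
  intro A D _ _ _ _ _ _ ι a ha h
  exact ⟨hb_one h, hb_pos h, hb_le h,
    fun f x hf hf0 hx => hb_cfc h f x hf hf0 (IsSelfAdjoint.of_nonneg hx),
    hb_a ha h, hb_her h, fun F ε hε => hA D F ε hε⟩

end Pool.Agent.H30R2.PZ
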