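import Pool.Agent.H667R5.NX.PZ.Stubs

set_option autoImplicit false

namespace Pool.Agent.H30R2.PZ

open Filter Topology Pool.Agent.H327R4.Pure Pool.Agent.H667R5.TW Pool.Agent.H270R2.NU
open scoped ENNReal CStarAlgebra ComplexOrder

universe u

open CStarMatrix WithCStarModule in
theorem HCZ_norm_le {D : Type u} [NonUnitalCStarAlgebra D] [PartialOrder D] [StarOrderedRing D]
    {n : ℕ} (M : MM n D) : ‖M‖ ≤ ∑ j, ∑ i, ‖M i j‖ := by
  rw [norm_def]
  refine (toCLM M).opNorm_le_bound (by positivity) fun v => ?_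
  simp only [toCLM_apply_eq_sum, Finset.sum_mul]
  apply pi_norm_le_sum_norm _ |>.trans
  gcongr with i _
  show ‖∑ j, v j * M j i‖ ≤ ∑ j, ‖M j i‖ * ‖v‖
  apply norm_sum_le _ _ |>.trans
  gcongr with j _
  apply norm_mul_le _ _ |>.trans
  rw [mul_comm]
  gcongr
  exact norm_apply_le_norm v j

/-- diagonal matrix -/
def HCZ_dg {D : Type u} [Zero D] (n : ℕ) (u : D) : CStarMatrix (Fin n) (Fin n) D :=
  CStarMatrix.ofMatrix (Matrix.of fun i j => if i = j then u else 0)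

theorem HCZ_dg_apply {D : Type u} [Zero D] (n : ℕ) (u : D) (i j : Fin n) :
    HCZ_dg n u i j = if i = j then u else 0 := rfl

theorem HCZ_dg_mul {D : Type u} [NonUnitalCStarAlgebra D] (n : ℕ) (u : D) (M : MM n D)
    (i j : Fin n) : (HCZ_dg n u * M) i j = u * M i j := by
  rw [CStarMatrix.mul_apply]
  simp only [HCZ_dg_apply, ite_mul, zero_mul]
  simp

theorem HCZ_mul_dg {D : Type u} [NonUnitalCStarAlgebra D] (n : ℕ) (u : D) (M : MM n D)
    (i j : Fin n) : (M * HCZ_dg n u) i j = M i j * u := by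
  rw [CStarMatrix.mul_apply]
  simp only [HCZ_dg_apply, mul_ite, mul_zero]
  simp

theorem HCZ_dg_star {D : Type u} [NonUnitalCStarAlgebra D] (n : ℕ) (u : D) (hu : star u = u) :
    star (HCZ_dg n u : MM n D) = HCZ_dg n u := by
  refine CStarMatrix.ext fun i j => ?_
  rw [CStarMatrix.star_apply, HCZ_dg_apply, HCZ_dg_apply]
  by_cases h : i = j
  · subst h; simp [hu]
  · rw [if_neg h, if_neg (Ne.symm h), star_zero]

theorem HCZ_dg_norm {D : Type u} [NonUnitalCStarAlgebra D] [PartialOrder D] [StarOrderedRing D]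
    (n : ℕ) (u : D) (hu : ‖u‖ ≤ 1) : ‖(HCZ_dg n u : MM n D)‖ ≤ (n : ℝ) ^ 2 := by
  refine (HCZ_norm_le _).trans ?_
  have h1 : ∀ i j : Fin n, ‖(HCZ_dg n u : MM n D) i j‖ ≤ 1 := by
    intro i j
    rw [HCZ_dg_apply]
    split_ifs
    · exact hu
    · rw [norm_zero]; exact zero_le_one
  calc ∑ j : Fin n, ∑ i : Fin n, ‖(HCZ_dg n u : MM n D) i j‖ ≤ ∑ _j : Fin n, ∑ _i : Fin n, (1 : ℝ) :=
        Finset.sum_le_sum fun j _ => Finset.sum_le_sum fun i _ => h1 i j
    _ = (n : ℝ) ^ 2 := by simp [sq]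

theorem HCZ_small {D : Type u} [NonUnitalCStarAlgebra D] [PartialOrder D] [StarOrderedRing D]
    (n : ℕ) (M : MM n D) (η : ℝ) (h : ∀ i j, ‖M i j‖ ≤ η) : ‖M‖ ≤ (n : ℝ) ^ 2 * η := by
  refine (HCZ_norm_le _).trans ?_
  calc ∑ j : Fin n, ∑ i : Fin n, ‖M i j‖ ≤ ∑ _j : Fin n, ∑ _i : Fin n, η :=
        Finset.sum_le_sum fun j _ => Finset.sum_le_sum fun i _ => h i j
    _ = (n : ℝ) ^ 2 * η := by simp [sq]; ring

theorem HCZ_step (hMAP : StMAP.{u}) (hHB : StHB.{u}) (hAUN : StAUN.{u})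
    (A D : Type u) [NonUnitalCStarAlgebra A] [PartialOrder A]
    [StarOrderedRing A] [NonUnitalCStarAlgebra D] [PartialOrder D] [StarOrderedRing D]
    (ι : D →⋆ₙₐ[ℂ] A) (a : A) (ha : 0 ≤ a) (hι : IsHer ι a) (n : ℕ) (p q : MM n D)
    (hC : Cz (p.map ι) (q.map ι)) (ε : ℝ) (hε : 0 < ε) :
    ∃ y : MM n D, ‖y * q * star y - p‖ ≤ ε := by
  classical
  obtain ⟨Φ, hΦ, hΦn, -, -, -⟩ := hMAP A D ι hι.norm n
  obtain ⟨x, hx⟩ := hC
  rw [← hΦ, ← hΦ] at hx
  set C : ℝ := (n : ℝ) ^ 2 with hCdef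
  have hC0 : 0 ≤ C := by positivity
  have hε1 : 0 < ε / (3 * (C ^ 2 + 1)) := by positivity
  obtain ⟨N, hN⟩ := (Metric.tendsto_atTop.mp hx) _ hε1
  have hXN := (hN N le_rfl).le
  rw [dist_eq_norm] at hXN
  set X : MM n A := x N with hXdef
  -- the size of the approximate unit
  set K : ℝ := C ^ 2 * ‖X‖ ^ 2 + 1 with hK
  have hK0 : 0 < K := by positivity
  set η : ℝ := ε / (3 * (K * ((C + 1) * (C + 1)))) with hη
  have hη0 : 0 < η := by positivity
  obtain ⟨u, hu0, hu1, hu⟩ := hAUN D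
    ((Finset.univ : Finset (Fin n × Fin n)).image (fun t => p t.1 t.2) ∪
      (Finset.univ : Finset (Fin n × Fin n)).image (fun t => q t.1 t.2)) η hη0
  have hus : star u = u := (IsSelfAdjoint.of_nonneg hu0).star_eq
  set U : MM n D := HCZ_dg n u with hU
  have hUs : star U = U := HCZ_dg_star n u hus
  have hUn : ‖U‖ ≤ C := HCZ_dg_norm n u hu1
  have hcl : ∀ M : MM n D, (∀ i j, ‖u * M i j - M i j‖ ≤ η ∧ ‖M i j * u - M i j‖ ≤ η) →
      ‖U * M * U - M‖ ≤ (C + 1) * (C * η) := by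
    intro M hM
    have h1 : ‖U * M - M‖ ≤ C * η := by
      refine HCZ_small n _ η fun i j => ?_
      rw [CStarMatrix.sub_apply, hU, HCZ_dg_mul]
      exact (hM i j).1
    have h2 : ‖M * U - M‖ ≤ C * η := by
      refine HCZ_small n _ η fun i j => ?_
      rw [CStarMatrix.sub_apply, hU, HCZ_mul_dg]
      exact (hM i j).2
    have e : U * M * U - M = (U * M - M) * U + (M * U - M) := by noncomm_ring
    rw [e]
    calc ‖(U * M - M) * U + (M * U - M)‖ ≤ ‖(U * M - M) * U‖ + ‖M * U - M‖ := norm_add_le _ _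
      _ ≤ ‖U * M - M‖ * ‖U‖ + ‖M * U - M‖ := by gcongr; exact norm_mul_le _ _
      _ ≤ C * η * C + C * η := by gcongr
      _ = (C + 1) * (C * η) := by ring
  have hp := hcl p fun i j => by
    have := hu (p i j) (Finset.mem_union_left _ (Finset.mem_image.mpr ⟨(i, j), Finset.mem_univ _, rfl⟩))
    exact this
  have hq := hcl q fun i j => by
    have := hu (q i j) (Finset.mem_union_right _ (Finset.mem_image.mpr ⟨(i, j), Finset.mem_univ _, rfl⟩))
    exact this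
  -- the matrix y
  have hz : ∀ i j, ∃ z : D, ι z = ι u * X i j * ι u := fun i j => (hHB A D ι a ha hι).1 u u (X i j)
  choose z hz using hz
  set y : MM n D := CStarMatrix.ofMatrix (Matrix.of z) with hy
  have hUi : ∀ i j, Φ U i j = if i = j then ι u else 0 := by
    intro i j
    rw [hΦ, CStarMatrix.map_apply, hU, HCZ_dg_apply]
    split_ifs
    · rfl
    · exact map_zero ι
  have hΦU : Φ U = HCZ_dg n (ι u) := CStarMatrix.ext fun i j => by rw [hUi, HCZ_dg_apply]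
  have hyX : Φ y = Φ U * X * Φ U := by
    refine CStarMatrix.ext fun i j => ?_
    rw [hΦU, HCZ_mul_dg, HCZ_dg_mul, hΦ, CStarMatrix.map_apply]
    exact hz i j
  refine ⟨y, ?_⟩
  rw [← hΦn, map_sub, map_mul, map_mul, map_star, hyX, star_mul, star_mul, ← map_star, hUs]
  have hUn' : ‖Φ U‖ ≤ C := by rw [hΦn]; exact hUn
  have e : Φ U * X * Φ U * Φ q * (Φ U * (star X * Φ U)) - Φ p =
      Φ U * (X * (Φ (U * q * U - q)) * star X) * Φ U + Φ U * (X * Φ q * star X - Φ p) * Φ U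
        + Φ (U * p * U - p) := by
    simp only [map_sub, map_mul]
    noncomm_ring
  rw [e]
  have t1 : ‖Φ U * (X * (Φ (U * q * U - q)) * star X) * Φ U‖ ≤ ε / 3 := by
    have b1 : ‖Φ U * (X * (Φ (U * q * U - q)) * star X) * Φ U‖ ≤
        C * (‖X‖ * ((C + 1) * (C * η)) * ‖X‖) * C := by
      refine (norm_mul_le _ _).trans ?_
      refine mul_le_mul ?_ hUn' (norm_nonneg _) (by positivity)
      refine (norm_mul_le _ _).trans ?_
      refine mul_le_mul hUn' ?_ (norm_nonneg _) hC0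
      refine (norm_mul_le _ _).trans ?_
      rw [norm_star]
      refine mul_le_mul_of_nonneg_right ?_ (norm_nonneg _)
      refine (norm_mul_le _ _).trans ?_
      refine mul_le_mul_of_nonneg_left ?_ (norm_nonneg _)
      rw [hΦn]
      exact hq
    refine b1.trans ?_
    have b2 : C * (‖X‖ * ((C + 1) * (C * η)) * ‖X‖) * C = (C ^ 2 * ‖X‖ ^ 2) * ((C + 1) * C) * η := by
      ring
    rw [b2, hη]
    have b3 : (C ^ 2 * ‖X‖ ^ 2) * ((C + 1) * C) ≤ K * ((C + 1) * (C + 1)) := by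
      refine mul_le_mul (by rw [hK]; linarith) ?_ (by positivity) hK0.le
      nlinarith
    rw [mul_div_assoc', div_le_iff₀ (by positivity)]
    calc C ^ 2 * ‖X‖ ^ 2 * ((C + 1) * C) * ε ≤ K * ((C + 1) * (C + 1)) * ε :=
          mul_le_mul_of_nonneg_right b3 hε.le
      _ = ε / 3 * (3 * (K * ((C + 1) * (C + 1)))) := by ring
  have t2 : ‖Φ U * (X * Φ q * star X - Φ p) * Φ U‖ ≤ ε / 3 := by
    have b1 : ‖Φ U * (X * Φ q * star X - Φ p) * Φ U‖ ≤ C * (ε / (3 * (C ^ 2 + 1))) * C := by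
      refine (norm_mul_le _ _).trans ?_
      refine mul_le_mul ?_ hUn' (norm_nonneg _) (by positivity)
      refine (norm_mul_le _ _).trans ?_
      exact mul_le_mul hUn' hXN (norm_nonneg _) hC0
    refine b1.trans ?_
    have b2 : C * (ε / (3 * (C ^ 2 + 1))) * C = C ^ 2 * ε / (3 * (C ^ 2 + 1)) := by ring
    rw [b2, div_le_iff₀ (by positivity)]
    nlinarith
  have t3 : ‖Φ (U * p * U - p)‖ ≤ ε / 3 := by
    rw [hΦn]
    refine hp.trans ?_
    rw [hη]
    have b3 : (C + 1) * C ≤ K * ((C + 1) * (C + 1)) := by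
      have k1 : (1 : ℝ) ≤ K := by rw [hK]; linarith [show 0 ≤ C ^ 2 * ‖X‖ ^ 2 by positivity]
      nlinarith [mul_nonneg hC0 hC0]
    have b4 : (C + 1) * (C * (ε / (3 * (K * ((C + 1) * (C + 1)))))) =
        (C + 1) * C * ε / (3 * (K * ((C + 1) * (C + 1)))) := by ring
    rw [b4, div_le_iff₀ (by positivity)]
    calc (C + 1) * C * ε ≤ K * ((C + 1) * (C + 1)) * ε := mul_le_mul_of_nonneg_right b3 hε.le
      _ = ε / 3 * (3 * (K * ((C + 1) * (C + 1)))) := by ring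
  calc _ ≤ ‖Φ U * (X * (Φ (U * q * U - q)) * star X) * Φ U + Φ U * (X * Φ q * star X - Φ p) * Φ U‖
        + ‖Φ (U * p * U - p)‖ := norm_add_le _ _
    _ ≤ ‖Φ U * (X * (Φ (U * q * U - q)) * star X) * Φ U‖ + ‖Φ U * (X * Φ q * star X - Φ p) * Φ U‖
        + ‖Φ (U * p * U - p)‖ := by gcongr; exact norm_add_le _ _
    _ ≤ ε := by linarith

theorem t_HCZ (hMAP : StMAP.{u}) (hHB : StHB.{u}) (hAUN : StAUN.{u}) : StHCZ.{u} := by
  intro A D _ _ _ _ _ _ ι a ha hι n p q _ _ hC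
  have h := fun k : ℕ => HCZ_step hMAP hHB hAUN A D ι a ha hι n p q hC (1 / ((k : ℝ) + 1))
    (by positivity)
  choose y hy using h
  refine ⟨y, ?_⟩
  rw [tendsto_iff_norm_sub_tendsto_zero]
  exact squeeze_zero (fun k => norm_nonneg _) hy tendsto_one_div_add_atTop_nhds_zero_nat

end Pool.Agent.H30R2.PZ
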