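import Pool.Agent.H667R5.NX.PZ.Stubs

set_option autoImplicit false

namespace Pool.Agent.H30R2.PZ

open Filter Topology Pool.Agent.H327R4.Pure Pool.Agent.H667R5.TW Pool.Agent.H270R2.NU
open scoped ENNReal CStarAlgebra ComplexOrder

universe u

/-- the non-closed subalgebra `a A a` -/
def HER_her0 {A : Type u} [NonUnitalCStarAlgebra A] (a : A) (ha : star a = a) :
    NonUnitalStarSubalgebra ℂ A where
  carrier := Set.range fun t : A => a * t * a
  add_mem' := by
    rintro _ _ ⟨t, rfl⟩ ⟨s, rfl⟩
    exact ⟨t + s, by simp only [mul_add, add_mul]⟩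
  zero_mem' := ⟨0, by simp only [mul_zero, zero_mul]⟩
  mul_mem' := by
    rintro _ _ ⟨t, rfl⟩ ⟨s, rfl⟩
    exact ⟨t * a * (a * s), by simp only [mul_assoc]⟩
  smul_mem' := by
    rintro c _ ⟨t, rfl⟩
    exact ⟨c • t, by simp only [mul_smul_comm, smul_mul_assoc]⟩
  star_mem' := by
    rintro _ ⟨t, rfl⟩
    exact ⟨star t, by simp only [star_mul, ha, mul_assoc]⟩

theorem t_HER : StHER.{u} := by
  intro A _ _ _ a ha
  have hs : star a = a := (IsSelfAdjoint.of_nonneg ha).star_eq
  let S : NonUnitalStarSubalgebra ℂ A := (HER_her0 a hs).topologicalClosure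
  have hcl : IsClosed (S : Set A) := NonUnitalStarSubalgebra.isClosed_topologicalClosure _
  let iC : NonUnitalCStarAlgebra S :=
    NonUnitalStarSubalgebra.nonUnitalCStarAlgebra S (h_closed := hcl)
  refine ⟨S, iC, CStarAlgebra.spectralOrder S, CStarAlgebra.spectralOrderedRing S,
    { toFun := fun x => (x : A)
      map_smul' := fun _ _ => rfl
      map_zero' := rfl
      map_add' := fun _ _ => rfl
      map_mul' := fun _ _ => rfl
      map_star' := fun _ => rfl }, ?_, ?_⟩
  · intro x
    rfl
  · exact Subtype.range_coe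

end Pool.Agent.H30R2.PZ
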