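import Pool.Agent.H667R5.NX.PZ.Stubs

/-!
Task HLOW: lower bounds of traces on a hereditary subalgebra.
-/

set_option autoImplicit false

namespace Pool.Agent.H30R2.PZ

open Filter Topology Pool.Agent.H327R4.Pure Pool.Agent.H667R5.TW Pool.Agent.H270R2.NU
open scoped ENNReal CStarAlgebra ComplexOrder

universe u

namespace HLOW

theorem sqrt_star {A : Type u} [NonUnitalCStarAlgebra A] [PartialOrder A] [StarOrderedRing A]
    (a : A) : star (CFC.sqrt a) = CFC.sqrt a :=
  (IsSelfAdjoint.of_nonneg (CFC.sqrt_nonneg a)).star_eq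

theorem tr_nonneg {D : Type u} [NonUnitalCStarAlgebra D] [PartialOrder D] [StarOrderedRing D]
    (T : Tr D) (w : D) (hw : 0 ≤ w) : 0 ≤ (T.f w).re := by
  have h1 := (T.pos (CFC.sqrt w)).1
  rw [sqrt_star, CFC.sqrt_mul_sqrt_self w hw] at h1
  exact h1

end HLOW

open HLOW in
theorem t_HLOW (hHB : StHB.{u}) : StHLOW.{u} := by
  intro A D _ _ _ _ _ _ ι a e ha hι hP c hc hc0
  obtain ⟨hB1, hB2, hB3, -, -, -, -⟩ := hHB A D ι a ha hι
  have hinj : ∀ x y : D, ι x = ι y → x = y := by
    intro x y h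
    have h1 : ‖ι (x - y)‖ = 0 := by rw [map_sub, h, sub_self, norm_zero]
    rw [hι.norm, norm_eq_zero, sub_eq_zero] at h1
    exact h1
  have hιc : 0 ≤ ι c := (hB2 c).1 hc
  have hιc0 : ι c ≠ 0 := by
    intro h
    exact hc0 (hinj c 0 (by rw [h, map_zero]))
  obtain ⟨he0, hea, hae, hfull⟩ := hP
  obtain ⟨n, y, hy⟩ := hfull (ι c) hιc hιc0
  -- the unit
  have heD : ∀ d : D, e * ι d = ι d := by
    intro d
    have h1 : ι d ∈ closure (Set.range fun t : A => a * t * a) := by
      rw [← hι.range]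
      exact ⟨d, rfl⟩
    have h2 : closure (Set.range fun t : A => a * t * a) ⊆ {x : A | e * x = x} := by
      apply closure_minimal
      · rintro _ ⟨t, rfl⟩
        show e * (a * t * a) = a * t * a
        rw [← mul_assoc, ← mul_assoc, hea]
      · exact isClosed_eq (continuous_const.mul continuous_id) continuous_id
    exact h2 h1
  set lam : ℝ := ∑ i, ‖y i‖ ^ 2 with hlam
  have hlam0 : 0 ≤ lam := Finset.sum_nonneg fun i _ => by positivity
  refine ⟨1 / (1 + lam), by positivity, fun T d hd hd1 => ?_⟩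
  have hTc : 0 ≤ (T.f c).re := tr_nonneg T c hc
  set s : D := CFC.sqrt d with hs
  have hss : s * s = d := CFC.sqrt_mul_sqrt_self d hd
  have hsst : star s = s := sqrt_star d
  set r : D := CFC.sqrt c with hr
  have hrr : r * r = c := CFC.sqrt_mul_sqrt_self c hc
  have hrst : star r = r := sqrt_star c
  choose z hz using fun i => hB1 r s (y i)
  have hιs : star (ι s) = ι s := by rw [← map_star, hsst]
  have hιr : star (ι r) = ι r := by rw [← map_star, hrst]
  have hιrr : ι r * ι r = ι c := by rw [← map_mul, hrr]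
  have hιss : ι s * ι s = ι d := by rw [← map_mul, hss]
  have hzz : ∀ i, ι (star (z i) * z i) = ι s * (star (y i) * ι c * y i) * ι s := by
    intro i
    rw [map_mul, map_star, hz, star_mul, star_mul, hιs, hιr]
    calc ι s * (star (y i) * ι r) * (ι r * y i * ι s) =
        ι s * (star (y i) * (ι r * ι r) * y i) * ι s := by simp only [mul_assoc]
      _ = _ := by rw [hιrr]
  have hd2 : d = ∑ i, star (z i) * z i := by
    apply hinj
    rw [map_sum, Finset.sum_congr rfl fun i _ => hzz i, ← Finset.sum_mul, ← Finset.mul_sum, ← hy,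
      mul_assoc, heD, hιss]
  have hTd : (T.f d).re = ∑ i, (T.f (z i * star (z i))).re := by
    conv_lhs => rw [hd2]
    rw [map_sum, Complex.re_sum]
    exact Finset.sum_congr rfl fun i _ => by rw [T.tr]
  have hbound : ∀ i, (T.f (z i * star (z i))).re ≤ ‖y i‖ ^ 2 * (T.f c).re := by
    intro i
    have h1 : ι (z i * star (z i)) = star (ι r) * (y i * ι d * star (y i)) * ι r := by
      rw [map_mul, map_star, hz, star_mul, star_mul, hιs, hιr]
      calc ι r * y i * ι s * (ι s * (star (y i) * ι r)) =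
          ι r * (y i * (ι s * ι s) * star (y i)) * ι r := by simp only [mul_assoc]
        _ = _ := by rw [hιss]
    have hdι : 0 ≤ ι d := (hB2 d).1 hd
    have hsa : IsSelfAdjoint (y i * ι d * star (y i)) := by
      have h2 : 0 ≤ y i * ι d * star (y i) := star_right_conjugate_nonneg hdι (y i)
      exact IsSelfAdjoint.of_nonneg h2
    have h2 : ι (z i * star (z i)) ≤ ‖y i * ι d * star (y i)‖ • (star (ι r) * ι r) := by
      rw [h1]
      exact CStarAlgebra.star_left_conjugate_le_norm_smul hsa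
    have h3 : ‖y i * ι d * star (y i)‖ ≤ ‖y i‖ ^ 2 := by
      calc ‖y i * ι d * star (y i)‖ ≤ ‖y i‖ * ‖ι d‖ * ‖star (y i)‖ :=
            (norm_mul_le _ _).trans (mul_le_mul_of_nonneg_right (norm_mul_le _ _) (norm_nonneg _))
        _ ≤ ‖y i‖ * 1 * ‖y i‖ := by
            rw [norm_star, hι.norm]
            exact mul_le_mul_of_nonneg_right
              (mul_le_mul_of_nonneg_left hd1 (norm_nonneg _)) (norm_nonneg _)
        _ = ‖y i‖ ^ 2 := by ring
    have h4 : ι (z i * star (z i)) ≤ (‖y i‖ ^ 2) • ι c := by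
      refine h2.trans ?_
      rw [hιr, hιrr]
      exact smul_le_smul_of_nonneg_right h3 hιc
    have h5 : (‖y i‖ ^ 2) • ι c = ι (((‖y i‖ ^ 2 : ℝ) : ℂ) • c) := by
      rw [map_smul]
      rfl
    rw [h5] at h4
    have h6 : z i * star (z i) ≤ ((‖y i‖ ^ 2 : ℝ) : ℂ) • c := (hB3 _ _).2 h4
    have h7 := tr_nonneg T _ (sub_nonneg.2 h6)
    rw [map_sub, map_smul, Complex.sub_re, smul_eq_mul, Complex.re_ofReal_mul] at h7
    linarith
  have hsum : (T.f d).re ≤ lam * (T.f c).re := by
    rw [hTd, hlam, Finset.sum_mul]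
    exact Finset.sum_le_sum fun i _ => hbound i
  rw [div_mul_eq_mul_div, one_mul, div_le_iff₀ (by positivity)]
  nlinarith

end Pool.Agent.H30R2.PZ
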