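import Pool.Agent.H667R5.NX.PZ.Stubs

set_option autoImplicit false

namespace Pool.Agent.H30R2.PZ

universe u

theorem t_HNE (hHB : StHB.{u}) : StHNE.{u} := by
  intro A D _ _ _ _ _ _ ι a ha hι hA p hp hpp hp0
  have h1 : star (ι p) = ι p := by rw [← map_star, hp]
  have h2 : ι p * ι p = ι p := by rw [← map_mul, hpp]
  have h3 : ι p ≠ 0 := by
    intro h
    apply hp0
    have h4 := hι.norm p
    rw [h, norm_zero] at h4
    exact norm_eq_zero.1 h4.symm
  obtain ⟨x, hx⟩ := hA (ι p) h1 h2 h3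
  obtain ⟨z, hz⟩ := (hHB A D ι a ha hι).1 p p x
  refine ⟨z, fun c hc => hx c ?_⟩
  have h5 : ι (p * z * p) = ι p * x * ι p := by
    rw [map_mul, map_mul, hz]
    calc ι p * (ι p * x * ι p) * ι p = (ι p * ι p) * x * (ι p * ι p) := by
          simp only [mul_assoc]
      _ = ι p * x * ι p := by rw [h2]
  rw [← h5, hc, map_smul]

end Pool.Agent.H30R2.PZ
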