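import Pool.Agent.H667R5.NX.PZ.Stubs

/-!
# HNUC (helper21): nuclearity passes to hereditary subalgebras
-/

set_option autoImplicit false

namespace Pool.Agent.H30R2.PZ

open Filter Topology Pool.Agent.H327R4.Pure Pool.Agent.H667R5.TW Pool.Agent.H270R2.NU
open scoped ENNReal CStarAlgebra ComplexOrder

universe u

namespace HNUCx

variable {A D : Type u} [NonUnitalCStarAlgebra A] [PartialOrder A]
  [StarOrderedRing A] [NonUnitalCStarAlgebra D] [PartialOrder D] [StarOrderedRing D]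

omit [PartialOrder A] [StarOrderedRing A] [PartialOrder D] [StarOrderedRing D] in
theorem inj (ι : D →⋆ₙₐ[ℂ] A) (hn : ∀ x, ‖ι x‖ = ‖x‖) {x y : D} (h : ι x = ι y) : x = y := by
  rw [← sub_eq_zero, ← norm_eq_zero, ← hn, map_sub, h, sub_self, norm_zero]

/-- the restriction of a completely positive map to a subalgebra -/
theorem comp {n : ℕ} (ι : D →⋆ₙₐ[ℂ] A) (ψ : A →CP CStarMatrix (Fin n) (Fin n) ℂ) :
    ∃ ψ' : D →CP CStarMatrix (Fin n) (Fin n) ℂ, ∀ x, ψ' x = ψ (ι x) := by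
  refine ⟨{ toFun := fun x => ψ (ι x)
            map_add' := fun x y => by rw [map_add, map_add]
            map_smul' := fun c x => by rw [map_smul, map_smul, RingHom.id_apply]
            map_cstarMatrix_nonneg' := ?_ }, fun x => rfl⟩
  intro k M hM
  have h1 : 0 ≤ M.map ι := CompletelyPositiveMapClass.map_cstarMatrix_nonneg' ι k M hM
  exact CompletelyPositiveMapClass.map_cstarMatrix_nonneg' ψ k (M.map ι) h1

/-- conjugation of a matrix by a diagonal matrix with constant entry -/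
theorem conj_nonneg {k : ℕ} (w : A) (hw : star w = w) (N : MM k A) (hN : 0 ≤ N) :
    0 ≤ N.map (fun t => w * t * w) := by
  let W : MM k A := CStarMatrix.ofMatrix (Matrix.diagonal fun _ => w)
  have hW : star W = W := by
    ext i j
    rw [CStarMatrix.star_apply]
    change star (Matrix.diagonal (fun _ => w) j i) = Matrix.diagonal (fun _ => w) i j
    by_cases h : i = j
    · subst h
      simp [hw]
    · rw [Matrix.diagonal_apply_ne _ h, Matrix.diagonal_apply_ne _ (Ne.symm h), star_zero]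
  have h1 : N.map (fun t => w * t * w) = star W * N * W := by
    rw [hW]
    ext i j
    let N' : Matrix (Fin k) (Fin k) A := fun i j => N i j
    let W' : Matrix (Fin k) (Fin k) A := Matrix.diagonal (fun _ => w)
    have e : (W' * N' * W') i j = w * N' i j * w := by
      rw [Matrix.mul_diagonal, Matrix.diagonal_mul]
    exact e.symm
  rw [h1]
  exact star_left_conjugate_nonneg hN W

end HNUCx

open HNUCx in
theorem t_HNUC (hHB : StHB.{u}) (hMAP : StMAP.{u}) : StHNUC.{u} := by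
  classical
  intro A D _ _ _ _ _ _ ι a ha hι hA F ε hε
  obtain ⟨hB1, -, -, -, -, -, hB7⟩ := hHB A D ι a ha hι
  have hn := hι.norm
  obtain ⟨v, hv0, hv1, hvF⟩ := hB7 F (ε / 3) (by positivity)
  have hvs : star v = v := (IsSelfAdjoint.of_nonneg hv0).star_eq
  have hvι : star (ι v) = ι v := by rw [← map_star, hvs]
  obtain ⟨n, ψ, φ, hψ, hφ, hψφ⟩ := hA (F.image ι) (ε / 3) (by positivity)
  obtain ⟨ψ', hψ'⟩ := comp ι ψ
  choose g hg using fun m : CStarMatrix (Fin n) (Fin n) ℂ => hB1 v v (φ m)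
  have hgadd : ∀ m m', g (m + m') = g m + g m' := by
    intro m m'
    apply inj ι hn
    rw [hg, map_add, map_add, hg, hg, mul_add, add_mul]
  have hgsmul : ∀ (c : ℂ) m, g (c • m) = c • g m := by
    intro c m
    apply inj ι hn
    rw [hg, map_smul, map_smul, hg, mul_smul_comm, smul_mul_assoc]
  have hgcp : ∀ (k : ℕ) (M : CStarMatrix (Fin k) (Fin k) (CStarMatrix (Fin n) (Fin n) ℂ)),
      0 ≤ M → 0 ≤ M.map g := by
    intro k M hM
    obtain ⟨Φ, hΦ1, -, hΦ3, -, -⟩ := hMAP A D ι hn k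
    rw [hΦ3, hΦ1]
    have h1 : 0 ≤ M.map φ := CompletelyPositiveMapClass.map_cstarMatrix_nonneg' φ k M hM
    have h2 : (M.map g).map ι = (M.map φ).map (fun t => ι v * t * ι v) := by
      ext i j
      exact hg (M i j)
    rw [h2]
    exact conj_nonneg (ι v) hvι _ h1
  refine ⟨n, ψ', { toFun := g
                   map_add' := hgadd
                   map_smul' := hgsmul
                   map_cstarMatrix_nonneg' := hgcp }, ?_, ?_, ?_⟩
  · intro x
    rw [hψ', ← hn x]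
    exact hψ (ι x)
  · intro m
    change ‖g m‖ ≤ ‖m‖
    rw [← hn, hg]
    have h1 : ‖ι v‖ ≤ 1 := by rw [hn]; exact hv1
    calc ‖ι v * φ m * ι v‖ ≤ ‖ι v * φ m‖ * ‖ι v‖ := norm_mul_le _ _
      _ ≤ (‖ι v‖ * ‖φ m‖) * ‖ι v‖ :=
        mul_le_mul_of_nonneg_right (norm_mul_le _ _) (norm_nonneg _)
      _ ≤ (1 * ‖m‖) * 1 := by
        refine mul_le_mul (mul_le_mul h1 (hφ m) (norm_nonneg _) zero_le_one) h1 (norm_nonneg _) ?_
        positivity
      _ = ‖m‖ := by ring
  · intro x hx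
    change ‖g (ψ' x) - x‖ ≤ ε
    rw [hψ', ← hn, map_sub, hg]
    have h1 : ‖ι v‖ ≤ 1 := by rw [hn]; exact hv1
    have h2 : ‖φ (ψ (ι x)) - ι x‖ ≤ ε / 3 := hψφ (ι x) (Finset.mem_image_of_mem _ hx)
    obtain ⟨h3, h4⟩ := hvF x hx
    have e1 : ι v * φ (ψ (ι x)) * ι v - ι x =
        ι v * (φ (ψ (ι x)) - ι x) * ι v + (ι (v * x - x) * ι v + ι (x * v - x)) := by
      rw [map_sub, map_sub, map_mul, map_mul]
      noncomm_ring
    rw [e1]
    have h5 : ‖ι v * (φ (ψ (ι x)) - ι x) * ι v‖ ≤ ε / 3 := by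
      calc ‖ι v * (φ (ψ (ι x)) - ι x) * ι v‖ ≤ ‖ι v * (φ (ψ (ι x)) - ι x)‖ * ‖ι v‖ :=
            norm_mul_le _ _
        _ ≤ (‖ι v‖ * ‖φ (ψ (ι x)) - ι x‖) * ‖ι v‖ :=
          mul_le_mul_of_nonneg_right (norm_mul_le _ _) (norm_nonneg _)
        _ ≤ (1 * (ε / 3)) * 1 := by
          refine mul_le_mul (mul_le_mul h1 h2 (norm_nonneg _) zero_le_one) h1 (norm_nonneg _) ?_
          positivity
        _ = ε / 3 := by ring
    have h6 : ‖ι (v * x - x) * ι v‖ ≤ ε / 3 := by
      calc ‖ι (v * x - x) * ι v‖ ≤ ‖ι (v * x - x)‖ * ‖ι v‖ := norm_mul_le _ _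
        _ ≤ (ε / 3) * 1 := by
          refine mul_le_mul ?_ h1 (norm_nonneg _) (by positivity)
          rw [hn]
          exact h3
        _ = ε / 3 := by ring
    have h7 : ‖ι (x * v - x)‖ ≤ ε / 3 := by
      rw [hn]
      exact h4
    calc _ ≤ ‖ι v * (φ (ψ (ι x)) - ι x) * ι v‖ + ‖ι (v * x - x) * ι v + ι (x * v - x)‖ :=
          norm_add_le _ _
      _ ≤ ‖ι v * (φ (ψ (ι x)) - ι x) * ι v‖ + (‖ι (v * x - x) * ι v‖ + ‖ι (x * v - x)‖) := by
        gcongr
        exact norm_add_le _ _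
      _ ≤ ε / 3 + (ε / 3 + ε / 3) := by gcongr
      _ = ε := by ring

end Pool.Agent.H30R2.PZ
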