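import Pool.Agent.H667R5.NX.PZ.Stubs
import Pool.Agent.H327R4.Pure.TRK
import Pool.Agent.H327R4.Pure.TMT

/-! Task HSCB: strict comparison passes to hereditary subalgebras. -/

set_option autoImplicit false
set_option linter.unusedSectionVars false

namespace Pool.Agent.H30R2.PZ

open Filter Topology Pool.Agent.H327R4.Pure Pool.Agent.H667R5.TW Pool.Agent.H270R2.NU
open scoped ENNReal CStarAlgebra ComplexOrder

universe u

namespace HSCB

section

variable {D : Type u} [NonUnitalCStarAlgebra D] [PartialOrder D] [StarOrderedRing D]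

/-- the functional on matrices, as a linear map -/
noncomputable def trl0 (T : Tr D) (n : ℕ) : MM n D →ₗ[ℂ] ℂ where
  toFun M := ∑ i, T.f (M i i)
  map_add' M N := by simp [Finset.sum_add_distrib]
  map_smul' c M := by simp [Finset.mul_sum]

/-- the trace on matrices -/
noncomputable def trM0 (T : Tr D) (n : ℕ) : Tr (MM n D) where
  f := (trl0 T n).mkContinuous (n * ‖T.f‖) (by
    intro M
    change ‖∑ i, T.f (M i i)‖ ≤ _
    refine (norm_sum_le _ _).trans ?_
    calc ∑ i : Fin n, ‖T.f (M i i)‖ ≤ ∑ _i : Fin n, ‖T.f‖ * ‖M‖ := by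
          refine Finset.sum_le_sum fun i _ => ?_
          have h1 : ‖M i i‖ ≤ ‖M‖ := CStarMatrix.norm_entry_le_norm
          exact (T.f.le_opNorm _).trans (by gcongr)
      _ = n * ‖T.f‖ * ‖M‖ := by simp [mul_assoc])
  pos := by
    intro M
    change 0 ≤ (∑ i, T.f ((star M * M) i i)).re ∧ (∑ i, T.f ((star M * M) i i)).im = 0
    have h : ∀ i, T.f ((star M * M) i i) = ∑ j, T.f (star (M j i) * M j i) := by
      intro i
      rw [CStarMatrix.mul_apply, map_sum]
      simp [CStarMatrix.star_apply]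
    constructor
    · rw [Complex.re_sum]
      refine Finset.sum_nonneg fun i _ => ?_
      rw [h, Complex.re_sum]
      exact Finset.sum_nonneg fun j _ => (T.pos _).1
    · rw [Complex.im_sum]
      refine Finset.sum_eq_zero fun i _ => ?_
      rw [h, Complex.im_sum]
      exact Finset.sum_eq_zero fun j _ => (T.pos _).2
  tr := by
    intro M N
    change ∑ i, T.f ((M * N) i i) = ∑ i, T.f ((N * M) i i)
    simp only [CStarMatrix.mul_apply, map_sum]
    rw [Finset.sum_comm]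
    refine Finset.sum_congr rfl fun i _ => Finset.sum_congr rfl fun j _ => ?_
    rw [T.tr]

theorem re_nonneg (T : Tr D) (y : D) (hy : 0 ≤ y) : 0 ≤ (T.f y).re := by
  obtain ⟨z, rfl⟩ := CStarAlgebra.nonneg_iff_eq_star_mul_self.mp hy
  exact (T.pos z).1

theorem conv (T : Tr D) (n : ℕ) (p : MM n D) (hp : 0 ≤ p) : ∃ r : ℝ, 0 ≤ r ∧ IsRkB T p r := by
  have h := rk_holds mt_holds (MM n D) (trM0 T n) p hp
  exact ⟨rk (trM0 T n) p, h.2.2.2, h.2.2.1⟩

theorem rt_nonneg (n : ℕ) (k : ℕ) (p : MM n D) (hp : 0 ≤ p) : 0 ≤ rt k p := by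
  unfold rt
  refine cfcₙ_nonneg fun x hx => Real.rpow_nonneg ?_ _
  exact quasispectrum_nonneg_of_nonneg p hp x hx

end

end HSCB

open HSCB

theorem t_HSCB (_hHB : StHB.{u}) (hHTR : StHTR.{u}) (hHCZ : StHCZ.{u}) (hMAP : StMAP.{u}) :
    StHSCB.{u} := by
  intro A D _ _ _ _ _ _ ι a e ha ha0 hι he hS hC n p q hp hq hq0 hcmp
  obtain ⟨Φ, hΦ, hΦn, hΦp, hΦr, hΦd⟩ := hMAP A D ι hι.norm n
  refine hHCZ A D ι a ha hι n p q hp hq ?_
  rw [← hΦ, ← hΦ]
  refine hC n (Φ p) (Φ q) ((hΦp p).mp hp) ((hΦp q).mp hq) ?_ ?_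
  · intro h0
    apply hq0
    rw [← norm_eq_zero, ← hΦn, h0, norm_zero]
  · intro τ d d' hd hd'
    obtain ⟨T, hT0, hT⟩ := hHTR A D ι a e ha ha0 hι he hS τ
    obtain ⟨r, hr0, hr⟩ := conv T n p hp
    obtain ⟨r', hr'0, hr'⟩ := conv T n q hq
    have key : ∀ p : MM n D, 0 ≤ p → ∀ r : ℝ, IsRkB T p r → ∀ d : ℝ≥0∞, IsRkN τ (Φ p) d →
        d = ENNReal.ofReal r := by
      intro p hp r hr d hd
      have e1 : (fun k : ℕ => ∑ i, τ.f ((rt k (Φ p)) i i)) =
          fun k : ℕ => ENNReal.ofReal (∑ i, T.f ((rt k p) i i)).re := by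
        funext k
        rw [← hΦr k p hp, hΦ, Complex.re_sum, ENNReal.ofReal_sum_of_nonneg]
        · refine Finset.sum_congr rfl fun i _ => ?_
          exact hT _ (hΦd _ (rt_nonneg n k p hp) i)
        · intro i _
          exact re_nonneg T _ (hΦd _ (rt_nonneg n k p hp) i)
      unfold IsRkN at hd
      rw [e1] at hd
      exact tendsto_nhds_unique hd ((ENNReal.continuous_ofReal.tendsto r).comp hr)
    rw [key p hp r hr d hd, key q hq r' hr' d' hd']
    exact (ENNReal.ofReal_lt_ofReal_iff_of_nonneg hr0).mpr (hcmp T r r' hT0 hr hr')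

end Pool.Agent.H30R2.PZ
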