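import Pool.Agent.H667R5.NX.PZ.Stubs

/-!
# Restriction of a trace
-/

set_option autoImplicit false

namespace Pool.Agent.H30R2.PZ

open Filter Topology Pool.Agent.H327R4.Pure Pool.Agent.H667R5.TW Pool.Agent.H270R2.NU
open scoped ENNReal CStarAlgebra ComplexOrder

universe u

namespace HTRx

section

variable {A : Type u} [NonUnitalCStarAlgebra A] [PartialOrder A] [StarOrderedRing A]

theorem f_zero (τ : LTr A) : τ.f 0 = 0 := by
  have h := τ.smul 0 0 le_rfl le_rfl
  rw [zero_smul, ENNReal.ofReal_zero, zero_mul] at h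
  exact h

theorem f_mono (τ : LTr A) {x y : A} (hx : 0 ≤ x) (hxy : x ≤ y) : τ.f x ≤ τ.f y := by
  have h := τ.add x (y - x) hx (sub_nonneg.mpr hxy)
  rw [add_sub_cancel] at h
  rw [h]
  exact le_self_add

theorem f_sum (τ : LTr A) (n : ℕ) (z : Fin n → A) (hz : ∀ i, 0 ≤ z i) :
    τ.f (∑ i, z i) = ∑ i, τ.f (z i) := by
  induction n with
  | zero => simp [f_zero]
  | succ n ih =>
    rw [Fin.sum_univ_succ, Fin.sum_univ_succ, τ.add _ _ (hz 0) (Finset.sum_nonneg fun i _ => hz _),
      ih (fun i => z i.succ) (fun i => hz _)]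

theorem smul_nn {c : ℝ} {x : A} (hc : 0 ≤ c) (hx : 0 ≤ x) : 0 ≤ c • x := smul_nonneg hc hx

/-- `f (z* y z) ≤ ‖z z*‖ f y` -/
theorem f_conj (τ : LTr A) (y z : A) (hy : 0 ≤ y) :
    τ.f (star z * y * z) ≤ ENNReal.ofReal ‖z * star z‖ * τ.f y := by
  set s := CFC.sqrt y with hs
  have hs0 : 0 ≤ s := CFC.sqrt_nonneg y
  have hss : s * s = y := CFC.sqrt_mul_sqrt_self y hy
  have hsa : star s = s := (IsSelfAdjoint.of_nonneg hs0).star_eq
  have e1 : star z * y * z = star (s * z) * (s * z) := by
    rw [star_mul, hsa, ← hss]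
    simp only [mul_assoc]
  rw [e1, τ.tr]
  have e2 : s * z * star (s * z) = star s * (z * star z) * s := by
    rw [star_mul, hsa]
    simp only [mul_assoc]
  rw [e2]
  have hsz : IsSelfAdjoint (z * star z) := IsSelfAdjoint.mul_star_self z
  have h1 : star s * (z * star z) * s ≤ ‖z * star z‖ • (star s * s) :=
    CStarAlgebra.star_left_conjugate_le_norm_smul
  have h0 : 0 ≤ star s * (z * star z) * s :=
    star_left_conjugate_nonneg (mul_star_self_nonneg z) s
  refine (f_mono τ h0 h1).trans ?_
  rw [τ.smul _ _ (norm_nonneg _) (star_mul_self_nonneg s), hsa, hss]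

theorem f_two (τ : LTr A) (x y : A) (hx : τ.f (star x * x) = 0) (hy : τ.f (star y * y) = 0) :
    τ.f (star (x + y) * (x + y)) = 0 := by
  have h1 : star (x + y) * (x + y) ≤ (2 : ℝ) • (star x * x) + (2 : ℝ) • (star y * y) := by
    rw [← sub_nonneg]
    have : (2 : ℝ) • (star x * x) + (2 : ℝ) • (star y * y) - star (x + y) * (x + y) =
        star (x - y) * (x - y) := by
      rw [two_smul, two_smul, star_add, star_sub]
      noncomm_ring
    rw [this]
    exact star_mul_self_nonneg _
  have h2 := f_mono τ (star_mul_self_nonneg (x + y)) h1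
  rw [τ.add _ _ (smul_nn zero_le_two (star_mul_self_nonneg x))
    (smul_nn zero_le_two (star_mul_self_nonneg y)), τ.smul _ _ zero_le_two
    (star_mul_self_nonneg x), τ.smul _ _ zero_le_two (star_mul_self_nonneg y), hx, hy, mul_zero,
    add_zero] at h2
  exact le_antisymm h2 (zero_le)

theorem f_left (τ : LTr A) (x y : A) (hy : τ.f (star y * y) = 0) :
    τ.f (star (x * y) * (x * y)) = 0 := by
  have e : star (x * y) * (x * y) = star y * (star x * x) * y := by
    rw [star_mul]
    simp only [mul_assoc]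
  have hsa : IsSelfAdjoint (star x * x) := IsSelfAdjoint.star_mul_self x
  have h1 : star y * (star x * x) * y ≤ ‖star x * x‖ • (star y * y) :=
    CStarAlgebra.star_left_conjugate_le_norm_smul
  have h0 : 0 ≤ star y * (star x * x) * y :=
    star_left_conjugate_nonneg (star_mul_self_nonneg x) y
  have h2 := f_mono τ h0 h1
  rw [τ.smul _ _ (norm_nonneg _) (star_mul_self_nonneg y), hy, mul_zero] at h2
  rw [e]
  exact le_antisymm h2 (zero_le)

theorem f_right (τ : LTr A) (x y : A) (hx : τ.f (star x * x) = 0) :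
    τ.f (star (x * y) * (x * y)) = 0 := by
  rw [τ.tr]
  have e : x * y * star (x * y) = star (star x) * (y * star y) * star x := by
    rw [star_mul, star_star]
    simp only [mul_assoc]
  have hsa : IsSelfAdjoint (y * star y) := IsSelfAdjoint.mul_star_self y
  have h1 : star (star x) * (y * star y) * star x ≤ ‖y * star y‖ • (star (star x) * star x) :=
    CStarAlgebra.star_left_conjugate_le_norm_smul
  have h0 : 0 ≤ star (star x) * (y * star y) * star x :=
    star_left_conjugate_nonneg (mul_star_self_nonneg y) (star x)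
  have h2 := f_mono τ h0 h1
  rw [τ.smul _ _ (norm_nonneg _) (star_mul_self_nonneg _), star_star, ← τ.tr x, hx, mul_zero] at h2
  rw [e, star_star]
  exact le_antisymm h2 (zero_le)

theorem f_smul (τ : LTr A) (c : ℂ) (x : A) (hx : τ.f (star x * x) = 0) :
    τ.f (star (c • x) * (c • x)) = 0 := by
  have e : star (c • x) * (c • x) = (‖c‖ ^ 2 : ℝ) • (star x * x) := by
    rw [star_smul, smul_mul_smul_comm]
    have : star c * c = ((‖c‖ ^ 2 : ℝ) : ℂ) := by
      have h := Complex.conj_mul' c
      push_cast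
      exact h
    rw [this]
    exact Complex.coe_smul _ _
  rw [e, τ.smul _ _ (by positivity) (star_mul_self_nonneg x), hx, mul_zero]

/-- the null ideal -/
def null (τ : LTr A) : Submodule ℂ A where
  carrier := {x | τ.f (star x * x) = 0}
  add_mem' := fun {x y} hx hy => f_two τ x y hx hy
  zero_mem' := by
    change τ.f (star 0 * 0) = 0
    rw [mul_zero, f_zero]
  smul_mem' := fun c x hx => f_smul τ c x hx

theorem null_closed (τ : LTr A) : IsClosed ((null τ : Submodule ℂ A) : Set A) := by
  rw [← isOpen_compl_iff, isOpen_iff_mem_nhds]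
  intro x hx
  have hpos : 0 < τ.f (star x * x) := by
    rw [pos_iff_ne_zero]
    exact hx
  have h1 := τ.lsc (star x * x) (star_mul_self_nonneg x) 0 hpos
  have h2 : Tendsto (fun y : A => star y * y) (𝓝 x) (𝓝[{x | 0 ≤ x}] (star x * x)) := by
    apply tendsto_nhdsWithin_of_tendsto_nhds_of_eventually_within
    · exact (continuous_star.mul continuous_id).tendsto x
    · exact Eventually.of_forall fun y => star_mul_self_nonneg y
  filter_upwards [h2.eventually h1] with y hy
  exact hy.ne'

end

end HTRx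

open HTRx in
theorem t_HTR (hHB : StHB.{u}) (hEXT : StEXT.{u}) : StHTR.{u} := by
  intro A D _ _ _ _ _ _ ι a e ha ha0 hι he hS τ
  obtain ⟨b1, b2, b3, b4, b5, b6, b7⟩ := hHB A D ι a ha hι
  obtain ⟨he0, hea, hae, hped⟩ := he
  -- finiteness
  have hfin : τ.f e ≠ ∞ := by
    have hna : 0 < ‖a‖ := norm_pos_iff.mpr ha0
    obtain ⟨y, hy0, hya, hyf⟩ := τ.dense a ha (‖a‖ / 2) (by linarith)
    have hyne : y ≠ 0 := by
      intro h
      rw [h, sub_zero] at hya
      linarith
    obtain ⟨n, z, hz⟩ := hped y hy0 hyne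
    rw [hz, f_sum τ n _ fun i => star_left_conjugate_nonneg hy0 (z i)]
    apply ne_of_lt
    rw [ENNReal.sum_lt_top]
    intro i _
    refine lt_of_le_of_lt (f_conj τ y (z i) hy0) ?_
    exact ENNReal.mul_lt_top ENNReal.ofReal_lt_top (lt_top_iff_ne_top.mpr hyf)
  have hfin2 : τ.f (e * e) ≠ ∞ := by
    set s := CFC.sqrt e with hs
    have hs0 : 0 ≤ s := CFC.sqrt_nonneg e
    have hss : s * s = e := CFC.sqrt_mul_sqrt_self e he0
    have hsa : star s = s := (IsSelfAdjoint.of_nonneg hs0).star_eq
    have e1 : e * e = star s * e * s := by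
      rw [hsa]
      nth_rewrite 1 [← hss]
      nth_rewrite 1 [← hss]
      nth_rewrite 1 [← hss]
      simp only [mul_assoc]
    rw [e1]
    apply ne_of_lt
    exact lt_of_le_of_lt (f_conj τ e s he0)
      (ENNReal.mul_lt_top ENNReal.ofReal_lt_top (lt_top_iff_ne_top.mpr hfin))
  -- e is a unit
  have hunit : ∀ x : D, e * ι x = ι x ∧ ι x * e = ι x := by
    intro x
    have hx : ι x ∈ closure (Set.range fun t : A => a * t * a) := by
      rw [← hι.range]
      exact ⟨x, rfl⟩
    have hcl : IsClosed {y : A | e * y = y ∧ y * e = y} := by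
      apply IsClosed.inter
      · exact isClosed_eq (continuous_const.mul continuous_id) continuous_id
      · exact isClosed_eq (continuous_id.mul continuous_const) continuous_id
    have hsub : (Set.range fun t : A => a * t * a) ⊆ {y : A | e * y = y ∧ y * e = y} := by
      rintro _ ⟨t, rfl⟩
      constructor
      · change e * (a * t * a) = a * t * a
        rw [← mul_assoc, ← mul_assoc, hea]
      · change a * t * a * e = a * t * a
        rw [mul_assoc (a * t), hae]
    exact hcl.closure_subset_iff.mpr hsub hx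
  have hesa : star e = e := (IsSelfAdjoint.of_nonneg he0).star_eq
  have hbound : ∀ x : D, 0 ≤ x → τ.f (ι x) ≤ ENNReal.ofReal ‖x‖ * τ.f (e * e) := by
    intro x hx
    have hx' : 0 ≤ ι x := (b2 x).1 hx
    have hsa : IsSelfAdjoint (ι x) := IsSelfAdjoint.of_nonneg hx'
    have h1 : star e * ι x * e ≤ ‖ι x‖ • (star e * e) :=
      CStarAlgebra.star_left_conjugate_le_norm_smul
    rw [hesa, (hunit x).1, (hunit x).2, hι.norm] at h1
    refine (f_mono τ hx' h1).trans ?_
    rw [τ.smul _ _ (norm_nonneg _)]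
    have := star_mul_self_nonneg e
    rwa [hesa] at this
  have hfinx : ∀ x : D, 0 ≤ x → τ.f (ι x) ≠ ∞ := fun x hx =>
    ne_of_lt (lt_of_le_of_lt (hbound x hx)
      (ENNReal.mul_lt_top ENNReal.ofReal_lt_top (lt_top_iff_ne_top.mpr hfin2)))
  -- the trace
  obtain ⟨T, hT⟩ := hEXT D (fun x => (τ.f (ι x)).toReal) (τ.f (e * e)).toReal
    (by
      intro x hx
      refine ⟨ENNReal.toReal_nonneg, ?_⟩
      have h1 := ENNReal.toReal_mono (ENNReal.mul_ne_top ENNReal.ofReal_ne_top hfin2) (hbound x hx)
      rw [ENNReal.toReal_mul, ENNReal.toReal_ofReal (norm_nonneg _), mul_comm] at h1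
      exact h1)
    (by
      intro x y hx hy
      rw [map_add, τ.add _ _ ((b2 x).1 hx) ((b2 y).1 hy),
        ENNReal.toReal_add (hfinx x hx) (hfinx y hy)])
    (by
      intro c x hc hx
      have e1 : ι (c • x) = c • ι x := by
        rw [← Complex.coe_smul c x, map_smul, Complex.coe_smul]
      rw [e1, τ.smul _ _ hc ((b2 x).1 hx), ENNReal.toReal_mul, ENNReal.toReal_ofReal hc])
    (by
      intro x
      rw [map_mul, map_mul, map_star, τ.tr])
  have hval : ∀ x, 0 ≤ x → τ.f (ι x) = ENNReal.ofReal (T.f x).re := by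
    intro x hx
    rw [hT x hx, ENNReal.ofReal_toReal (hfinx x hx)]
  refine ⟨T, ?_, hval⟩
  by_contra hcon
  push Not at hcon
  have hz : ∀ x, 0 ≤ x → τ.f (ι x) = 0 := by
    intro x hx
    rw [hval x hx, hcon x, Complex.zero_re, ENNReal.ofReal_zero]
  have hIN := hS.2 (null τ) (null_closed τ) (fun x y hy => f_left τ x y hy)
    (fun x y hx => f_right τ x y hx)
  have haN : a ∈ null τ := by
    change τ.f (star a * a) = 0
    obtain ⟨z, hz'⟩ := b5
    rw [← hz', ← map_star, ← map_mul]
    exact hz _ (star_mul_self_nonneg z)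
  rcases hIN with h | h
  · rw [h, Submodule.mem_bot] at haN
    exact ha0 haN
  · obtain ⟨x, hx, hxne⟩ := τ.nonzero
    apply hxne
    have hm : CFC.sqrt x ∈ null τ := by
      rw [h]
      exact Submodule.mem_top
    have h1 : τ.f (star (CFC.sqrt x) * CFC.sqrt x) = 0 := hm
    rw [(IsSelfAdjoint.of_nonneg (CFC.sqrt_nonneg x)).star_eq, CFC.sqrt_mul_sqrt_self x hx] at h1
    exact h1

end Pool.Agent.H30R2.PZ
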