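import Pool.Agent.H667R5.NX.PZ.Stubs

/-!
# Toms-Winter, PART 0: maps between matrix algebras (MAP)
-/

set_option autoImplicit false

namespace Pool.Agent.H30R2.PZ

open Filter Topology Pool.Agent.H327R4.Pure Pool.Agent.H667R5.TW Pool.Agent.H270R2.NU
open scoped ENNReal CStarAlgebra ComplexOrder

universe u

theorem MAP_nonneg_of {B C : Type u} [NonUnitalCStarAlgebra B] [PartialOrder B]
    [StarOrderedRing B] [NonUnitalCStarAlgebra C] [PartialOrder C] [StarOrderedRing C]
    (φ : B →⋆ₙₐ[ℂ] C) (hφ : Function.Injective φ) (p : B) (h : 0 ≤ φ p) : 0 ≤ p := by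
  have hcont : Continuous φ := map_continuous φ
  have hsφ : IsSelfAdjoint (φ p) := IsSelfAdjoint.of_nonneg h
  have hsa : IsSelfAdjoint p := by
    apply hφ
    rw [map_star]
    exact hsφ
  have hmap : ∀ f : ℝ → ℝ, Continuous f → f 0 = 0 → φ (cfcₙ f p) = cfcₙ f (φ p) := by
    intro f hf hf0
    exact NonUnitalStarAlgHomClass.map_cfcₙ (S := ℂ) φ f p hf.continuousOn hf0 hcont hsa hsφ
  have hneg : cfcₙ (fun x : ℝ => max (-x) 0) p = 0 := by
    apply hφ
    rw [hmap _ (by fun_prop) (by simp), map_zero]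
    have hz : cfcₙ (fun x : ℝ => max (-x) 0) (φ p) = cfcₙ (fun _ : ℝ => (0 : ℝ)) (φ p) := by
      apply cfcₙ_congr
      intro x hx
      have hx0 : 0 ≤ x := quasispectrum_nonneg_of_nonneg (φ p) h x hx
      simp only
      exact max_eq_right (by linarith)
    rw [hz]
    exact cfcₙ_const_zero ℝ (φ p)
  have hp : p = cfcₙ (fun x : ℝ => max x 0) p - cfcₙ (fun x : ℝ => max (-x) 0) p := by
    rw [← cfcₙ_sub (fun x : ℝ => max x 0) (fun x : ℝ => max (-x) 0) p
      (by fun_prop) (by simp) (by fun_prop) (by simp)]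
    conv_lhs => rw [← cfcₙ_id' ℝ p hsa]
    apply cfcₙ_congr
    intro x _
    simp only
    rcases le_total 0 x with h1 | h1
    · rw [max_eq_left h1, max_eq_right (by linarith)]
      ring
    · rw [max_eq_right h1, max_eq_left (by linarith)]
      ring
  rw [hp, hneg, sub_zero]
  exact cfcₙ_nonneg fun x _ => le_max_right _ _

theorem MAP_rt {B C : Type u} [NonUnitalCStarAlgebra B] [PartialOrder B]
    [StarOrderedRing B] [NonUnitalCStarAlgebra C] [PartialOrder C] [StarOrderedRing C]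
    (φ : B →⋆ₙₐ[ℂ] C) (k : ℕ) (p : B) (hp : 0 ≤ p) : φ (rt k p) = rt k (φ p) := by
  have hp' : 0 ≤ φ p := map_nonneg φ hp
  have hcont : Continuous φ := map_continuous φ
  have hpos : (0 : ℝ) < 1 / ((k : ℝ) + 1) := by positivity
  unfold rt
  exact NonUnitalStarAlgHomClass.map_cfcₙ (S := ℂ) φ
    (fun x : ℝ => x ^ (1 / ((k : ℝ) + 1))) p
    (Real.continuous_rpow_const hpos.le).continuousOn
    (Real.zero_rpow hpos.ne') hcont (IsSelfAdjoint.of_nonneg hp) (IsSelfAdjoint.of_nonneg hp')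

theorem MAP_sq {B : Type u} [NonUnitalCStarAlgebra B] [PartialOrder B]
    [StarOrderedRing B] (p : B) (hp : 0 ≤ p) : ∃ q : B, p = star q * q :=
  CStarAlgebra.nonneg_iff_eq_star_mul_self.mp hp

theorem t_MAP : StMAP.{u} := by
  intro A D _ _ _ _ _ _ ι hι n
  have hinj : Function.Injective ι := by
    intro x y hxy
    have h1 : ‖ι (x - y)‖ = ‖x - y‖ := hι _
    rw [map_sub, hxy, sub_self, norm_zero] at h1
    exact sub_eq_zero.mp (norm_eq_zero.mp h1.symm)
  have hΦ : ∀ p : MM n D, (CStarMatrix.mapₙₐ (n := Fin n) ι) p = p.map ι := by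
    intro p
    rfl
  have hΦinj : Function.Injective (CStarMatrix.mapₙₐ (n := Fin n) ι) := by
    intro p q hpq
    rw [hΦ, hΦ] at hpq
    exact CStarMatrix.map_injective hinj hpq
  refine ⟨CStarMatrix.mapₙₐ (n := Fin n) ι, hΦ, ?_, ?_, ?_, ?_⟩
  · intro p
    exact NonUnitalStarAlgHom.norm_map (CStarMatrix.mapₙₐ (n := Fin n) ι) hΦinj p
  · intro p
    constructor
    · intro hp
      exact map_nonneg (CStarMatrix.mapₙₐ (n := Fin n) ι) hp
    · intro hp
      exact MAP_nonneg_of (CStarMatrix.mapₙₐ (n := Fin n) ι) hΦinj p hp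
  · intro k p hp
    exact MAP_rt (CStarMatrix.mapₙₐ (n := Fin n) ι) k p hp
  · intro p hp i
    obtain ⟨q, hq⟩ := MAP_sq p hp
    rw [hq, CStarMatrix.mul_apply]
    refine Finset.sum_nonneg fun k _ => ?_
    rw [CStarMatrix.star_apply]
    exact star_mul_self_nonneg _

end Pool.Agent.H30R2.PZ
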