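import Pool.Agent.H667R5.NX.PZ.Stubs

set_option autoImplicit false

namespace Pool.Agent.H30R2.PZ

open Filter Topology

universe u

section niln

variable {D : Type u} [NonUnitalCStarAlgebra D] [PartialOrder D] [StarOrderedRing D]

theorem niln_sq_zero {y : D} (hy : star y = y) (h : y * y = 0) : y = 0 := by
  have : star y * y = 0 := by rw [hy, h]
  exact CStarRing.star_mul_self_eq_zero_iff y |>.1 this

theorem niln_prime (hS : SimpleN D) {f g : D} (hf : f ≠ 0) (hg : g ≠ 0) :
    ∃ t : D, f * t * g ≠ 0 := by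
  by_contra hcon
  push Not at hcon
  let J : Submodule ℂ D :=
    { carrier := {z | ∀ t : D, z * t * g = 0}
      zero_mem' := by intro t; simp
      add_mem' := by
        intro x y hx hy t
        rw [add_mul, add_mul, hx t, hy t, add_zero]
      smul_mem' := by
        intro c x hx t
        rw [smul_mul_assoc, smul_mul_assoc, hx t, smul_zero] }
  have hJ : ∀ z, z ∈ J ↔ ∀ t : D, z * t * g = 0 := fun z => Iff.rfl
  have hcl : IsClosed (J : Set D) := by
    have : (J : Set D) = ⋂ t : D, {z | z * t * g = 0} := by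
      ext z; simp [hJ]
    rw [this]
    exact isClosed_iInter fun t => isClosed_eq (by fun_prop) continuous_const
  rcases hS.2 J hcl (fun x y hy => by
      rw [hJ] at hy ⊢
      intro t
      have := hy t
      rw [mul_assoc x y t, mul_assoc x (y * t) g, this, mul_zero])
    (fun x y hx => by
      rw [hJ] at hx ⊢
      intro t
      have := hx (y * t)
      rwa [← mul_assoc] at this) with h | h
  · have : f ∈ J := hcon
    rw [h, Submodule.mem_bot] at this
    exact hf this
  · have h1 : star g ∈ J := by rw [h]; trivial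
    have h2 := (hJ _).1 h1 (g * star g)
    have h3 : (star g * g) * (star g * g) = 0 := by
      rw [← h2]; simp only [mul_assoc]
    have h4 : star g * g = 0 := niln_sq_zero (by rw [star_mul, star_star]) h3
    exact hg ((CStarRing.star_mul_self_eq_zero_iff g).1 h4)

/-- the case of two functions with disjoint supports -/
theorem niln_fun (hS : SimpleN D) {c : D} (hc : 0 ≤ c) (f g : D) (M : ℝ) (hM : 0 < M)
    (hfs : star f = f) (hgs : star g = g) (hf : f ≠ 0) (hg : g ≠ 0) (hgf : g * f = 0)
    (hf2 : f * f ≤ M • c) (hg2 : g * g ≤ M • c) :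
    ∃ (x : D) (M : ℝ), 0 < M ∧ x ≠ 0 ∧ x * x = 0 ∧ star x * x ≤ M • c ∧ x * star x ≤ M • c := by
  obtain ⟨t, ht⟩ := niln_prime hS hf hg
  set K : ℝ := ‖star t * (f * f) * t‖ + ‖t * (g * g) * star t‖ + 1 with hK
  have hKpos : 0 < K := by positivity
  refine ⟨f * t * g, K * M, by positivity, ht, ?_, ?_, ?_⟩
  · have : f * t * g * (f * t * g) = f * t * (g * f) * t * g := by simp only [mul_assoc]
    rw [this, hgf]; simp
  · have e : star (f * t * g) * (f * t * g) = star g * (star t * (f * f) * t) * g := by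
      simp only [star_mul, hfs, mul_assoc]
    have h0 : IsSelfAdjoint (star t * (f * f) * t) := by
      rw [IsSelfAdjoint]; simp only [star_mul, star_star, hfs, mul_assoc]
    have h1 : star g * (star t * (f * f) * t) * g ≤ ‖star t * (f * f) * t‖ • (star g * g) :=
      CStarAlgebra.star_left_conjugate_le_norm_smul h0
    rw [e]
    refine h1.trans ?_
    rw [hgs]
    calc ‖star t * (f * f) * t‖ • (g * g) ≤ ‖star t * (f * f) * t‖ • (M • c) :=
          smul_le_smul_of_nonneg_left hg2 (norm_nonneg _)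
      _ ≤ K • (M • c) := by
          refine smul_le_smul_of_nonneg_right ?_ (smul_nonneg hM.le hc)
          have := norm_nonneg (t * (g * g) * star t)
          linarith
      _ = (K * M) • c := by rw [smul_smul]
  · have e : f * t * g * star (f * t * g) = star f * (t * (g * g) * star t) * f := by
      simp only [star_mul, hgs, hfs, mul_assoc]
    have h0 : IsSelfAdjoint (t * (g * g) * star t) := by
      rw [IsSelfAdjoint]; simp only [star_mul, star_star, hgs, mul_assoc]
    have h1 : star f * (t * (g * g) * star t) * f ≤ ‖t * (g * g) * star t‖ • (star f * f) :=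
      CStarAlgebra.star_left_conjugate_le_norm_smul h0
    rw [e]
    refine h1.trans ?_
    rw [hfs]
    calc ‖t * (g * g) * star t‖ • (f * f) ≤ ‖t * (g * g) * star t‖ • (M • c) :=
          smul_le_smul_of_nonneg_left hf2 (norm_nonneg _)
      _ ≤ K • (M • c) := by
          refine smul_le_smul_of_nonneg_right ?_ (smul_nonneg hM.le hc)
          have := norm_nonneg (star t * (f * f) * t)
          linarith
      _ = (K * M) • c := by rw [smul_smul]

/-- two points in the spectrum -/
theorem niln_two (hS : SimpleN D) {c : D} (hc : 0 ≤ c) {s t : ℝ}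
    (hs : s ∈ quasispectrum ℝ c) (ht : t ∈ quasispectrum ℝ c) (hs0 : 0 < s) (hst : s < t) :
    ∃ (x : D) (M : ℝ), 0 < M ∧ x ≠ 0 ∧ x * x = 0 ∧ star x * x ≤ M • c ∧ x * star x ≤ M • c := by
  have hcs : IsSelfAdjoint c := IsSelfAdjoint.of_nonneg hc
  set m : ℝ := (s + t) / 2 with hm
  have hm0 : 0 < m := by rw [hm]; linarith
  set F : ℝ → ℝ := fun r => max 0 (min r (m - r)) with hF
  set G : ℝ → ℝ := fun r => max 0 (min (r - m) 1) with hG
  have hFc : Continuous F := by rw [hF]; fun_prop
  have hGc : Continuous G := by rw [hG]; fun_prop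
  have hF0 : F 0 = 0 := by simp only [hF]; exact max_eq_left (min_le_left _ _)
  have hG0 : G 0 = 0 := by
    simp only [hG]
    exact max_eq_left ((min_le_left _ _).trans (by linarith))
  have hFs : F s ≠ 0 := by
    have : 0 < F s := by
      simp only [hF]
      exact lt_max_of_lt_right (lt_min hs0 (by rw [hm]; linarith))
    exact this.ne'
  have hGt : G t ≠ 0 := by
    have : 0 < G t := by
      simp only [hG]
      exact lt_max_of_lt_right (lt_min (by rw [hm]; linarith) one_pos)
    exact this.ne'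
  have hqs : ∀ r ∈ quasispectrum ℝ c, 0 ≤ r := fun r hr => quasispectrum_nonneg_of_nonneg c hc r hr
  have hFG : ∀ r, G r * F r = 0 := by
    intro r
    rcases le_total r m with h | h
    · have : G r = 0 := by
        simp only [hG]; exact max_eq_left ((min_le_left _ _).trans (by linarith))
      rw [this, zero_mul]
    · have : F r = 0 := by
        simp only [hF]; exact max_eq_left ((min_le_right _ _).trans (by linarith))
      rw [this, mul_zero]
  have hne : ∀ (H : ℝ → ℝ) (r : ℝ), Continuous H → H 0 = 0 → r ∈ quasispectrum ℝ c → H r ≠ 0 →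
      cfcₙ H c ≠ 0 := by
    intro H r hH hH0 hr hHr h0
    have := norm_apply_le_norm_cfcₙ H c hr hH.continuousOn hH0 hcs
    rw [h0, norm_zero] at this
    exact hHr (norm_le_zero_iff.1 this)
  have hsq : ∀ (H : ℝ → ℝ), Continuous H → H 0 = 0 → ∀ K : ℝ,
      (∀ r, 0 ≤ r → H r * H r ≤ K * r) → cfcₙ H c * cfcₙ H c ≤ K • c := by
    intro H hH hH0 K hle
    have e1 : cfcₙ H c * cfcₙ H c = cfcₙ (fun r => H r * H r) c :=
      (cfcₙ_mul H H c hH.continuousOn hH0 hH.continuousOn hH0).symm
    have e2 : K • c = cfcₙ (fun r : ℝ => K * r) c := by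
      rw [cfcₙ_const_mul_id K c hcs]
    rw [e1, e2]
    exact cfcₙ_mono (fun r hr => hle r (hqs r hr)) (by fun_prop) (by fun_prop)
      (by simp [hH0]) (by simp)
  refine niln_fun hS hc (cfcₙ F c) (cfcₙ G c) (m + 1) (by positivity)
    (cfcₙ_predicate F c).star_eq (cfcₙ_predicate G c).star_eq
    (hne F s hFc hF0 hs hFs) (hne G t hGc hG0 ht hGt) ?_ ?_ ?_
  · rw [← cfcₙ_mul G F c hGc.continuousOn hG0 hFc.continuousOn hF0]
    simp only [hFG]
    exact cfcₙ_zero ℝ c
  · apply hsq F hFc hF0
    intro r hr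
    have h1 : 0 ≤ F r := le_max_left _ _
    have h2 : F r ≤ r := by
      simp only [hF]; exact max_le hr (min_le_left _ _)
    have h3 : F r ≤ m := by
      simp only [hF]; exact max_le hm0.le ((min_le_right _ _).trans (by linarith))
    nlinarith
  · apply hsq G hGc hG0
    intro r hr
    have h1 : 0 ≤ G r := le_max_left _ _
    have h2 : G r ≤ r := by
      simp only [hG]; exact max_le hr ((min_le_left _ _).trans (by linarith))
    have h3 : G r ≤ 1 := by
      simp only [hG]; exact max_le zero_le_one (min_le_right _ _)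
    nlinarith

theorem niln_dich (hS : SimpleN D) {c : D} (hc : 0 ≤ c) (hc0 : c ≠ 0) :
    (∃ s ∈ quasispectrum ℝ c, ∃ t ∈ quasispectrum ℝ c, 0 < s ∧ s < t) ∨
      ∃ l : ℝ, 0 < l ∧ c * c = l • c := by
  have hcs : IsSelfAdjoint c := IsSelfAdjoint.of_nonneg hc
  have hqs : ∀ r ∈ quasispectrum ℝ c, 0 ≤ r := fun r hr => quasispectrum_nonneg_of_nonneg c hc r hr
  by_cases h : ∃ s ∈ quasispectrum ℝ c, ∃ t ∈ quasispectrum ℝ c, 0 < s ∧ s < t
  · exact Or.inl h
  right
  push Not at h
  -- some nonzero point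
  obtain ⟨l, hl, hl0⟩ : ∃ l ∈ quasispectrum ℝ c, l ≠ 0 := by
    by_contra hcon
    push Not at hcon
    apply hc0
    have : cfcₙ (fun r : ℝ => r) c = cfcₙ (fun _ : ℝ => (0 : ℝ)) c :=
      cfcₙ_congr (fun r hr => hcon r hr)
    rw [cfcₙ_id' ℝ c hcs] at this
    rw [this]
    exact cfcₙ_zero ℝ c
  have hlpos : 0 < l := lt_of_le_of_ne (hqs l hl) (Ne.symm hl0)
  refine ⟨l, hlpos, ?_⟩
  have hall : ∀ r ∈ quasispectrum ℝ c, r * r = l * r := by
    intro r hr
    rcases (hqs r hr).eq_or_lt with h0 | h0
    · rw [← h0]; ring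
    · rcases lt_trichotomy r l with h1 | h1 | h1
      · exact absurd h1 (not_lt.2 (h r hr l hl h0))
      · rw [h1]
      · exact absurd h1 (not_lt.2 (h l hl r hr hlpos))
  have e1 : c * c = cfcₙ (fun r : ℝ => r * r) c := by
    rw [cfcₙ_mul (fun r : ℝ => r) (fun r : ℝ => r) c (by fun_prop) rfl (by fun_prop) rfl,
      cfcₙ_id' ℝ c hcs]
  have e2 : l • c = cfcₙ (fun r : ℝ => l * r) c := by
    rw [cfcₙ_const_mul_id l c hcs]
  rw [e1, e2]
  exact cfcₙ_congr (fun r hr => hall r hr)

theorem t_NILN : StNILN.{u} := by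
  intro D _ _ _ hS hN c hc hc0
  rcases niln_dich hS hc hc0 with ⟨s, hs, t, ht, h0, h1⟩ | ⟨l, hl, hcc⟩
  · exact niln_two hS hc hs ht h0 h1
  -- `p = c / l` is a projection
  set p : D := l⁻¹ • c with hp
  have hps : star p = p := by
    rw [hp, star_smul, (IsSelfAdjoint.of_nonneg hc).star_eq]; simp
  have hpp : p * p = p := by
    rw [hp, smul_mul_assoc, mul_smul_comm, hcc, smul_smul, smul_smul]
    congr 1
    field_simp
  have hcp : c = l • p := by rw [hp, smul_smul, mul_inv_cancel₀ hl.ne', one_smul]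
  have hp0 : p ≠ 0 := by
    intro h
    rw [hcp, h, smul_zero] at hc0
    exact hc0 rfl
  obtain ⟨x, hx⟩ := hN p hps hpp hp0
  -- a self-adjoint element of the corner which is not a multiple of `p`
  obtain ⟨y, hys, hpy, hyp, hy⟩ : ∃ y : D, star y = y ∧ p * y = y ∧ y * p = y ∧
      ∀ z : ℂ, y ≠ z • p := by
    by_contra hcon
    push Not at hcon
    set w : D := p * x * p with hw
    have hpw : p * w = w := by rw [hw]; simp only [← mul_assoc, hpp]
    have hwp : w * p = w := by rw [hw, mul_assoc, hpp]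
    have hpws : p * star w = star w := by
      have := congrArg star hwp
      rwa [star_mul, hps] at this
    have hwps : star w * p = star w := by
      have := congrArg star hpw
      rwa [star_mul, hps] at this
    obtain ⟨z1, h1⟩ := hcon (w + star w) (by rw [star_add, star_star, add_comm])
      (by rw [mul_add, hpw, hpws]) (by rw [add_mul, hwp, hwps])
    obtain ⟨z2, h2⟩ := hcon (Complex.I • (w - star w))
      (by
        rw [star_smul, star_sub, star_star, Complex.star_def, Complex.conj_I, neg_smul,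
          ← smul_neg, neg_sub])
      (by rw [mul_smul_comm, mul_sub, hpw, hpws]) (by rw [smul_mul_assoc, sub_mul, hwp, hwps])
    apply hx ((z1 - Complex.I * z2) / 2)
    show w = _
    have h3 : w - star w = (-Complex.I * z2) • p := by
      have := congrArg (fun v => (-Complex.I) • v) h2
      simp only [smul_smul] at this
      rw [show -Complex.I * Complex.I = 1 by rw [neg_mul, Complex.I_mul_I, neg_neg],
        one_smul] at this
      exact this
    have h4 : (2 : ℂ) • w = (z1 - Complex.I * z2) • p := by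
      have : (2 : ℂ) • w = (w + star w) + (w - star w) := by rw [two_smul]; abel
      rw [this, h1, h3, ← add_smul]
      congr 1
      ring
    have h5 : w = (2 : ℂ)⁻¹ • ((2 : ℂ) • w) := by
      rw [smul_smul, inv_mul_cancel₀ (by norm_num), one_smul]
    rw [h5, h4, smul_smul]
    congr 1
    ring
  have hy0 : y ≠ 0 := by
    intro h
    exact hy 0 (by rw [h, zero_smul])
  have hn : 0 < ‖y‖ := norm_pos_iff.2 hy0
  have hpnn : 0 ≤ p := by
    have := star_mul_self_nonneg p
    rwa [hps, hpp] at this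
  have hup : y ≤ ‖y‖ • p := by
    have h1 : star p * y * p ≤ ‖y‖ • (star p * p) :=
      CStarAlgebra.star_left_conjugate_le_norm_smul hys
    rwa [hps, hpy, hyp, hpp] at h1
  have hlo : -(‖y‖ • p) ≤ y := by
    have h1 : star p * (-y) * p ≤ ‖-y‖ • (star p * p) :=
      CStarAlgebra.star_left_conjugate_le_norm_smul (by
        rw [IsSelfAdjoint, star_neg, hys])
    rw [hps, mul_neg, neg_mul, hpy, hyp, hpp, norm_neg] at h1
    exact neg_le.1 h1
  set c' : D := (2 * ‖y‖) • p + y with hc'
  have hc'lo : ‖y‖ • p ≤ c' := by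
    rw [hc', two_mul, add_smul]
    have : (0 : D) ≤ ‖y‖ • p + y := by
      have := hlo
      rwa [neg_le_iff_add_nonneg, add_comm] at this
    calc ‖y‖ • p = ‖y‖ • p + 0 := (add_zero _).symm
      _ ≤ ‖y‖ • p + (‖y‖ • p + y) := by gcongr
      _ = _ := by abel
  have hc'0 : 0 ≤ c' := (smul_nonneg hn.le hpnn).trans hc'lo
  have hc'ne : c' ≠ 0 := by
    intro h
    rw [h] at hc'lo
    have h1 : ‖y‖ • p = 0 := le_antisymm hc'lo (smul_nonneg hn.le hpnn)
    rcases smul_eq_zero.1 h1 with h2 | h2
    · exact hn.ne' h2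
    · exact hp0 h2
  have hc'up : c' ≤ (3 * ‖y‖ / l) • c := by
    rw [hcp, smul_smul]
    have : 3 * ‖y‖ / l * l = 2 * ‖y‖ + ‖y‖ := by field_simp; ring
    rw [this, add_smul, hc']
    gcongr
  have hpc : p * c' = c' := by rw [hc', mul_add, mul_smul_comm, hpp, hpy]
  have hcps : c' * p = c' := by rw [hc', add_mul, smul_mul_assoc, hpp, hyp]
  have hfin : ∃ (x : D) (M : ℝ), 0 < M ∧ x ≠ 0 ∧ x * x = 0 ∧ star x * x ≤ M • c' ∧
      x * star x ≤ M • c' := by
    rcases niln_dich hS hc'0 hc'ne with ⟨s, hs, t, ht, h0, h1⟩ | ⟨l', hl', hcc'⟩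
    · exact niln_two hS hc'0 hs ht h0 h1
    exfalso
    -- `q = c' / l'` equals `p`
    set q : D := l'⁻¹ • c' with hq
    have hqc : q * c' = c' := by
      rw [hq, smul_mul_assoc, hcc', smul_smul, inv_mul_cancel₀ hl'.ne', one_smul]
    have hqs : star q = q := by
      rw [hq, star_smul, (IsSelfAdjoint.of_nonneg hc'0).star_eq]; simp
    have hd : star (p - q) = p - q := by rw [star_sub, hps, hqs]
    have h1 : star (p - q) * c' * (p - q) = 0 := by
      rw [hd, sub_mul p q c', hpc, hqc, sub_self, zero_mul]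
    have h2 : star (p - q) * (‖y‖ • p) * (p - q) ≤ star (p - q) * c' * (p - q) :=
      star_left_conjugate_le_conjugate hc'lo _
    have hpq : p * q = q := by rw [hq, mul_smul_comm, hpc]
    have hqp : q * p = q := by rw [hq, smul_mul_assoc, hcps]
    have h3 : star (p - q) * (‖y‖ • p) * (p - q) = ‖y‖ • ((p - q) * (p - q)) := by
      rw [hd, mul_smul_comm, smul_mul_assoc, sub_mul p q p, hpp, hqp]
    rw [h1, h3] at h2
    have h4 : 0 ≤ ‖y‖ • ((p - q) * (p - q)) := by
      refine smul_nonneg hn.le ?_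
      have := star_mul_self_nonneg (p - q)
      rwa [hd] at this
    have h5 : ‖y‖ • ((p - q) * (p - q)) = 0 := le_antisymm h2 h4
    have h6 : (p - q) * (p - q) = 0 := by
      rcases smul_eq_zero.1 h5 with h | h
      · exact absurd h hn.ne'
      · exact h
    have h7 : p - q = 0 := niln_sq_zero hd h6
    have h8 : p = l'⁻¹ • c' := sub_eq_zero.1 h7
    have h9 : c' = l' • p := by rw [h8, smul_smul, mul_inv_cancel₀ hl'.ne', one_smul]
    have h10 : y = (l' - 2 * ‖y‖) • p := by
      rw [sub_smul, ← h9, hc']; abel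
    refine hy ((l' - 2 * ‖y‖ : ℝ) : ℂ) ?_
    rw [Complex.coe_smul]
    exact h10
  obtain ⟨x, M, hM, hx0, hxx, hx1, hx2⟩ := hfin
  have hk : 0 < 3 * ‖y‖ / l := by positivity
  refine ⟨x, M * (3 * ‖y‖ / l), by positivity, hx0, hxx, ?_, ?_⟩
  · refine hx1.trans ?_
    rw [mul_smul]
    exact smul_le_smul_of_nonneg_left hc'up hM.le
  · refine hx2.trans ?_
    rw [mul_smul]
    exact smul_le_smul_of_nonneg_left hc'up hM.le

end niln

end Pool.Agent.H30R2.PZ
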