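import Pool.Agent.H667R5.NX.PZ.Stubs

set_option autoImplicit false

namespace Pool.Agent.H30R2.PZ

open Filter Topology Pool.Agent.H327R4.Pure Pool.Agent.H667R5.TW Pool.Agent.H270R2.NU
open scoped ENNReal CStarAlgebra ComplexOrder

universe u

namespace TPED

/-- the function giving the unit -/
noncomputable def fe (δ : ℝ) (t : ℝ) : ℝ := max (min (2 * t / δ - 1) 1) 0

/-- the function giving the multiplier -/
noncomputable def fm (δ : ℝ) (t : ℝ) : ℝ := Real.sqrt (fe δ t / max (t - δ / 4) (δ / 4))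

theorem fe_cont (δ : ℝ) : Continuous (fe δ) := by
  unfold fe
  fun_prop

theorem fm_cont (δ : ℝ) (hδ : 0 < δ) : Continuous (fm δ) := by
  unfold fm
  refine Real.continuous_sqrt.comp (Continuous.div (fe_cont δ) (by fun_prop) fun t => ?_)
  exact ne_of_gt (lt_of_lt_of_le (by linarith : (0 : ℝ) < δ / 4) (le_max_right _ _))

theorem fe_zero (δ : ℝ) : fe δ 0 = 0 := by
  unfold fe
  simp

theorem fm_zero (δ : ℝ) : fm δ 0 = 0 := by
  unfold fm
  rw [fe_zero]
  simp

theorem fe_nonneg (δ t : ℝ) : 0 ≤ fe δ t := le_max_right _ _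

theorem fe_cut (δ t : ℝ) (hδ : 0 < δ) : fe δ t * max (t - δ) 0 = max (t - δ) 0 := by
  rcases le_total t δ with h | h
  · rw [max_eq_right (by linarith : t - δ ≤ 0), mul_zero]
  · have h1 : fe δ t = 1 := by
      unfold fe
      have h2 : (1 : ℝ) ≤ 2 * t / δ - 1 := by
        have : (2 : ℝ) ≤ 2 * t / δ := by
          rw [le_div_iff₀ hδ]
          linarith
        linarith
      rw [min_eq_right h2, max_eq_left zero_le_one]
    rw [h1, one_mul]

theorem fm_mul (δ t : ℝ) (hδ : 0 < δ) : fm δ t * max (t - δ / 4) 0 * fm δ t = fe δ t := by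
  rcases le_total t (δ / 2) with h | h
  · have h1 : fe δ t = 0 := by
      unfold fe
      have h2 : 2 * t / δ - 1 ≤ 0 := by
        have : 2 * t / δ ≤ 1 := by
          rw [div_le_iff₀ hδ]
          linarith
        linarith
      exact max_eq_right ((min_le_left _ _).trans h2)
    have h3 : fm δ t = 0 := by
      unfold fm
      rw [h1]
      simp
    rw [h3, h1]
    ring
  · have h1 : max (t - δ / 4) (δ / 4) = t - δ / 4 := max_eq_left (by linarith)
    have h2 : max (t - δ / 4) 0 = t - δ / 4 := max_eq_left (by linarith)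
    have h3 : 0 < t - δ / 4 := by linarith
    have h4 : fm δ t * fm δ t = fe δ t / (t - δ / 4) := by
      unfold fm
      rw [h1]
      exact Real.mul_self_sqrt (div_nonneg (fe_nonneg δ t) h3.le)
    rw [h2, mul_right_comm, h4]
    exact div_mul_cancel₀ _ h3.ne'

end TPED

theorem t_PED (hF : StFULLN.{u}) : StPED.{u} := by
  intro A _ _ _ hS b δ hb hδ
  have hsa : IsSelfAdjoint b := IsSelfAdjoint.of_nonneg hb
  have hcute : ∀ ε : ℝ, cut ε b = cfcₙ (fun t : ℝ => max (t - ε) 0) b := fun ε => rfl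
  refine ⟨cfcₙ (TPED.fe δ) b, cfcₙ_nonneg fun x _ => TPED.fe_nonneg δ x, ?_, ?_, ?_⟩
  · rw [hcute, ← cfcₙ_mul (TPED.fe δ) (fun t : ℝ => max (t - δ) 0) b (TPED.fe_cont δ).continuousOn
      (TPED.fe_zero δ) (by fun_prop) (by simp [hδ.le])]
    exact cfcₙ_congr fun t _ => TPED.fe_cut δ t hδ
  · rw [hcute, ← cfcₙ_mul (fun t : ℝ => max (t - δ) 0) (TPED.fe δ) b (by fun_prop) (by simp [hδ.le])
      (TPED.fe_cont δ).continuousOn (TPED.fe_zero δ)]
    exact cfcₙ_congr fun t _ => by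
      show max (t - δ) 0 * TPED.fe δ t = max (t - δ) 0
      rw [mul_comm, TPED.fe_cut δ t hδ]
  · intro c hc hc0
    obtain ⟨n, y, hy⟩ := hF A hS c b hc hc0 hb (δ / 4) (by linarith)
    have hm : IsSelfAdjoint (cfcₙ (TPED.fm δ) b) := cfcₙ_predicate (TPED.fm δ) b
    have hprod : cfcₙ (TPED.fm δ) b * cut (δ / 4) b * cfcₙ (TPED.fm δ) b = cfcₙ (TPED.fe δ) b := by
      rw [hcute, ← cfcₙ_mul (TPED.fm δ) (fun t : ℝ => max (t - δ / 4) 0) b
        (TPED.fm_cont δ hδ).continuousOn (TPED.fm_zero δ) (by fun_prop) (by simp; linarith),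
        ← cfcₙ_mul (fun t => TPED.fm δ t * max (t - δ / 4) 0) (TPED.fm δ) b
        (((TPED.fm_cont δ hδ).mul (by fun_prop)).continuousOn) (by rw [TPED.fm_zero, zero_mul])
        (TPED.fm_cont δ hδ).continuousOn (TPED.fm_zero δ)]
      exact cfcₙ_congr fun t _ => TPED.fm_mul δ t hδ
    refine ⟨n, fun i => y i * cfcₙ (TPED.fm δ) b, ?_⟩
    rw [← hprod, ← hy, Finset.mul_sum, Finset.sum_mul]
    refine Finset.sum_congr rfl fun i _ => ?_
    rw [star_mul, hm.star_eq]
    simp only [mul_assoc]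

end Pool.Agent.H30R2.PZ
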