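import Pool.Agent.H667R5.NX.PZ.Stubs

set_option autoImplicit false

namespace Pool.Agent.H30R2.PZ

open Filter Topology Pool.Agent.H270R2.NU

universe u

section uc0

theorem uc0_prime {D : Type u} [NonUnitalCStarAlgebra D] (hS : SimpleN D) {f g : D}
    (hf : f ≠ 0) (hg : g ≠ 0) : ∃ t : D, f * t * g ≠ 0 := by
  by_contra hcon
  push Not at hcon
  let J : Submodule ℂ D :=
    { carrier := {z | ∀ t : D, z * t * g = 0}
      zero_mem' := by intro t; simp
      add_mem' := by
        intro x y hx hy t
        rw [add_mul, add_mul, hx t, hy t, add_zero]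
      smul_mem' := by
        intro c x hx t
        rw [smul_mul_assoc, smul_mul_assoc, hx t, smul_zero] }
  have hJ : ∀ z, z ∈ J ↔ ∀ t : D, z * t * g = 0 := fun z => Iff.rfl
  have hcl : IsClosed (J : Set D) := by
    have : (J : Set D) = ⋂ t : D, {z | z * t * g = 0} := by
      ext z; simp [hJ]
    rw [this]
    exact isClosed_iInter fun t => isClosed_eq (by fun_prop) continuous_const
  have hsq : ∀ y : D, star y = y → y * y = 0 → y = 0 := by
    intro y hy h
    have : star y * y = 0 := by rw [hy, h]
    exact (CStarRing.star_mul_self_eq_zero_iff y).1 this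
  rcases hS.2 J hcl (fun x y hy => by
      rw [hJ] at hy ⊢
      intro t
      have := hy t
      rw [mul_assoc x y t, mul_assoc x (y * t) g, this, mul_zero])
    (fun x y hx => by
      rw [hJ] at hx ⊢
      intro t
      have := hx (y * t)
      rwa [← mul_assoc] at this) with h | h
  · have : f ∈ J := hcon
    rw [h, Submodule.mem_bot] at this
    exact hf this
  · have h1 : star g ∈ J := by rw [h]; trivial
    have h2 := (hJ _).1 h1 (g * star g)
    have h3 : (star g * g) * (star g * g) = 0 := by
      rw [← h2]; simp only [mul_assoc]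
    have h4 : star g * g = 0 := hsq _ (by rw [star_mul, star_star]) h3
    exact hg ((CStarRing.star_mul_self_eq_zero_iff g).1 h4)

theorem t_UC0 (hNIL : StNILN.{u}) : StUC0.{u} := by
  intro D E _ _ _ _ _ _ j hj hS hN
  have hinj : ∀ x : D, j x = 0 → x = 0 := by
    intro x hx
    have := hj.norm x
    rw [hx, norm_zero] at this
    exact norm_eq_zero.1 this.symm
  have hiso : Isometry j := by
    refine AddMonoidHomClass.isometry_of_norm j ?_
    exact hj.norm
  have hpos : ∀ x : D, 0 ≤ x → 0 ≤ j x := by
    intro x hx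
    obtain ⟨s, hs0, hs⟩ : ∃ s : D, 0 ≤ s ∧ s * s = x :=
      ⟨CFC.sqrt x, CFC.sqrt_nonneg x, CFC.sqrt_mul_sqrt_self x hx⟩
    have hss : star s = s := (IsSelfAdjoint.of_nonneg hs0).star_eq
    have : j x = star (j s) * j s := by rw [← map_star, hss, ← map_mul, hs]
    rw [this]
    exact star_mul_self_nonneg _
  have hrefl : ∀ x : D, 0 ≤ j x → 0 ≤ x := by
    intro x hx
    have hsa : IsSelfAdjoint x := by
      have h1 : j (star x - x) = 0 := by
        rw [map_sub, map_star, (IsSelfAdjoint.of_nonneg hx).star_eq, sub_self]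
      exact sub_eq_zero.1 (hinj _ h1)
    have hneg : j (x⁻) = (j x)⁻ := by
      have h := NonUnitalStarAlgHomClass.map_cfcₙ j (fun r : ℝ => r⁻) x
        (by fun_prop) (by simp) hiso.continuous hsa (hsa.map j)
      simpa [CFC.negPart_def] using h
    have h0 : (j x)⁻ = 0 := (CFC.negPart_eq_zero_iff (j x) (hsa.map j)).2 hx
    rw [h0] at hneg
    have h1 := hinj _ hneg
    exact (CFC.negPart_eq_zero_iff x hsa).1 h1
  have hmono : ∀ x y : D, x ≤ y → j x ≤ j y := by
    intro x y hxy
    have := hpos _ (sub_nonneg.2 hxy)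
    rwa [map_sub, sub_nonneg] at this
  exact
    { zero := ⟨0, map_zero j⟩
      add := by
        rintro _ _ ⟨x, rfl⟩ ⟨y, rfl⟩
        exact ⟨x + y, map_add j x y⟩
      smul := by
        rintro c _ ⟨x, rfl⟩
        exact ⟨c • x, map_smul j c x⟩
      star := by
        rintro _ ⟨x, rfl⟩
        exact ⟨Star.star x, map_star j x⟩
      mul_left := by
        rintro z _ ⟨y, rfl⟩
        obtain ⟨c, x, rfl⟩ := hj.ex z
        refine ⟨c • y + x * y, ?_⟩
        rw [map_add, map_smul, map_mul, add_mul, smul_mul_assoc, one_mul]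
      mul_right := by
        rintro _ z ⟨x, rfl⟩
        obtain ⟨c, y, rfl⟩ := hj.ex z
        refine ⟨c • x + x * y, ?_⟩
        rw [map_add, map_smul, map_mul, mul_add, mul_smul_comm, mul_one]
      closed := hiso.isClosedEmbedding.isClosed_range
      nonzero := by
        obtain ⟨x, hx⟩ := hS.1
        exact ⟨j x, ⟨x, rfl⟩, fun h => hx (hinj x h)⟩
      prime := by
        rintro _ _ ⟨x, rfl⟩ ⟨y, rfl⟩ hx hy
        have hx' : x ≠ 0 := fun h => hx (by rw [h, map_zero])
        have hy' : y ≠ 0 := fun h => hy (by rw [h, map_zero])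
        obtain ⟨t, ht⟩ := uc0_prime hS hx' hy'
        refine ⟨j t, ⟨t, rfl⟩, fun h => ht (hinj _ ?_)⟩
        rw [map_mul, map_mul, h]
      ess := by
        intro c hc
        obtain ⟨x, hx⟩ := hj.ess c hc
        exact ⟨j x, ⟨x, rfl⟩, hx⟩
      nil := by
        rintro _ ⟨c, rfl⟩ hc hc0
        have hc0' : c ≠ 0 := fun h => hc0 (by rw [h, map_zero])
        obtain ⟨x, M, hM, hx0, hxx, h1, h2⟩ := hNIL D hS hN c (hrefl c hc) hc0'
        have hsm : j (M • c) = M • j c := by
          have h := map_smul j (M : ℂ) c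
          simpa using h
        refine ⟨j x, ⟨x, rfl⟩, M, hM, fun h => hx0 (hinj x h), ?_, ?_, ?_⟩
        · rw [← map_mul, hxx, map_zero]
        · have := hmono _ _ h1
          rwa [map_mul, map_star, hsm] at this
        · have := hmono _ _ h2
          rwa [map_mul, map_star, hsm] at this }

end uc0

end Pool.Agent.H30R2.PZ
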