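import Pool.Agent.H667R5.NX.PZ.Stubs
import Pool.Agent.H327R4.Pure.All4

/-!
# PART 0, UCORE: the core axioms for the minimal unitisation
-/

set_option autoImplicit false

namespace Pool.Agent.H30R2.PZ

open Filter Topology Pool.Agent.H327R4.Pure Pool.Agent.H667R5.TW Pool.Agent.H270R2.NU
open scoped ENNReal CStarAlgebra ComplexOrder

universe u

/-- a tracial state has norm at most one -/
theorem ucore_bound {E : Type u} [CStarAlgebra E] (T : TS E) (x : E) : ‖T.1.f x‖ ≤ ‖x‖ := by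
  obtain ⟨c, hc, hcx⟩ : ∃ c : ℂ, ‖c‖ = 1 ∧ c * T.1.f x = (‖T.1.f x‖ : ℂ) := by
    by_cases h0 : T.1.f x = 0
    · exact ⟨1, by simp, by simp [h0]⟩
    · refine ⟨(‖T.1.f x‖ : ℂ) / T.1.f x, ?_, ?_⟩
      · rw [norm_div, Complex.norm_real, norm_norm]
        exact div_self (norm_ne_zero_iff.2 h0)
      · exact div_mul_cancel₀ _ h0
  obtain ⟨z, hz⟩ : ∃ z : E, z = c • x := ⟨_, rfl⟩
  have hzn : ‖z‖ = ‖x‖ := by rw [hz, norm_smul, hc, one_mul]
  have h := realPart_add_I_smul_imaginaryPart z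
  have e : T.1.f z = T.1.f (realPart z : E) + Complex.I * T.1.f (imaginaryPart z : E) := by
    conv_lhs => rw [← h]
    rw [map_add, map_smul, smul_eq_mul]
  let _ : PartialOrder E := CStarAlgebra.spectralOrder E
  have _ : StarOrderedRing E := CStarAlgebra.spectralOrderedRing E
  obtain ⟨-, -, h3⟩ := mt_holds E T.1
  have i1 := h3 _ (realPart z).2
  have i2 := h3 _ (imaginaryPart z).2
  have e2 : T.1.f z = (‖T.1.f x‖ : ℂ) := by rw [hz, map_smul, smul_eq_mul, hcx]
  have e3 : ‖T.1.f x‖ = (T.1.f (realPart z : E)).re := by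
    have := congrArg Complex.re (e2.symm.trans e)
    rw [Complex.ofReal_re, Complex.add_re, Complex.mul_re, Complex.I_re, Complex.I_im, i2] at this
    rw [this]
    ring
  have e4 : ‖(realPart z : E)‖ ≤ ‖z‖ := realPart.norm_le z
  rw [e3, ← hzn]
  exact (Complex.re_le_norm _).trans ((CPTaux.bound_sa T (realPart z).2).trans e4)

/-- an isometric homomorphism reflects positivity -/
theorem ucore_pos {D E : Type u} [NonUnitalCStarAlgebra D] [PartialOrder D] [StarOrderedRing D]
    [CStarAlgebra E] [PartialOrder E] [StarOrderedRing E] (j : D →⋆ₙₐ[ℂ] E)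
    (hj : ∀ x, ‖j x‖ = ‖x‖) (x : D) (hx : 0 ≤ j x) : 0 ≤ x := by
  have hinj : Function.Injective j := by
    intro p q hpq
    have h1 : ‖p - q‖ = 0 := by rw [← hj, map_sub, hpq, sub_self, norm_zero]
    exact sub_eq_zero.1 (norm_eq_zero.1 h1)
  have hs : IsSelfAdjoint x := by
    apply hinj
    rw [map_star]
    exact (IsSelfAdjoint.of_nonneg hx).star_eq
  have hcont : Continuous j := map_continuous j
  have hn : j (cfcₙ (fun t : ℝ => max (-t) 0) x) = cfcₙ (fun t : ℝ => max (-t) 0) (j x) :=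
    NonUnitalStarAlgHomClass.map_cfcₙ (S := ℂ) j _ x (by fun_prop) (by simp) hcont hs
      (IsSelfAdjoint.of_nonneg hx)
  have h0 : cfcₙ (fun t : ℝ => max (-t) 0) (j x) = 0 := by
    have : cfcₙ (fun t : ℝ => max (-t) 0) (j x) = cfcₙ (fun _ : ℝ => (0 : ℝ)) (j x) := by
      apply cfcₙ_congr
      intro t ht
      have h1 : 0 ≤ t := quasispectrum_nonneg_of_nonneg (j x) hx t ht
      simp [h1]
    rw [this, cfcₙ_const_zero]
  have h1 : cfcₙ (fun t : ℝ => max (-t) 0) x = 0 := by
    apply hinj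
    rw [hn, h0, map_zero]
  have h2 : x = cfcₙ (fun t : ℝ => max t 0) x := by
    have e1 : cfcₙ (fun t : ℝ => max t 0 - max (-t) 0) x =
        cfcₙ (fun t : ℝ => max t 0) x - cfcₙ (fun t : ℝ => max (-t) 0) x :=
      cfcₙ_sub _ _ x (by fun_prop) (by simp) (by fun_prop) (by simp)
    have e2 : cfcₙ (fun t : ℝ => max t 0 - max (-t) 0) x = x := by
      have : (fun t : ℝ => max t 0 - max (-t) 0) = fun t => t := by
        funext t
        rcases le_total 0 t with h | h
        · rw [max_eq_left h, max_eq_right (by linarith)]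
          ring
        · rw [max_eq_right h, max_eq_left (by linarith)]
          ring
      rw [this]
      exact cfcₙ_id' ℝ x
    rw [e2, h1, sub_zero] at e1
    exact e1
  rw [h2]
  exact cfcₙ_nonneg fun t _ => le_max_right _ _

/-- restriction of a trace along a homomorphism -/
noncomputable def ucoreRes {D E : Type u} [NonUnitalCStarAlgebra D] [CStarAlgebra E]
    (j : D →⋆ₙₐ[ℂ] E) (hj : ∀ x, ‖j x‖ = ‖x‖) (T : Tr E) : Tr D where
  f := T.f.comp (LinearMap.mkContinuous
    ({ toFun := j, map_add' := map_add j, map_smul' := map_smul j } : D →ₗ[ℂ] E) 1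
    (fun x => by
      rw [one_mul]
      exact (hj x).le))
  pos x := by
    have h := T.pos (j x)
    have e : T.f (j (star x * x)) = T.f (star (j x) * j x) := by rw [map_mul, map_star]
    rw [← e] at h
    exact h
  tr x y := by
    have h := T.tr (j x) (j y)
    rw [← map_mul, ← map_mul] at h
    exact h

theorem t_UCORE (hFULLN : StFULLN.{u}) (hUEXT : StUEXT.{u}) : StUCORE.{u} := by
  intro D E _ _ _ _ _ _ j hU hS hL hC0
  have hj := hU.norm
  have hinj : Function.Injective j := by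
    intro p q hpq
    have h1 : ‖p - q‖ = 0 := by rw [← hj, map_sub, hpq, sub_self, norm_zero]
    exact sub_eq_zero.1 (norm_eq_zero.1 h1)
  refine { hC0 with full := ?_, low := ?_, norm := ?_ }
  · rintro _ _ ⟨c, rfl⟩ hc hc0 ⟨h, rfl⟩ hh ε hε
    have hc' : 0 ≤ c := ucore_pos j hj c hc
    have hh' : 0 ≤ h := ucore_pos j hj h hh
    have hc0' : c ≠ 0 := by
      rintro rfl
      exact hc0 (map_zero j)
    obtain ⟨n, y, hy⟩ := hFULLN D hS c h hc' hc0' hh' ε hε
    refine ⟨n, fun i => j (y i), fun i => ⟨y i, rfl⟩, ?_⟩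
    have h2 := (hom_holds D E j h hh').2.1 ε hε.le
    rw [← h2, ← hy, map_sum]
    refine Finset.sum_congr rfl fun i _ => ?_
    rw [map_mul, map_mul, map_star]
  · rintro _ ⟨c, rfl⟩ hc hc0
    have hc' : 0 ≤ c := ucore_pos j hj c hc
    have hc0' : c ≠ 0 := by
      rintro rfl
      exact hc0 (map_zero j)
    obtain ⟨η, hη, hη2⟩ := hL c hc' hc0'
    refine ⟨η, hη, ?_⟩
    rintro T _ ⟨d, rfl⟩ hd hd1
    have hd' : 0 ≤ d := ucore_pos j hj d hd
    have hn : ‖d‖ ≤ 1 := by
      rw [← hj]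
      exact (CStarAlgebra.norm_le_one_iff_of_nonneg (j d) hd).2 hd1
    exact hη2 (ucoreRes j hj T.1) d hd' hn
  · rintro T ⟨_, ⟨d, rfl⟩, hd⟩
    obtain ⟨T', t, ht, hN, hf, hle⟩ := hUEXT D E j hU (ucoreRes j hj T.1) ⟨d, hd⟩
    refine ⟨T', t, ht, hle 1 ?_, hN, ?_⟩
    · intro x
      rw [one_mul, ← hj x]
      exact ucore_bound T (j x)
    · rintro _ ⟨x, rfl⟩
      exact hf x

end Pool.Agent.H30R2.PZ
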