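import Pool.Agent.H667R5.NX.PZ.Stubs

/-!
# Task UEXT: extension of bounded traces to the unitisation
-/

set_option autoImplicit false

namespace Pool.Agent.H30R2.PZ

open Filter Topology Pool.Agent.H327R4.Pure Pool.Agent.H667R5.TW Pool.Agent.H270R2.NU
open scoped ENNReal CStarAlgebra ComplexOrder

universe u

namespace UEXTaux

section cs

variable {D : Type u} [NonUnitalCStarAlgebra D] (T : Tr D)

theorem herm (x y : D) : T.f (star x * y) = (starRingEnd ℂ) (T.f (star y * x)) := by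
  have h1 := (T.pos (x + y)).2
  have h2 := (T.pos (x + Complex.I • y)).2
  have hx := (T.pos x).2
  have hy := (T.pos y).2
  have e1 : star (x + y) * (x + y) = star x * x + star x * y + star y * x + star y * y := by
    rw [star_add]; noncomm_ring
  have e2 : star (x + Complex.I • y) * (x + Complex.I • y) =
      star x * x + Complex.I • (star x * y) - Complex.I • (star y * x) + star y * y := by
    rw [star_add, star_smul, add_mul, mul_add, mul_add, smul_mul_assoc, smul_mul_assoc,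
      mul_smul_comm, mul_smul_comm, smul_smul]
    simp only [Complex.star_def, Complex.conj_I, neg_mul, Complex.I_mul_I, neg_neg, one_smul,
      neg_smul]
    abel
  rw [e1] at h1
  rw [e2] at h2
  simp only [map_add, map_sub, map_smul, smul_eq_mul, Complex.add_im, Complex.sub_im,
    Complex.mul_im, Complex.I_re, Complex.I_im, zero_mul, one_mul, zero_add] at h1 h2
  apply Complex.ext
  · simp only [Complex.conj_re]; linarith
  · simp only [Complex.conj_im]; linarith

theorem cs (x y : D) :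
    ‖T.f (star y * x)‖ ^ 2 ≤ (T.f (star x * x)).re * (T.f (star y * y)).re := by
  set s : ℂ := T.f (star y * x) with hs
  have hx := (T.pos x).1
  have hy := (T.pos y).1
  have hns : (0 : ℝ) ≤ ‖s‖ ^ 2 := by positivity
  have hre : s.re * s.re + s.im * s.im = ‖s‖ ^ 2 := by
    rw [← Complex.normSq_eq_norm_sq, Complex.normSq_apply]
  have key : ∀ r : ℝ, 0 ≤ (‖s‖ ^ 2 * (T.f (star y * y)).re) * (r * r) + (2 * ‖s‖ ^ 2) * r +
      (T.f (star x * x)).re := by
    intro r
    have h1 := (T.pos (x + ((r : ℂ) * s) • y)).1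
    have e : star (x + ((r : ℂ) * s) • y) * (x + ((r : ℂ) * s) • y) =
        star x * x + ((r : ℂ) * s) • (star x * y) +
          ((starRingEnd ℂ) ((r : ℂ) * s)) • (star y * x) +
          ((starRingEnd ℂ) ((r : ℂ) * s) * ((r : ℂ) * s)) • (star y * y) := by
      rw [star_add, star_smul, add_mul, mul_add, mul_add, smul_mul_assoc, smul_mul_assoc,
        mul_smul_comm, mul_smul_comm, smul_smul]
      simp only [Complex.star_def]
      abel
    rw [e] at h1
    simp only [map_add, map_smul, smul_eq_mul] at h1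
    rw [herm T x y, ← hs] at h1
    have hyi := (T.pos y).2
    simp only [Complex.add_re, Complex.mul_re, Complex.mul_im, map_mul, Complex.conj_re,
      Complex.conj_im, Complex.ofReal_re, Complex.ofReal_im, hyi, Complex.conj_ofReal] at h1
    ring_nf at h1 ⊢
    have hre' : s.re ^ 2 + s.im ^ 2 = ‖s‖ ^ 2 := by rw [← hre]; ring
    rw [← hre']
    ring_nf
    linarith
  have hd := discrim_le_zero key
  unfold discrim at hd
  by_cases h0 : ‖s‖ ^ 2 = 0
  · rw [h0]; positivity
  · have hpos : 0 < ‖s‖ ^ 2 := lt_of_le_of_ne hns (Ne.symm h0)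
    have h2 : ‖s‖ ^ 2 * ‖s‖ ^ 2 ≤
        ‖s‖ ^ 2 * ((T.f (star x * x)).re * (T.f (star y * y)).re) := by nlinarith
    exact le_of_mul_le_mul_left h2 hpos

end cs

section au

variable {D : Type u} [NonUnitalCStarAlgebra D] [PartialOrder D] [StarOrderedRing D]

theorem au (hAUN : StAUN.{u}) (T : Tr D) (F : Finset D) (ε : ℝ) (hε : 0 < ε) :
    ∃ v : D, 0 ≤ v ∧ ‖v‖ ≤ 1 ∧ (∀ x ∈ F, ‖v * x - x‖ ≤ ε ∧ ‖x * v - x‖ ≤ ε) ∧
      ‖T.f v - (‖T.f‖ : ℂ)‖ ≤ ε ∧ ‖T.f (v * v) - (‖T.f‖ : ℂ)‖ ≤ ε := by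
  classical
  set t : ℝ := ‖T.f‖ with ht
  have ht0 : 0 ≤ t := norm_nonneg _
  set δ : ℝ := ε / (2 * (1 + 2 * t)) with hδ
  have hδ0 : 0 < δ := by positivity
  have hδe : 2 * (δ + 2 * t * δ) = ε := by
    rw [hδ]; field_simp
  have hlt : t - δ < ‖T.f‖ := by rw [← ht]; linarith
  obtain ⟨x0, hx0, hx1⟩ := ContinuousLinearMap.exists_lt_apply_of_lt_opNorm T.f hlt
  obtain ⟨u, hu0, hu1, hu2⟩ := hAUN D (insert x0 F) δ hδ0
  have hsu : star u = u := (IsSelfAdjoint.of_nonneg hu0).star_eq
  have hT : ∀ x : D, ‖T.f x‖ ≤ t * ‖x‖ := fun x => T.f.le_opNorm x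
  have hvle : ‖u * u‖ ≤ 1 := (norm_mul_le _ _).trans (by nlinarith [norm_nonneg u])
  have happ : ∀ x ∈ insert x0 F, ‖u * u * x - x‖ ≤ 2 * δ ∧ ‖x * (u * u) - x‖ ≤ 2 * δ := by
    intro x hx
    obtain ⟨h1, h2⟩ := hu2 x hx
    constructor
    · have e : u * u * x - x = u * (u * x - x) + (u * x - x) := by noncomm_ring
      rw [e]
      calc ‖u * (u * x - x) + (u * x - x)‖ ≤ ‖u * (u * x - x)‖ + ‖u * x - x‖ := norm_add_le _ _
        _ ≤ ‖u‖ * ‖u * x - x‖ + ‖u * x - x‖ := by gcongr; exact norm_mul_le _ _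
        _ ≤ 1 * δ + δ := by gcongr
        _ = 2 * δ := by ring
    · have e : x * (u * u) - x = (x * u - x) * u + (x * u - x) := by noncomm_ring
      rw [e]
      calc ‖(x * u - x) * u + (x * u - x)‖ ≤ ‖(x * u - x) * u‖ + ‖x * u - x‖ := norm_add_le _ _
        _ ≤ ‖x * u - x‖ * ‖u‖ + ‖x * u - x‖ := by gcongr; exact norm_mul_le _ _
        _ ≤ δ * 1 + δ := by gcongr
        _ = 2 * δ := by ring
  -- the lower bound
  have hlow : ∀ (w : D) (e : ℝ), star w = w → ‖w‖ ≤ 1 → ‖w * x0 - x0‖ ≤ e →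
      t - 2 * (δ + t * e) ≤ (T.f (w * w)).re ∧ (T.f (w * w)).re ≤ t ∧ (T.f (w * w)).im = 0 := by
    intro w e hw hw1 hwe
    have hp := T.pos w
    rw [hw] at hp
    have hup : ‖T.f (w * w)‖ ≤ t := by
      calc ‖T.f (w * w)‖ ≤ t * ‖w * w‖ := hT _
        _ ≤ t * 1 := by
          gcongr
          exact (norm_mul_le _ _).trans (by nlinarith [norm_nonneg w])
        _ = t := mul_one t
    have hup' : (T.f (w * w)).re ≤ t := (Complex.re_le_norm _).trans hup
    refine ⟨?_, hup', hp.2⟩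
    have h1 : t - (δ + t * e) ≤ ‖T.f (w * x0)‖ := by
      have h2 : ‖T.f x0‖ ≤ ‖T.f (w * x0)‖ + ‖T.f (w * x0 - x0)‖ := by
        have e2 : T.f x0 = T.f (w * x0) - T.f (w * x0 - x0) := by rw [map_sub]; ring
        calc ‖T.f x0‖ = ‖T.f (w * x0) - T.f (w * x0 - x0)‖ := by rw [← e2]
          _ ≤ _ := norm_sub_le _ _
      have h3 : ‖T.f (w * x0 - x0)‖ ≤ t * e := (hT _).trans (by gcongr)
      linarith
    have h2 := cs T x0 w
    rw [hw] at h2
    have h3 : (T.f (star x0 * x0)).re ≤ t := by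
      calc (T.f (star x0 * x0)).re ≤ ‖T.f (star x0 * x0)‖ := Complex.re_le_norm _
        _ ≤ t * ‖star x0 * x0‖ := hT _
        _ ≤ t * 1 := by
          gcongr
          rw [CStarRing.norm_star_mul_self]
          nlinarith [norm_nonneg x0]
        _ = t := mul_one t
    have h4 : ‖T.f (w * x0)‖ ^ 2 ≤ t * (T.f (w * w)).re :=
      h2.trans (mul_le_mul_of_nonneg_right h3 hp.1)
    by_cases hneg : t - (δ + t * e) < 0
    · have he0 : 0 ≤ e := (norm_nonneg _).trans hwe
      have : 0 ≤ t * e := mul_nonneg ht0 he0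
      linarith [hp.1]
    · push Not at hneg
      have h5 : (t - (δ + t * e)) ^ 2 ≤ t * (T.f (w * w)).re :=
        (pow_le_pow_left₀ hneg h1 2).trans h4
      have he0 : 0 ≤ e := (norm_nonneg _).trans hwe
      have hte : 0 ≤ t * e := mul_nonneg ht0 he0
      have htpos : 0 < t := by linarith
      have h6 : t * (t - 2 * (δ + t * e)) ≤ t * (T.f (w * w)).re := by
        refine le_trans ?_ h5
        nlinarith [sq_nonneg (δ + t * e)]
      exact le_of_mul_le_mul_left h6 htpos
  have hnorm : ∀ z : ℂ, t - ε ≤ z.re → z.re ≤ t → z.im = 0 → ‖z - (t : ℂ)‖ ≤ ε := by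
    intro z h1 h2 h3
    have e : z - (t : ℂ) = ((z.re - t : ℝ) : ℂ) := by
      apply Complex.ext <;> simp [h3]
    rw [e, Complex.norm_real, Real.norm_eq_abs, abs_le]
    constructor <;> linarith
  have hx0m : x0 ∈ insert x0 F := Finset.mem_insert_self _ _
  have hvs : star (u * u) = u * u := by rw [star_mul, hsu]
  have htδ : 0 ≤ t * δ := mul_nonneg ht0 hδ0.le
  refine ⟨u * u, ?_, hvle, ?_, ?_, ?_⟩
  · have := star_mul_self_nonneg u
    rwa [hsu] at this
  · intro x hx
    obtain ⟨h1, h2⟩ := happ x (Finset.mem_insert_of_mem hx)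
    constructor <;> linarith
  · obtain ⟨h1, h2, h3⟩ := hlow u δ hsu hu1 (hu2 x0 hx0m).1
    apply hnorm _ _ h2 h3
    linarith
  · obtain ⟨h1, h2, h3⟩ := hlow (u * u) (2 * δ) hvs hvle (happ x0 hx0m).1
    apply hnorm _ _ h2 h3
    linarith

end au

section main

variable {D E : Type u} [NonUnitalCStarAlgebra D] [PartialOrder D]
  [StarOrderedRing D] [CStarAlgebra E] [PartialOrder E] [StarOrderedRing E]
  (j : D →⋆ₙₐ[ℂ] E)

theorem bound (hAUN : StAUN.{u}) (hj : IsUn j) (T : Tr D) (c : ℂ) (x : D) :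
    ‖c * (‖T.f‖ : ℂ) + T.f x‖ ≤ ‖T.f‖ * ‖c • (1 : E) + j x‖ := by
  set t : ℝ := ‖T.f‖ with ht
  have ht0 : 0 ≤ t := norm_nonneg _
  have hT : ∀ x : D, ‖T.f x‖ ≤ t * ‖x‖ := fun x => T.f.le_opNorm x
  have key : ∀ δ : ℝ, 0 < δ → ‖c * (t : ℂ) + T.f x‖ ≤ t * ‖c • (1 : E) + j x‖ +
      (‖c‖ + t) * δ := by
    intro δ hδ
    obtain ⟨v, hv0, hv1, hv2, hv3, -⟩ := au hAUN T {x} δ hδ
    rw [← ht] at hv3
    obtain ⟨-, h2⟩ := hv2 x (Finset.mem_singleton_self x)
    have e1 : j (c • v + x * v) = (c • (1 : E) + j x) * j v := by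
      rw [map_add, map_smul, map_mul, add_mul, smul_mul_assoc, one_mul]
    have e2 : ‖c • v + x * v‖ ≤ ‖c • (1 : E) + j x‖ := by
      rw [← hj.norm, e1]
      calc ‖(c • (1 : E) + j x) * j v‖ ≤ ‖c • (1 : E) + j x‖ * ‖j v‖ := norm_mul_le _ _
        _ ≤ ‖c • (1 : E) + j x‖ * 1 := by
          gcongr
          rw [hj.norm]
          exact hv1
        _ = _ := mul_one _
    have e3 : c * (t : ℂ) + T.f x =
        T.f (c • v + x * v) - c * (T.f v - (t : ℂ)) - T.f (x * v - x) := by
      rw [map_add, map_smul, map_sub, smul_eq_mul]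
      ring
    calc ‖c * (t : ℂ) + T.f x‖ =
          ‖T.f (c • v + x * v) - c * (T.f v - (t : ℂ)) - T.f (x * v - x)‖ := by rw [e3]
      _ ≤ ‖T.f (c • v + x * v)‖ + ‖c * (T.f v - (t : ℂ))‖ + ‖T.f (x * v - x)‖ := by
          refine (norm_sub_le _ _).trans ?_
          gcongr
          exact norm_sub_le _ _
      _ ≤ t * ‖c • (1 : E) + j x‖ + ‖c‖ * δ + t * δ := by
          gcongr
          · exact (hT _).trans (by gcongr)
          · rw [norm_mul]; gcongr
          · exact (hT _).trans (by gcongr)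
      _ = _ := by ring
  by_contra hcon
  push Not at hcon
  set g := ‖c * (t : ℂ) + T.f x‖ - t * ‖c • (1 : E) + j x‖ with hg
  have hg0 : 0 < g := by linarith
  have hct : 0 ≤ ‖c‖ + t := by positivity
  have h := key (g / (2 * (‖c‖ + t + 1))) (by positivity)
  have h2 : (‖c‖ + t) * (g / (2 * (‖c‖ + t + 1))) ≤ g / 2 := by
    rw [mul_div_assoc', div_le_div_iff₀ (by positivity) (by norm_num)]
    nlinarith
  linarith

theorem posi (hAUN : StAUN.{u}) (T : Tr D) (d : ℂ) (y : D) :
    0 ≤ ((star d * d) * (‖T.f‖ : ℂ) + T.f (star d • y + d • star y + star y * y)).re ∧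
    ((star d * d) * (‖T.f‖ : ℂ) + T.f (star d • y + d • star y + star y * y)).im = 0 := by
  set t : ℝ := ‖T.f‖ with ht
  set X : D := star d • y + d • star y + star y * y with hX
  have ht0 : 0 ≤ t := norm_nonneg _
  have hT : ∀ x : D, ‖T.f x‖ ≤ t * ‖x‖ := fun x => T.f.le_opNorm x
  have key : ∀ δ : ℝ, 0 < δ → ∃ p : ℂ, 0 ≤ p.re ∧ p.im = 0 ∧
      ‖(star d * d) * (t : ℂ) + T.f X - p‖ ≤ (‖d‖ ^ 2 + 2 * t) * δ := by
    intro δ hδ
    obtain ⟨v, hv0, hv1, hv2, -, hv4⟩ := au hAUN T {X} δ hδ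
    rw [← ht] at hv4
    obtain ⟨-, h2⟩ := hv2 X (Finset.mem_singleton_self X)
    have hsv : star v = v := (IsSelfAdjoint.of_nonneg hv0).star_eq
    obtain ⟨hp1, hp2⟩ := T.pos (d • v + y * v)
    refine ⟨_, hp1, hp2, ?_⟩
    have e1 : star (d • v + y * v) * (d • v + y * v) =
        (star d * d) • (v * v) + v * (X * v) := by
      rw [hX, star_add, star_smul, star_mul, hsv]
      simp only [add_mul, mul_add, smul_mul_assoc, mul_smul_comm, smul_add, smul_smul, mul_assoc]
      rw [mul_comm d (star d)]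
      abel
    have e2 : T.f (star (d • v + y * v) * (d • v + y * v)) =
        (star d * d) * T.f (v * v) + T.f (X * v * v) := by
      rw [e1, map_add, map_smul, smul_eq_mul, T.tr v (X * v)]
    rw [e2]
    have e3 : (star d * d) * (t : ℂ) + T.f X - ((star d * d) * T.f (v * v) + T.f (X * v * v)) =
        -((star d * d) * (T.f (v * v) - (t : ℂ))) - T.f (X * v * v - X) := by
      rw [map_sub]; ring
    rw [e3]
    have h3 : ‖X * v * v - X‖ ≤ 2 * δ := by
      have e : X * v * v - X = (X * v - X) * v + (X * v - X) := by noncomm_ring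
      rw [e]
      calc ‖(X * v - X) * v + (X * v - X)‖ ≤ ‖(X * v - X) * v‖ + ‖X * v - X‖ := norm_add_le _ _
        _ ≤ ‖X * v - X‖ * ‖v‖ + ‖X * v - X‖ := by gcongr; exact norm_mul_le _ _
        _ ≤ δ * 1 + δ := by gcongr
        _ = 2 * δ := by ring
    calc ‖-((star d * d) * (T.f (v * v) - (t : ℂ))) - T.f (X * v * v - X)‖ ≤
          ‖-((star d * d) * (T.f (v * v) - (t : ℂ)))‖ + ‖T.f (X * v * v - X)‖ := norm_sub_le _ _
      _ ≤ ‖d‖ ^ 2 * δ + t * (2 * δ) := by
          gcongr
          · rw [norm_neg, norm_mul, norm_mul, norm_star, ← sq]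
            gcongr
          · exact (hT _).trans (by gcongr)
      _ = _ := by ring
  set P : ℂ := (star d * d) * (t : ℂ) + T.f X with hP
  set C : ℝ := ‖d‖ ^ 2 + 2 * t with hC
  have hC0 : 0 ≤ C := by positivity
  have key2 : ∀ g : ℝ, 0 < g → -g ≤ P.re ∧ |P.im| ≤ g := by
    intro g hg
    obtain ⟨p, hp1, hp2, hp3⟩ := key (g / (C + 1)) (by positivity)
    have h1 : C * (g / (C + 1)) ≤ g := by
      rw [mul_div_assoc', div_le_iff₀ (by positivity)]
      nlinarith
    have h2 := (Complex.abs_re_le_norm (P - p)).trans (hp3.trans h1)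
    have h3 := (Complex.abs_im_le_norm (P - p)).trans (hp3.trans h1)
    rw [Complex.sub_re, abs_le] at h2
    rw [Complex.sub_im, hp2, sub_zero] at h3
    exact ⟨by linarith [h2.1], h3⟩
  constructor
  · by_contra hcon
    push Not at hcon
    have := (key2 (-P.re / 2) (by linarith)).1
    linarith
  · by_contra hcon
    have h1 : 0 < |P.im| := abs_pos.mpr hcon
    have := (key2 (|P.im| / 2) (by linarith)).2
    linarith

end main

end UEXTaux

open UEXTaux in
theorem t_UEXT (hAUN : StAUN.{u}) : StUEXT.{u} := by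
  intro D E _ _ _ _ _ _ j hj T hTne
  set t : ℝ := ‖T.f‖ with ht
  obtain ⟨x1, hx1⟩ := hTne
  have ht0 : 0 < t := by
    rw [ht, norm_pos_iff]
    rintro h
    apply hx1
    rw [h]
    rfl
  have htc : (t : ℂ) ≠ 0 := by exact_mod_cast ht0.ne'
  have hbound : ∀ (c : ℂ) (x : D), ‖c * (t : ℂ) + T.f x‖ ≤ t * ‖c • (1 : E) + j x‖ :=
    fun c x => bound j hAUN hj T c x
  choose c x hz using hj.ex
  have hwd : ∀ (z : E) (c' : ℂ) (x' : D), z = c' • 1 + j x' →
      c z * (t : ℂ) + T.f (x z) = c' * (t : ℂ) + T.f x' := by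
    intro z c' x' h
    have h1 := hbound (c z - c') (x z - x')
    have h2 : (c z - c') • (1 : E) + j (x z - x') = 0 := by
      have h5 : c z • (1 : E) + j (x z) = c' • 1 + j x' := (hz z).symm.trans h
      rw [sub_smul, map_sub, sub_add_sub_comm, h5, sub_self]
    rw [h2, norm_zero, mul_zero] at h1
    have h3 := norm_le_zero_iff.mp h1
    rw [map_sub, sub_mul] at h3
    have h4 : c z * (t : ℂ) + T.f (x z) - (c' * (t : ℂ) + T.f x') = 0 := by
      rw [← h3]; ring
    exact sub_eq_zero.mp h4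
  let L : E →ₗ[ℂ] ℂ :=
    { toFun := fun z => (c z * (t : ℂ) + T.f (x z)) / (t : ℂ)
      map_add' := by
        intro z w
        have h : z + w = (c z + c w) • 1 + j (x z + x w) := by
          rw [add_smul, map_add]
          conv_lhs => rw [hz z, hz w]
          abel
        change (c (z + w) * (t : ℂ) + T.f (x (z + w))) / (t : ℂ) = _
        rw [hwd _ _ _ h, map_add]
        ring
      map_smul' := by
        intro a z
        have h : a • z = (a * c z) • 1 + j (a • x z) := by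
          rw [map_smul, mul_smul]
          conv_lhs => rw [hz z]
          rw [smul_add]
        change (c (a • z) * (t : ℂ) + T.f (x (a • z))) / (t : ℂ) = _
        rw [hwd _ _ _ h, map_smul, smul_eq_mul, RingHom.id_apply, smul_eq_mul]
        ring }
  have hL : ∀ (z : E) (c' : ℂ) (x' : D), z = c' • 1 + j x' →
      L z = (c' * (t : ℂ) + T.f x') / (t : ℂ) := by
    intro z c' x' h
    change (c z * (t : ℂ) + T.f (x z)) / (t : ℂ) = _
    rw [hwd _ _ _ h]
  have hLb : ∀ z : E, ‖L z‖ ≤ 1 * ‖z‖ := by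
    intro z
    change ‖(c z * (t : ℂ) + T.f (x z)) / (t : ℂ)‖ ≤ _
    rw [norm_div, Complex.norm_real, Real.norm_of_nonneg ht0.le, div_le_iff₀ ht0]
    have h := hbound (c z) (x z)
    rw [← hz z] at h
    linarith
  have hpos : ∀ w : E, 0 ≤ (L (star w * w)).re ∧ (L (star w * w)).im = 0 := by
    intro w
    have h : star w * w = (star (c w) * c w) • 1 +
        j (star (c w) • x w + c w • star (x w) + star (x w) * x w) := by
      conv_lhs => rw [hz w]
      rw [star_add, star_smul, star_one, map_add, map_add, map_smul, map_smul, map_mul, map_star]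
      simp only [add_mul, mul_add, smul_mul_assoc, mul_smul_comm, smul_add, smul_smul, one_mul,
        mul_one]
      rw [mul_comm (c w) (star (c w))]
      abel
    have h1 := posi hAUN T (c w) (x w)
    rw [hL _ _ _ h]
    rw [← ht] at h1
    obtain ⟨h2, h3⟩ := h1
    constructor
    · rw [Complex.div_ofReal_re]
      exact div_nonneg h2 ht0.le
    · rw [Complex.div_ofReal_im, h3, zero_div]
  have htr : ∀ z w : E, L (z * w) = L (w * z) := by
    intro z w
    have h1 : z * w = (c z * c w) • 1 + j (c z • x w + c w • x z + x z * x w) := by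
      conv_lhs => rw [hz z, hz w]
      rw [map_add, map_add, map_smul, map_smul, map_mul]
      simp only [add_mul, mul_add, smul_mul_assoc, mul_smul_comm, smul_add, smul_smul, one_mul,
        mul_one]
      rw [mul_comm (c w) (c z)]
      abel
    have h2 : w * z = (c z * c w) • 1 + j (c z • x w + c w • x z + x w * x z) := by
      conv_lhs => rw [hz z, hz w]
      rw [map_add, map_add, map_smul, map_smul, map_mul]
      simp only [add_mul, mul_add, smul_mul_assoc, mul_smul_comm, smul_add, smul_smul, one_mul,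
        mul_one]
      abel
    rw [hL _ _ _ h1, hL _ _ _ h2]
    simp only [map_add]
    rw [T.tr (x z) (x w)]
  have h1 : L 1 = 1 := by
    rw [hL 1 1 0 (by simp), map_zero]
    field_simp
    simp
  have hLj : ∀ y : D, L (j y) = T.f y / (t : ℂ) := by
    intro y
    rw [hL (j y) 0 y (by simp)]
    simp
  refine ⟨⟨⟨L.mkContinuous 1 hLb, hpos, htr⟩, h1⟩, t, ht0, ?_, ?_, ?_⟩
  · intro ε hε
    obtain ⟨v, hv0, hv1, -, hv3, -⟩ := au hAUN T ∅ (ε * t) (by positivity)
    rw [← ht] at hv3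
    have hjv : 0 ≤ j v := by
      obtain ⟨b, hb⟩ := CStarAlgebra.nonneg_iff_eq_star_mul_self.mp hv0
      rw [hb, map_mul, map_star]
      exact star_mul_self_nonneg _
    refine ⟨j v, ⟨v, rfl⟩, hjv, ?_, ?_⟩
    · rw [← CStarAlgebra.norm_le_one_iff_of_nonneg (j v) hjv, hj.norm]
      exact hv1
    · change 1 - ε ≤ (L (j v)).re
      rw [hLj, Complex.div_ofReal_re, le_div_iff₀ ht0]
      have h2 := (Complex.abs_re_le_norm _).trans hv3
      rw [Complex.sub_re, Complex.ofReal_re, abs_le] at h2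
      linarith [h2.1]
  · intro y
    change T.f y = (t : ℂ) * L (j y)
    rw [hLj]
    field_simp
  · intro C hC
    have hC0 : 0 ≤ C := by
      by_contra hneg
      push Not at hneg
      have h2 := hC x1
      have h3 : C * ‖x1‖ ≤ 0 := mul_nonpos_of_nonpos_of_nonneg hneg.le (norm_nonneg _)
      exact hx1 (norm_le_zero_iff.mp (h2.trans h3))
    exact ContinuousLinearMap.opNorm_le_bound _ hC0 hC

end Pool.Agent.H30R2.PZ
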