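import Pool.Agent.H667R5.NX.PZ.Stubs

/-! The minimal unitisation (task UN). -/

set_option autoImplicit false

namespace Pool.Agent.H30R2.PZ

open Filter Topology Pool.Agent.H327R4.Pure Pool.Agent.H667R5.TW Pool.Agent.H270R2.NU
open scoped ENNReal CStarAlgebra ComplexOrder MultiplierAlgebra

universe u

namespace UNAux

open DoubleCentralizer

variable {D : Type u} [NonUnitalCStarAlgebra D]

lemma norm_coe (x : D) : ‖(coeHom (𝕜 := ℂ) (A := D)) x‖ = ‖x‖ := by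
  rw [← norm_fst]
  show ‖ContinuousLinearMap.mul ℂ D x‖ = ‖x‖
  exact ContinuousLinearMap.opNorm_mul_apply ℂ D x

lemma fst_mul (z : 𝓜(ℂ, D)) (x y : D) : z.fst (x * y) = z.fst x * y := by
  have h : ∀ a : D, a * (z.fst (x * y) - z.fst x * y) = 0 := by
    intro a
    rw [mul_sub, ← z.central a (x * y), ← mul_assoc a (z.fst x) y, ← z.central a x, mul_assoc,
      sub_self]
  have h1 := h (star (z.fst (x * y) - z.fst x * y))
  exact sub_eq_zero.1 (CStarRing.star_mul_self_eq_zero_iff _ |>.1 h1)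

lemma ess_coe (z : 𝓜(ℂ, D)) (hz : z ≠ 0) : ∃ x : D, z * (coeHom (𝕜 := ℂ) (A := D)) x ≠ 0 := by
  by_contra hcon
  push Not at hcon
  apply hz
  have h0 : ∀ x : D, z.fst x = 0 := by
    intro x
    have h1 : ∀ y : D, z.fst x * y = 0 := by
      intro y
      have h2 := congrArg (fun w : 𝓜(ℂ, D) => w.fst y) (hcon x)
      simp only [mul_fst] at h2
      have h3 : z.fst (x * y) = 0 := h2
      rw [← fst_mul]
      exact h3
    exact CStarRing.mul_star_self_eq_zero_iff _ |>.1 (h1 (star (z.fst x)))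
  have h4 : z.fst = 0 := ContinuousLinearMap.ext h0
  rw [← norm_eq_zero, ← norm_fst, h4, norm_zero]

/-- the algebra generated by `1` and `D` -/
noncomputable def SA (D : Type u) [NonUnitalCStarAlgebra D] : StarSubalgebra ℂ 𝓜(ℂ, D) where
  carrier := {z | ∃ (c : ℂ) (x : D), z = c • 1 + (coeHom (𝕜 := ℂ) (A := D)) x}
  mul_mem' := by
    rintro _ _ ⟨c, x, rfl⟩ ⟨c', x', rfl⟩
    refine ⟨c * c', c • x' + c' • x + x * x', ?_⟩
    rw [map_add, map_add, map_smul, map_smul, map_mul, add_mul, mul_add, mul_add, smul_mul_smul_comm,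
      mul_one, smul_mul_assoc, one_mul, mul_smul_comm, mul_one]
    abel
  add_mem' := by
    rintro _ _ ⟨c, x, rfl⟩ ⟨c', x', rfl⟩
    refine ⟨c + c', x + x', ?_⟩
    rw [map_add, add_smul]
    abel
  algebraMap_mem' := by
    intro c
    exact ⟨c, 0, by rw [map_zero, add_zero, Algebra.algebraMap_eq_smul_one]⟩
  star_mem' := by
    rintro _ ⟨c, x, rfl⟩
    refine ⟨star c, star x, ?_⟩
    rw [star_add, star_smul, star_one, map_star]

lemma mem_SA {z : 𝓜(ℂ, D)} :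
    z ∈ SA D ↔ ∃ (c : ℂ) (x : D), z = c • 1 + (coeHom (𝕜 := ℂ) (A := D)) x := Iff.rfl

lemma isClosed_SA : IsClosed (SA D : Set 𝓜(ℂ, D)) := by
  obtain ⟨F, hF⟩ : ∃ F : Submodule ℂ 𝓜(ℂ, D), F = LinearMap.range
      ((coeHom (𝕜 := ℂ) (A := D) : D →⋆ₙₐ[ℂ] 𝓜(ℂ, D)) : D →ₗ[ℂ] 𝓜(ℂ, D)) := ⟨_, rfl⟩
  have hFc : IsClosed (F : Set 𝓜(ℂ, D)) := by
    have hiso : Isometry (coeHom (𝕜 := ℂ) (A := D)) :=
      AddMonoidHomClass.isometry_of_norm _ norm_coe
    have : (F : Set 𝓜(ℂ, D)) = Set.range (coeHom (𝕜 := ℂ) (A := D)) := by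
      rw [hF]
      rfl
    rw [this]
    exact hiso.isClosedEmbedding.isClosed_range
  have hL : FiniteDimensional ℂ (Submodule.span ℂ {(1 : 𝓜(ℂ, D))}) := inferInstance
  haveI := hFc
  let π := F.mkQ
  have h1 : IsClosed (((Submodule.span ℂ {(1 : 𝓜(ℂ, D))}).map π : Submodule ℂ (𝓜(ℂ, D) ⧸ F)) :
      Set (𝓜(ℂ, D) ⧸ F)) := Submodule.closed_of_finiteDimensional _
  have h2 : (SA D : Set 𝓜(ℂ, D)) =
      π ⁻¹' (((Submodule.span ℂ {(1 : 𝓜(ℂ, D))}).map π : Submodule ℂ (𝓜(ℂ, D) ⧸ F)) :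
        Set (𝓜(ℂ, D) ⧸ F)) := by
    ext z
    constructor
    · rintro ⟨c, x, rfl⟩
      refine ⟨c • 1, Submodule.smul_mem _ _ (Submodule.mem_span_singleton_self _), ?_⟩
      refine (Submodule.Quotient.eq F).2 ?_
      rw [sub_add_cancel_left, hF]
      exact Submodule.neg_mem _ ⟨x, rfl⟩
    · rintro ⟨y, hy, hyz⟩
      obtain ⟨c, rfl⟩ := Submodule.mem_span_singleton.1 hy
      have h3 := (Submodule.Quotient.eq F).1 hyz.symm
      rw [hF] at h3
      obtain ⟨x, hx⟩ := h3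
      refine ⟨c, x, ?_⟩
      have hx' : (coeHom (𝕜 := ℂ) (A := D)) x = z - c • 1 := hx
      rw [hx']
      abel
  rw [h2]
  exact h1.preimage continuous_quotient_mk'

end UNAux

open UNAux DoubleCentralizer in
theorem t_UN : StUN.{u} := by
  intro D _ _ _ _
  haveI hcl : IsClosed (SA D : Set 𝓜(ℂ, D)) := isClosed_SA
  letI iE : CStarAlgebra (SA D) := StarSubalgebra.cstarAlgebra (SA D)
  letI iP : PartialOrder (SA D) := CStarAlgebra.spectralOrder (SA D)
  haveI iS : StarOrderedRing (SA D) := CStarAlgebra.spectralOrderedRing (SA D)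
  refine ⟨SA D, iE, iP, iS,
    { toFun := fun x => ⟨(coeHom (𝕜 := ℂ) (A := D)) x, 0, x, by rw [zero_smul, zero_add]⟩
      map_smul' := fun c x => Subtype.ext (map_smul (coeHom (𝕜 := ℂ) (A := D)) c x)
      map_zero' := Subtype.ext (map_zero (coeHom (𝕜 := ℂ) (A := D)))
      map_add' := fun x y => Subtype.ext (map_add (coeHom (𝕜 := ℂ) (A := D)) x y)
      map_mul' := fun x y => Subtype.ext (map_mul (coeHom (𝕜 := ℂ) (A := D)) x y)
      map_star' := fun x => Subtype.ext (map_star (coeHom (𝕜 := ℂ) (A := D)) x) }, ?_, ?_, ?_⟩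
  · intro x
    exact norm_coe x
  · rintro ⟨z, c, x, hz⟩
    exact ⟨c, x, Subtype.ext hz⟩
  · intro z hz
    have hz' : (z : 𝓜(ℂ, D)) ≠ 0 := fun h => hz (Subtype.ext h)
    obtain ⟨x, hx⟩ := ess_coe (z : 𝓜(ℂ, D)) hz'
    exact ⟨x, fun h => hx (congrArg Subtype.val h)⟩

end Pool.Agent.H30R2.PZ
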