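import Pool.Agent.H667R5.NX.PZ.Stubs

/-!
# UNUC (helper116): nuclearity of the unitisation
-/

set_option autoImplicit false

namespace Pool.Agent.H30R2.PZ

open Filter Topology Pool.Agent.H327R4.Pure Pool.Agent.H667R5.TW Pool.Agent.H270R2.NU
open scoped ENNReal CStarAlgebra ComplexOrder

universe u v w

namespace UNUCx

section gen

variable {A : Type u} {B : Type v} {C : Type w} [NonUnitalCStarAlgebra A] [PartialOrder A]
  [StarOrderedRing A] [NonUnitalCStarAlgebra B] [PartialOrder B] [StarOrderedRing B]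
  [NonUnitalCStarAlgebra C] [PartialOrder C] [StarOrderedRing C]

theorem refl (φ : A →⋆ₙₐ[ℂ] B) (hφ : Function.Injective φ) (p : A) (h : 0 ≤ φ p) : 0 ≤ p := by
  have hcont : Continuous φ := map_continuous φ
  have hsφ : IsSelfAdjoint (φ p) := IsSelfAdjoint.of_nonneg h
  have hsa : IsSelfAdjoint p := by
    apply hφ
    rw [map_star]
    exact hsφ
  have hmap : ∀ f : ℝ → ℝ, Continuous f → f 0 = 0 → φ (cfcₙ f p) = cfcₙ f (φ p) := by
    intro f hf hf0
    exact NonUnitalStarAlgHomClass.map_cfcₙ (S := ℂ) φ f p hf.continuousOn hf0 hcont hsa hsφ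
  have hneg : cfcₙ (fun x : ℝ => max (-x) 0) p = 0 := by
    apply hφ
    rw [hmap _ (by fun_prop) (by simp), map_zero]
    have hz : cfcₙ (fun x : ℝ => max (-x) 0) (φ p) = cfcₙ (fun _ : ℝ => (0 : ℝ)) (φ p) := by
      apply cfcₙ_congr
      intro x hx
      have hx0 : 0 ≤ x := quasispectrum_nonneg_of_nonneg (φ p) h x hx
      simp only
      exact max_eq_right (by linarith)
    rw [hz]
    exact cfcₙ_const_zero ℝ (φ p)
  have hp : p = cfcₙ (fun x : ℝ => max x 0) p - cfcₙ (fun x : ℝ => max (-x) 0) p := by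
    rw [← cfcₙ_sub (fun x : ℝ => max x 0) (fun x : ℝ => max (-x) 0) p
      (by fun_prop) (by simp) (by fun_prop) (by simp)]
    conv_lhs => rw [← cfcₙ_id' ℝ p hsa]
    apply cfcₙ_congr
    intro x _
    simp only
    rcases le_total 0 x with h1 | h1
    · rw [max_eq_left h1, max_eq_right (by linarith)]
      ring
    · rw [max_eq_right h1, max_eq_left (by linarith)]
      ring
  rw [hp, hneg, sub_zero]
  exact cfcₙ_nonneg fun x _ => le_max_right _ _

theorem conj_nonneg {k : ℕ} (p : B) (N : CStarMatrix (Fin k) (Fin k) B) (hN : 0 ≤ N) :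
    0 ≤ N.map (fun t => star p * t * p) := by
  let W : CStarMatrix (Fin k) (Fin k) B := CStarMatrix.ofMatrix (Matrix.diagonal fun _ => p)
  have hW : star W = CStarMatrix.ofMatrix (Matrix.diagonal fun _ => star p) := by
    ext i j
    rw [CStarMatrix.star_apply]
    change star (Matrix.diagonal (fun _ => p) j i) = Matrix.diagonal (fun _ => star p) i j
    by_cases h : i = j
    · subst h
      simp
    · rw [Matrix.diagonal_apply_ne _ h, Matrix.diagonal_apply_ne _ (Ne.symm h), star_zero]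
  have h1 : N.map (fun t => star p * t * p) = star W * N * W := by
    rw [hW]
    ext i j
    let N' : Matrix (Fin k) (Fin k) B := fun i j => N i j
    let W' : Matrix (Fin k) (Fin k) B := Matrix.diagonal (fun _ => p)
    let W'' : Matrix (Fin k) (Fin k) B := Matrix.diagonal (fun _ => star p)
    have e : (W'' * N' * W') i j = star p * N' i j * p := by
      rw [Matrix.mul_diagonal, Matrix.diagonal_mul]
    exact e.symm
  rw [h1]
  exact star_left_conjugate_nonneg hN W

theorem corner (f : A →⋆ₙₐ[ℂ] B) (hf : Function.Injective f) (p : B)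
    (hc : ∀ y : B, ∃ x : A, f x = star p * y * p) :
    ∃ c : B →CP A, ∀ y, f (c y) = star p * y * p := by
  choose c hc using hc
  refine ⟨{ toFun := c
            map_add' := ?_
            map_smul' := ?_
            map_cstarMatrix_nonneg' := ?_ }, hc⟩
  · intro x y
    apply hf
    rw [hc, map_add, hc, hc, mul_add, add_mul]
  · intro a x
    apply hf
    rw [hc, RingHom.id_apply, map_smul, hc, mul_smul_comm, smul_mul_assoc]
  · intro k M hM
    have hinj : Function.Injective (CStarMatrix.mapₙₐ (n := Fin k) f) :=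
      fun p q h => CStarMatrix.map_injective hf h
    apply refl (CStarMatrix.mapₙₐ (n := Fin k) f) hinj
    have h2 : (CStarMatrix.mapₙₐ (n := Fin k) f) (M.map c) =
        M.map (fun t => star p * t * p) := by
      ext i j
      exact hc (M i j)
    have h3 := conj_nonneg p M hM
    rw [← h2] at h3
    exact h3

theorem cpcomp (g : B →CP C) (f : A →CP B) : ∃ h : A →CP C, ∀ x, h x = g (f x) := by
  refine ⟨{ toFun := fun x => g (f x)
            map_add' := fun x y => by rw [map_add, map_add]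
            map_smul' := fun c x => by rw [map_smul, map_smul, RingHom.id_apply]
            map_cstarMatrix_nonneg' := ?_ }, fun x => rfl⟩
  intro k M hM
  have h1 : 0 ≤ M.map f := CompletelyPositiveMapClass.map_cstarMatrix_nonneg' f k M hM
  exact CompletelyPositiveMapClass.map_cstarMatrix_nonneg' g k (M.map f) h1

theorem cpadd (f g : A →CP B) : ∃ h : A →CP B, ∀ x, h x = f x + g x := by
  refine ⟨{ toFun := fun x => f x + g x
            map_add' := fun x y => by rw [map_add, map_add]; abel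
            map_smul' := fun c x => by rw [map_smul, map_smul, RingHom.id_apply, smul_add]
            map_cstarMatrix_nonneg' := ?_ }, fun x => rfl⟩
  intro k M hM
  have h1 : 0 ≤ M.map f := CompletelyPositiveMapClass.map_cstarMatrix_nonneg' f k M hM
  have h2 : 0 ≤ M.map g := CompletelyPositiveMapClass.map_cstarMatrix_nonneg' g k M hM
  exact add_nonneg h1 h2

theorem cphom (f : A →⋆ₙₐ[ℂ] B) : ∃ h : A →CP B, ∀ x, h x = f x := by
  refine ⟨{ toFun := fun x => f x
            map_add' := fun x y => by rw [map_add]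
            map_smul' := fun c x => by rw [map_smul, RingHom.id_apply]
            map_cstarMatrix_nonneg' := ?_ }, fun x => rfl⟩
  intro k M hM
  exact CompletelyPositiveMapClass.map_cstarMatrix_nonneg' f k M hM

omit [PartialOrder A] [StarOrderedRing A] [PartialOrder B] [StarOrderedRing B] in
theorem cornern (f : A →⋆ₙₐ[ℂ] B) (hf : Function.Injective f) (p : B) (hp : ‖p‖ ≤ 1) (x : A)
    (y : B) (h : f x = star p * y * p) : ‖x‖ ≤ ‖y‖ := by
  rw [← NonUnitalStarAlgHom.norm_map f hf x, h]
  calc ‖star p * y * p‖ ≤ ‖star p * y‖ * ‖p‖ := norm_mul_le _ _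
    _ ≤ (‖star p‖ * ‖y‖) * ‖p‖ := mul_le_mul_of_nonneg_right (norm_mul_le _ _) (norm_nonneg _)
    _ ≤ (1 * ‖y‖) * 1 := by
      rw [norm_star]
      refine mul_le_mul (mul_le_mul_of_nonneg_right hp (norm_nonneg _)) hp (norm_nonneg _) ?_
      positivity
    _ = ‖y‖ := by ring

omit [PartialOrder B] [StarOrderedRing B] in
theorem projn (p : B) (hp : star p * p = p) : ‖p‖ ≤ 1 := by
  have h1 : ‖p‖ * ‖p‖ = ‖p‖ := by
    rw [← CStarRing.norm_star_mul_self, hp]
  by_contra hcon
  push Not at hcon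
  nlinarith

end gen

/-- block diagonal matrices -/
noncomputable def blk (k : ℕ) : (CStarMatrix (Fin k) (Fin k) ℂ) × ℂ →⋆ₙₐ[ℂ]
    CStarMatrix (Fin k ⊕ Fin 1) (Fin k ⊕ Fin 1) ℂ where
  toFun p := CStarMatrix.ofMatrix (fun i j => match i, j with
    | Sum.inl i, Sum.inl j => p.1 i j
    | Sum.inr _, Sum.inr _ => p.2
    | _, _ => 0)
  map_smul' c p := by
    ext i j
    rcases i with i | i <;> rcases j with j | j <;> simp
  map_zero' := by
    ext i j
    rcases i with i | i <;> rcases j with j | j <;> simp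
  map_add' p q := by
    ext i j
    rcases i with i | i <;> rcases j with j | j <;> simp
  map_mul' p q := by
    ext i j
    rcases i with i | i <;> rcases j with j | j <;>
      simp [CStarMatrix.mul_apply, Fintype.sum_sum_type]
  map_star' p := by
    ext i j
    rcases i with i | i <;> rcases j with j | j <;> simp [CStarMatrix.star_apply]

/-- diagonal 2 x 2 matrices -/
noncomputable def dg (E : Type u) [CStarAlgebra E] : E × E →⋆ₙₐ[ℂ]
    CStarMatrix (Fin 2) (Fin 2) E where
  toFun p := CStarMatrix.ofMatrix !![p.1, 0; 0, p.2]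
  map_smul' c p := by
    ext i j
    fin_cases i <;> fin_cases j <;> simp
  map_zero' := by
    ext i j
    fin_cases i <;> fin_cases j <;> simp
  map_add' p q := by
    ext i j
    fin_cases i <;> fin_cases j <;> simp
  map_mul' p q := by
    ext i j
    fin_cases i <;> fin_cases j <;> simp [CStarMatrix.mul_apply, Fin.sum_univ_two]
  map_star' p := by
    ext i j
    fin_cases i <;> fin_cases j <;> simp [CStarMatrix.star_apply]

theorem rown {E : Type u} [CStarAlgebra E] [PartialOrder E] [StarOrderedRing E] (a h x y : E)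
    (M : ℝ) (hx : ‖x‖ ≤ M) (hy : ‖y‖ ≤ M) (hs : star a * a + star h * h = 1) :
    ‖star a * x * a + star h * y * h‖ ≤ M := by
  set W : CStarMatrix (Fin 2) (Fin 2) E := CStarMatrix.ofMatrix !![a, 0; h, 0] with hW
  have h1 : star W * W = dg E (1, 0) := by
    ext i j
    fin_cases i <;> fin_cases j <;>
      simp [dg, hW, CStarMatrix.mul_apply, Fin.sum_univ_two, CStarMatrix.star_apply, hs]
  have h2 : ‖W‖ ≤ 1 := by
    have h3 : ‖dg E (1, 0)‖ ≤ 1 := by
      apply projn
      have e : star ((1 : E), (0 : E)) * ((1 : E), (0 : E)) = ((1 : E), (0 : E)) := by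
        ext <;> simp
      rw [← map_star, ← map_mul, e]
    rw [← h1, CStarRing.norm_star_mul_self] at h3
    nlinarith [norm_nonneg W]
  have h4 : (star W * dg E (x, y) * W) 0 0 = star a * x * a + star h * y * h := by
    simp [dg, hW, CStarMatrix.mul_apply, Fin.sum_univ_two, CStarMatrix.star_apply]
  have h5 : ‖dg E (x, y)‖ ≤ M :=
    (NonUnitalStarAlgHom.norm_apply_le (dg E) (x, y)).trans (max_le hx hy)
  have hM : 0 ≤ M := (norm_nonneg _).trans hx
  rw [← h4]
  calc ‖(star W * dg E (x, y) * W) 0 0‖ ≤ ‖star W * dg E (x, y) * W‖ :=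
        CStarMatrix.norm_entry_le_norm
    _ ≤ ‖star W * dg E (x, y)‖ * ‖W‖ := norm_mul_le _ _
    _ ≤ (‖star W‖ * ‖dg E (x, y)‖) * ‖W‖ :=
      mul_le_mul_of_nonneg_right (norm_mul_le _ _) (norm_nonneg _)
    _ ≤ (1 * M) * 1 := by
      rw [norm_star]
      refine mul_le_mul (mul_le_mul h2 h5 (norm_nonneg _) zero_le_one) h2 (norm_nonneg _) ?_
      positivity
    _ = M := by ring

theorem blk_inj (k : ℕ) : Function.Injective (blk k) := by
  intro p q h
  have h1 : ∀ i j, (blk k p) i j = (blk k q) i j := fun i j => by rw [h]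
  refine Prod.ext ?_ ?_
  · ext i j
    exact h1 (Sum.inl i) (Sum.inl j)
  · exact h1 (Sum.inr 0) (Sum.inr 0)

/-- the first block -/
noncomputable def b1 (k : ℕ) : (CStarMatrix (Fin k) (Fin k) ℂ) →⋆ₙₐ[ℂ]
    CStarMatrix (Fin k ⊕ Fin 1) (Fin k ⊕ Fin 1) ℂ :=
  (blk k).comp (NonUnitalStarAlgHom.inl ℂ _ _)

/-- the second block -/
noncomputable def b2 (k : ℕ) : ℂ →⋆ₙₐ[ℂ]
    CStarMatrix (Fin k ⊕ Fin 1) (Fin k ⊕ Fin 1) ℂ :=
  (blk k).comp (NonUnitalStarAlgHom.inr ℂ _ _)

theorem b1_apply (k : ℕ) (x : CStarMatrix (Fin k) (Fin k) ℂ) : b1 k x = blk k (x, 0) := rfl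

theorem b2_apply (k : ℕ) (x : ℂ) : b2 k x = blk k (0, x) := rfl

theorem b1_inj (k : ℕ) : Function.Injective (b1 k) := by
  intro p q h
  rw [b1_apply, b1_apply] at h
  exact congrArg Prod.fst (blk_inj k h)

theorem b2_inj (k : ℕ) : Function.Injective (b2 k) := by
  intro p q h
  rw [b2_apply, b2_apply] at h
  exact congrArg Prod.snd (blk_inj k h)

theorem blk_eq (k : ℕ) (x : CStarMatrix (Fin k) (Fin k) ℂ) (y : ℂ) :
    blk k (x, y) = b1 k x + b2 k y := by
  rw [b1_apply, b2_apply, ← map_add]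
  simp

theorem comp1 (k : ℕ) : ∃ c : CStarMatrix (Fin k ⊕ Fin 1) (Fin k ⊕ Fin 1) ℂ →CP
    CStarMatrix (Fin k) (Fin k) ℂ, (∀ y, ‖c y‖ ≤ ‖y‖) ∧ ∀ x z, c (blk k (x, z)) = x := by
  have hs : star (b1 k 1) = b1 k 1 := by
    rw [← map_star, star_one]
  have hp : star (b1 k 1) * b1 k 1 = b1 k 1 := by
    rw [hs, ← map_mul, one_mul]
  obtain ⟨c, hc⟩ := corner (b1 k) (b1_inj k) (b1 k 1) (by
    intro y
    refine ⟨CStarMatrix.ofMatrix (fun i j => y (Sum.inl i) (Sum.inl j)), ?_⟩
    rw [hs]
    ext i j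
    rcases i with i | i <;> rcases j with j | j <;>
      simp [b1_apply, blk, CStarMatrix.mul_apply, Fintype.sum_sum_type, CStarMatrix.one_apply])
  refine ⟨c, fun y => cornern (b1 k) (b1_inj k) (b1 k 1) (projn _ hp) _ _ (hc y), ?_⟩
  intro x z
  apply b1_inj k
  rw [hc, hs, blk_eq]
  have h0 : b1 k 1 * b2 k z = 0 := by
    rw [b1_apply, b2_apply, ← map_mul]
    simp only [Prod.mk_mul_mk, mul_zero, zero_mul]
    exact map_zero (blk k)
  rw [mul_add, h0, add_zero, ← map_mul, ← map_mul, one_mul, mul_one]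

theorem comp2 (k : ℕ) : ∃ c : CStarMatrix (Fin k ⊕ Fin 1) (Fin k ⊕ Fin 1) ℂ →CP
    ℂ, (∀ y, ‖c y‖ ≤ ‖y‖) ∧ ∀ x z, c (blk k (x, z)) = z := by
  have hs : star (b2 k 1) = b2 k 1 := by
    rw [← map_star, star_one]
  have hp : star (b2 k 1) * b2 k 1 = b2 k 1 := by
    rw [hs, ← map_mul, one_mul]
  obtain ⟨c, hc⟩ := corner (b2 k) (b2_inj k) (b2 k 1) (by
    intro y
    refine ⟨y (Sum.inr 0) (Sum.inr 0), ?_⟩
    rw [hs]
    ext i j
    rcases i with i | i <;> rcases j with j | j <;>
      simp [b2_apply, blk, CStarMatrix.mul_apply, Fintype.sum_sum_type])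
  refine ⟨c, fun y => cornern (b2 k) (b2_inj k) (b2 k 1) (projn _ hp) _ _ (hc y), ?_⟩
  intro x z
  apply b2_inj k
  rw [hc, hs, blk_eq]
  have h0 : b2 k 1 * b1 k x = 0 := by
    rw [b1_apply, b2_apply, ← map_mul]
    simp only [Prod.mk_mul_mk, mul_zero, zero_mul]
    exact map_zero (blk k)
  rw [mul_add, h0, zero_add, ← map_mul, ← map_mul, one_mul, mul_one]

end UNUCx

open UNUCx in
theorem t_UNUC (hAUN : StAUN.{u}) : StUNUC.{u} := by
  classical
  intro D E _ _ _ _ _ _ j hj hD F ε hε
  have hinj : Function.Injective j := by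
    intro x y hxy
    have h1 : ‖j (x - y)‖ = ‖x - y‖ := hj.norm _
    rw [map_sub, hxy, sub_self, norm_zero] at h1
    exact sub_eq_zero.mp (norm_eq_zero.mp h1.symm)
  by_cases hu : ∃ e : D, j e = 1
  · obtain ⟨e, he⟩ := hu
    obtain ⟨c, hc⟩ := corner j hinj (1 : E) (by
      intro y
      obtain ⟨a, x, hx⟩ := hj.ex y
      refine ⟨a • e + x, ?_⟩
      rw [map_add, map_smul, he, star_one, one_mul, mul_one, hx])
    have hc' : ∀ y, j (c y) = y := fun y => by rw [hc, star_one, one_mul, mul_one]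
    obtain ⟨k, ψ, φ, hψ, hφ, hψφ⟩ := hD (F.image c) ε hε
    obtain ⟨jc, hjc⟩ := cphom j
    obtain ⟨Ψ, hΨ⟩ := cpcomp ψ c
    obtain ⟨Φ, hΦ⟩ := cpcomp jc φ
    refine ⟨k, Ψ, Φ, ?_, ?_, ?_⟩
    · intro x
      rw [hΨ]
      refine (hψ _).trans ?_
      rw [← hj.norm, hc']
    · intro y
      rw [hΦ, hjc, hj.norm]
      exact hφ y
    · intro x hx
      have h1 := hψφ (c x) (Finset.mem_image_of_mem _ hx)
      rw [hΦ, hΨ, hjc]
      have h2 : j (φ (ψ (c x))) - x = j (φ (ψ (c x)) - c x) := by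
        rw [map_sub, hc']
      rw [h2, hj.norm]
      exact h1
  · choose cz xz hz using hj.ex
    have uniq : ∀ (a b : ℂ) (x y : D), a • (1 : E) + j x = b • 1 + j y → a = b := by
      intro a b x y h
      by_contra hab
      apply hu
      have hab' : a - b ≠ 0 := sub_ne_zero.mpr hab
      refine ⟨(a - b)⁻¹ • (y - x), ?_⟩
      have h1 : (a - b) • (1 : E) = j (y - x) := by
        rw [map_sub, sub_smul]
        have h2 : a • (1 : E) = b • 1 + j y - j x := by rw [← h]; abel
        rw [h2]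
        abel
      rw [map_smul, ← h1, smul_smul, inv_mul_cancel₀ hab', one_smul]
    have hk : ∀ (z : E) (b : ℂ) (y : D), z = b • 1 + j y → cz z = b :=
      fun z b y h => uniq _ _ _ _ ((hz z).symm.trans h)
    let χ : E →⋆ₙₐ[ℂ] ℂ :=
      { toFun := cz
        map_smul' := by
          intro a z
          refine hk _ _ (a • xz z) ?_
          conv_lhs => rw [hz z]
          rw [smul_add, smul_smul, map_smul]
          rfl
        map_zero' := hk _ _ 0 (by simp)
        map_add' := by
          intro z z'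
          refine hk _ _ (xz z + xz z') ?_
          conv_lhs => rw [hz z, hz z']
          rw [add_smul, map_add]
          abel
        map_mul' := by
          intro z z'
          refine hk _ _ (cz z • xz z' + cz z' • xz z + xz z * xz z') ?_
          conv_lhs => rw [hz z, hz z']
          rw [map_add, map_add, map_smul, map_smul, map_mul, add_mul, mul_add, mul_add,
            smul_mul_smul_comm, mul_one, smul_mul_assoc, one_mul, mul_smul_comm, mul_one]
          abel
        map_star' := by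
          intro z
          refine hk _ _ (star (xz z)) ?_
          conv_lhs => rw [hz z]
          rw [star_add, star_smul, star_one, map_star] }
    have hχ : ∀ z, χ z = cz z := fun z => rfl
    set C : ℝ := ∑ z ∈ F, (‖cz z‖ + ‖xz z‖) with hC
    have hC0 : 0 ≤ C := Finset.sum_nonneg fun z _ => by positivity
    have hCz : ∀ z ∈ F, ‖cz z‖ + ‖xz z‖ ≤ C := fun z hzF =>
      Finset.single_le_sum (f := fun z => ‖cz z‖ + ‖xz z‖) (fun z _ => by positivity) hzF
    set δ : ℝ := ε / (4 * (1 + C)) with hδ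
    have hδ0 : 0 < δ := by positivity
    have hδC : 2 * δ * (1 + C) = ε / 2 := by
      rw [hδ]
      field_simp
      ring
    obtain ⟨u, hu0, hu1, huF⟩ := hAUN D (F.image xz) δ hδ0
    obtain ⟨w, hw0, hw1, hwF⟩ := hAUN D {u} δ hδ0
    obtain ⟨hwu, huw⟩ := hwF u (Finset.mem_singleton_self u)
    have hus : star u = u := (IsSelfAdjoint.of_nonneg hu0).star_eq
    have hws : star w = w := (IsSelfAdjoint.of_nonneg hw0).star_eq
    have hjus : star (j u) = j u := by rw [← map_star, hus]
    have hjws : star (j w) = j w := by rw [← map_star, hws]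
    have hju1 : ‖j u‖ ≤ 1 := by rw [hj.norm]; exact hu1
    have hjw1 : ‖j w‖ ≤ 1 := by rw [hj.norm]; exact hw1
    obtain ⟨c, hc⟩ := corner j hinj (j w) (by
      intro y
      refine ⟨cz y • (w * w) + w * xz y * w, ?_⟩
      conv_rhs => rw [hz y]
      rw [hjws, mul_add, add_mul, mul_smul_comm, mul_one, smul_mul_assoc, map_add, map_smul,
        map_mul, map_mul, map_mul])
    have hcn : ∀ y, ‖c y‖ ≤ ‖y‖ := fun y => cornern j hinj (j w) hjw1 _ _ (hc y)
    obtain ⟨k, ψ, φ, hψ, hφ, hψφ⟩ := hD (F.image c) (ε / 2) (by positivity)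
    obtain ⟨c1, hc1n, hc1⟩ := comp1 k
    obtain ⟨c2, hc2n, hc2⟩ := comp2 k
    -- the map to the matrices
    let R := CStarMatrix.reindexₐ ℂ ℂ (finSumFinEquiv (m := k) (n := 1))
    let R1 : CStarMatrix (Fin k ⊕ Fin 1) (Fin k ⊕ Fin 1) ℂ →⋆ₙₐ[ℂ]
      CStarMatrix (Fin (k + 1)) (Fin (k + 1)) ℂ := (R : _ →⋆ₙₐ[ℂ] _)
    let R2 : CStarMatrix (Fin (k + 1)) (Fin (k + 1)) ℂ →⋆ₙₐ[ℂ]
      CStarMatrix (Fin k ⊕ Fin 1) (Fin k ⊕ Fin 1) ℂ := (R.symm : _ →⋆ₙₐ[ℂ] _)
    have hR : ∀ x, R2 (R1 x) = x := fun x => R.symm_apply_apply x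
    obtain ⟨r1, hr1⟩ := cphom R1
    obtain ⟨r2, hr2⟩ := cphom R2
    obtain ⟨χ', hχ'⟩ := cphom χ
    obtain ⟨β1, hβ1⟩ := cphom (b1 k)
    obtain ⟨β2, hβ2⟩ := cphom (b2 k)
    obtain ⟨s1, hs1⟩ := cpcomp ψ c
    obtain ⟨s2, hs2⟩ := cpcomp β1 s1
    obtain ⟨s3, hs3⟩ := cpcomp β2 χ'
    obtain ⟨s4, hs4⟩ := cpadd s2 s3
    obtain ⟨Ψ, hΨ⟩ := cpcomp r1 s4
    have hs4' : ∀ z, s4 z = blk k (ψ (c z), χ z) := by
      intro z
      rw [hs4, hs2, hs3, hs1, hβ1, hβ2, hχ', ← blk_eq]
    -- the map back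
    have hle : 0 ≤ 1 - j u * j u := by
      rw [sub_nonneg]
      have h1 : star (j u) * j u ≤ algebraMap ℝ E (‖j u‖ ^ 2) :=
        CStarAlgebra.star_mul_le_algebraMap_norm_sq
      rw [hjus] at h1
      refine h1.trans ?_
      have h2 : ‖j u‖ ^ 2 ≤ 1 := pow_le_one₀ (norm_nonneg _) hju1
      calc algebraMap ℝ E (‖j u‖ ^ 2) ≤ algebraMap ℝ E 1 := algebraMap_mono E h2
        _ = 1 := map_one _
    obtain ⟨h, hh⟩ := CStarAlgebra.nonneg_iff_eq_star_mul_self.mp hle
    have hsum : star (j u) * j u + star h * h = 1 := by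
      rw [← hh, hjus]
      abel
    let al : ℂ →⋆ₙₐ[ℂ] E :=
      { toFun := fun a => a • 1
        map_smul' := fun a b => by
          show (a • b) • (1 : E) = a • (b • (1 : E))
          rw [smul_assoc]
        map_zero' := zero_smul _ _
        map_add' := fun a b => add_smul _ _ _
        map_mul' := fun a b => by rw [smul_mul_smul_comm, mul_one]
        map_star' := fun a => by rw [star_smul, star_one] }
    have hal : ∀ a, al a = a • (1 : E) := fun a => rfl
    obtain ⟨al', hal'⟩ := cphom al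
    obtain ⟨cu, hcu⟩ := corner (NonUnitalStarAlgHom.id ℂ E) (fun x y hxy => hxy) (j u)
      (fun y => ⟨_, rfl⟩)
    obtain ⟨ch, hch⟩ := corner (NonUnitalStarAlgHom.id ℂ E) (fun x y hxy => hxy) h
      (fun y => ⟨_, rfl⟩)
    have hcu' : ∀ y, cu y = star (j u) * y * j u := hcu
    have hch' : ∀ y, ch y = star h * y * h := hch
    obtain ⟨jc, hjc⟩ := cphom j
    obtain ⟨t1, ht1⟩ := cpcomp φ c1
    obtain ⟨t2, ht2⟩ := cpcomp jc t1
    obtain ⟨t3, ht3⟩ := cpcomp cu t2
    obtain ⟨t4, ht4⟩ := cpcomp al' c2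
    obtain ⟨t5, ht5⟩ := cpcomp ch t4
    obtain ⟨t6, ht6⟩ := cpadd t3 t5
    obtain ⟨Φ, hΦ⟩ := cpcomp t6 r2
    have ht6' : ∀ m, t6 m = star (j u) * j (φ (c1 m)) * j u + star h * (c2 m • (1 : E)) * h := by
      intro m
      rw [ht6, ht3, ht5, ht4, ht2, ht1, hcu', hch', hal', hal, hjc]
    refine ⟨k + 1, Ψ, Φ, ?_, ?_, ?_⟩
    · intro z
      rw [hΨ, hr1, hs4']
      refine (NonUnitalStarAlgHom.norm_apply_le R1 _).trans ?_
      refine (NonUnitalStarAlgHom.norm_apply_le (blk k) _).trans ?_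
      exact max_le ((hψ _).trans (hcn z)) (NonUnitalStarAlgHom.norm_apply_le χ z)
    · intro m
      rw [hΦ, hr2, ht6']
      have h1 : ‖R2 m‖ ≤ ‖m‖ := NonUnitalStarAlgHom.norm_apply_le R2 m
      apply rown (j u) h _ _ ‖m‖ _ _ hsum
      · rw [hj.norm]
        exact ((hφ _).trans (hc1n _)).trans h1
      · have h2 : ‖al (c2 (R2 m))‖ ≤ ‖c2 (R2 m)‖ := NonUnitalStarAlgHom.norm_apply_le al _
        exact (h2.trans (hc2n _)).trans h1
    · intro z hzF
      rw [hΦ, hr2, hΨ, hr1, hR, hs4', ht6', hc1, hc2, hχ]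
      have h1 := hψφ (c z) (Finset.mem_image_of_mem _ hzF)
      obtain ⟨h2, h3⟩ := huF (xz z) (Finset.mem_image_of_mem _ hzF)
      set y := φ (ψ (c z)) with hy
      set a := cz z with ha
      set x := xz z with hx
      have hcz : j (c z) = j (a • (w * w) + w * x * w) := by
        rw [hc]
        conv_lhs => rw [hz z]
        rw [hjws, mul_add, add_mul, mul_smul_comm, mul_one, smul_mul_assoc, map_add, map_smul,
          map_mul, map_mul, map_mul]
      have hcz' : c z = a • (w * w) + w * x * w := hinj hcz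
      have e1 : star h * (a • (1 : E)) * h = a • (1 - j u * j u) := by
        rw [mul_smul_comm, mul_one, smul_mul_assoc, ← hh]
      have e2 : star (j u) * j y * j u + star h * (a • (1 : E)) * h - z =
          j (u * (y - c z) * u + (a • ((u * w - u) * (w * u) + u * (w * u - u)) +
            ((u * w - u) * (x * (w * u)) + u * x * (w * u - u) + (u * x - x) * u +
              (x * u - x)))) := by
        conv_lhs => rw [hz z]
        rw [e1, hjus]
        have e3 : u * (y - c z) * u + (a • ((u * w - u) * (w * u) + u * (w * u - u)) +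
            ((u * w - u) * (x * (w * u)) + u * x * (w * u - u) + (u * x - x) * u +
              (x * u - x))) = u * y * u - a • (u * u) - x := by
          rw [hcz']
          have e4 : u * (y - (a • (w * w) + w * x * w)) * u = u * y * u -
              a • (u * (w * w) * u) - u * (w * x * w) * u := by
            rw [mul_sub, sub_mul, mul_add, add_mul, mul_smul_comm, smul_mul_assoc]
            abel
          have e5 : (u * w - u) * (w * u) + u * (w * u - u) = u * (w * w) * u - u * u := by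
            noncomm_ring
          rw [e4, e5, smul_sub]
          noncomm_ring
        rw [e3, map_sub, map_sub, map_mul, map_mul, map_smul, map_mul, smul_sub]
        abel
      rw [e2, hj.norm]
      have hm : ∀ p q : D, ∀ P Q : ℝ, ‖p‖ ≤ P → ‖q‖ ≤ Q → ‖p * q‖ ≤ P * Q := by
        intro p q P Q hp hq
        exact (norm_mul_le _ _).trans (mul_le_mul hp hq (norm_nonneg _) ((norm_nonneg _).trans hp))
      have hwu1 : ‖w * u‖ ≤ 1 := by
        have := hm w u 1 1 hw1 hu1
        linarith
      have n1 : ‖u * (y - c z) * u‖ ≤ ε / 2 := by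
        have := hm _ u _ 1 (hm u (y - c z) 1 (ε / 2) hu1 h1) hu1
        linarith
      have n2 : ‖a • ((u * w - u) * (w * u) + u * (w * u - u))‖ ≤ ‖a‖ * (2 * δ) := by
        rw [norm_smul]
        apply mul_le_mul_of_nonneg_left _ (norm_nonneg _)
        have m1 := hm (u * w - u) (w * u) δ 1 huw hwu1
        have m2 := hm u (w * u - u) 1 δ hu1 hwu
        have m3 := norm_add_le ((u * w - u) * (w * u)) (u * (w * u - u))
        linarith
      have n3 : ‖(u * w - u) * (x * (w * u))‖ ≤ δ * ‖x‖ := by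
        have m1 := hm x (w * u) ‖x‖ 1 le_rfl hwu1
        have m2 := hm (u * w - u) (x * (w * u)) δ (‖x‖ * 1) huw m1
        linarith
      have n4 : ‖u * x * (w * u - u)‖ ≤ δ * ‖x‖ := by
        have m1 := hm u x 1 ‖x‖ hu1 le_rfl
        have m2 := hm (u * x) (w * u - u) (1 * ‖x‖) δ m1 hwu
        linarith
      have n5 : ‖(u * x - x) * u‖ ≤ δ := by
        have := hm (u * x - x) u δ 1 h2 hu1
        linarith
      have n6 : ‖(u * w - u) * (x * (w * u)) + u * x * (w * u - u) + (u * x - x) * u +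
              (x * u - x)‖ ≤ 2 * δ * ‖x‖ + 2 * δ := by
        have m1 := norm_add_le ((u * w - u) * (x * (w * u)) + u * x * (w * u - u) +
          (u * x - x) * u) (x * u - x)
        have m2 := norm_add_le ((u * w - u) * (x * (w * u)) + u * x * (w * u - u))
          ((u * x - x) * u)
        have m3 := norm_add_le ((u * w - u) * (x * (w * u))) (u * x * (w * u - u))
        linarith
      have m4 := norm_add_le (u * (y - c z) * u) (a • ((u * w - u) * (w * u) +
        u * (w * u - u)) + ((u * w - u) * (x * (w * u)) + u * x * (w * u - u) + (u * x - x) * u +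
              (x * u - x)))
      have m5 := norm_add_le (a • ((u * w - u) * (w * u) +
        u * (w * u - u))) ((u * w - u) * (x * (w * u)) + u * x * (w * u - u) + (u * x - x) * u +
              (x * u - x))
      have m6 := hCz z hzF
      have m7 : 2 * δ * (‖a‖ + ‖x‖ + 1) ≤ 2 * δ * (1 + C) := by
        apply mul_le_mul_of_nonneg_left _ (by positivity)
        linarith
      nlinarith [norm_nonneg a, norm_nonneg x]

end Pool.Agent.H30R2.PZ
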