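import Pool.Agent.H667R5.NX.PZ.Stubs
import Pool.Agent.H327R4.Pure.TRK
import Pool.Agent.H327R4.Pure.TMT

/-!
USCD: strict comparison in the minimal unitisation.
-/

set_option autoImplicit false

namespace Pool.Agent.H30R2.PZ

open Filter Topology Pool.Agent.H327R4.Pure Pool.Agent.H667R5.TW Pool.Agent.H270R2.NU
open scoped ENNReal CStarAlgebra ComplexOrder

universe u

theorem uscd_rank {D E : Type u} [NonUnitalCStarAlgebra D] [PartialOrder D]
    [StarOrderedRing D] [CStarAlgebra E] [PartialOrder E] [StarOrderedRing E]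
    (j : D →⋆ₙₐ[ℂ] E) {n : ℕ} (Φ : MM n D →⋆ₙₐ[ℂ] MM n E) (h1 : ∀ p, Φ p = p.map j)
    (h3 : ∀ p, 0 ≤ p ↔ 0 ≤ Φ p)
    (h4 : ∀ (k : ℕ) (p : MM n D), 0 ≤ p → Φ (rt k p) = rt k (Φ p))
    (T : Tr D) (T' : TS E) (t : ℝ) (hTT : ∀ x, T.f x = (t : ℂ) * T'.1.f (j x))
    (p : MM n D) (hp : 0 ≤ p) (r : ℝ) (hr : IsRkB T p r) :
    r = t * rk (trM T'.1 (Fin n)) (Φ p) := by
  have hpos : 0 ≤ Φ p := (h3 p).1 hp
  have hR := (rk_holds mt_holds (MM n E) (trM T'.1 (Fin n)) (Φ p) hpos).2.2.1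
  have hR' : Tendsto (fun k : ℕ => t * ((trM T'.1 (Fin n)).f (rt k (Φ p))).re) atTop
      (𝓝 (t * rk (trM T'.1 (Fin n)) (Φ p))) := Tendsto.const_mul t hR
  refine tendsto_nhds_unique hr ?_
  refine hR'.congr fun k => ?_
  rw [← h4 k p hp, h1, trM_apply]
  have e : (∑ i, T.f ((rt k p) i i)) = (t : ℂ) * ∑ i, T'.1.f (((rt k p).map j) i i) := by
    rw [Finset.mul_sum]
    exact Finset.sum_congr rfl fun i _ => hTT _
  rw [e, Complex.re_ofReal_mul]

theorem t_USCD (hMAP : StMAP.{u}) (hUEXT : StUEXT.{u}) : StUSCD.{u} := by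
  intro D E _ _ _ _ _ _ j hj hD n a b ha hb hb0 haD hbD hT
  obtain ⟨Φ, h1, h2, h3, h4, h5⟩ := hMAP E D j hj.norm n
  choose fa hfa using haD
  choose fb hfb using hbD
  obtain ⟨a', ea'⟩ : ∃ a' : MM n D, Φ a' = a := by
    refine ⟨CStarMatrix.ofMatrix fun i k => fa i k, ?_⟩
    rw [h1]
    ext i k
    exact hfa i k
  obtain ⟨b', eb'⟩ : ∃ b' : MM n D, Φ b' = b := by
    refine ⟨CStarMatrix.ofMatrix fun i k => fb i k, ?_⟩
    rw [h1]
    ext i k
    exact hfb i k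
  have ha' : 0 ≤ a' := (h3 a').2 (by rw [ea']; exact ha)
  have hb' : 0 ≤ b' := (h3 b').2 (by rw [eb']; exact hb)
  have hb'0 : b' ≠ 0 := by
    intro h
    apply hb0
    rw [← eb', h, map_zero]
  have hcz : Cz a' b' := by
    refine hD n a' b' ha' hb' hb'0 ?_
    intro T r r' hTne hr hr'
    obtain ⟨T', t, ht, hN1, hTT, -⟩ := hUEXT D E j hj T hTne
    have e1 := uscd_rank j Φ h1 h3 h4 T T' t hTT a' ha' r hr
    have e2 := uscd_rank j Φ h1 h3 h4 T T' t hTT b' hb' r' hr'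
    rw [ea'] at e1
    rw [eb'] at e2
    have hNV : NV (Set.range j) T' := by
      obtain ⟨x, hx⟩ := hTne
      refine ⟨j x, ⟨x, rfl⟩, ?_⟩
      intro h0
      apply hx
      rw [hTT, h0, mul_zero]
    rw [e1, e2]
    exact mul_lt_mul_of_pos_left (hT T' hNV) ht
  obtain ⟨x, hx⟩ := hcz
  refine ⟨fun k => Φ (x k), ?_⟩
  have hcont : Continuous Φ := (AddMonoidHomClass.isometry_of_norm Φ h2).continuous
  have := (hcont.tendsto a').comp hx
  rw [ea'] at this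
  refine this.congr fun k => ?_
  simp only [Function.comp, map_mul, map_star, eb']

end Pool.Agent.H30R2.PZ
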