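import Pool.Agent.H667R5.NX.PZ.Stubs

/-! Task UZS (helper150) -/

set_option autoImplicit false

namespace Pool.Agent.H30R2.PZ

open Filter Topology Pool.Agent.H327R4.Pure Pool.Agent.H667R5.TW Pool.Agent.H270R2.NU
open scoped ENNReal CStarAlgebra ComplexOrder

universe u

theorem uzs_nonneg {D E : Type u} [NonUnitalCStarAlgebra D] [PartialOrder D]
  [StarOrderedRing D] [CStarAlgebra E] [PartialOrder E] [StarOrderedRing E]
  (j : D →⋆ₙₐ[ℂ] E) (hn : ∀ x, ‖j x‖ = ‖x‖) (c : D) (hc : 0 ≤ j c) : 0 ≤ c := by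
  have hinj : Function.Injective j := by
    intro x y hxy
    have h1 : ‖j (x - y)‖ = ‖x - y‖ := hn _
    rw [map_sub, hxy, sub_self, norm_zero] at h1
    exact sub_eq_zero.1 (norm_eq_zero.1 h1.symm)
  have hsa : IsSelfAdjoint c := by
    have h1 : IsSelfAdjoint (j c) := IsSelfAdjoint.of_nonneg hc
    refine hinj ?_
    rw [map_star]
    exact h1
  have hcont : Continuous j := by
    have : Isometry j := AddMonoidHomClass.isometry_of_norm j hn
    exact this.continuous
  rw [← CFC.negPart_eq_zero_iff c hsa]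
  apply hinj
  rw [map_zero, CFC.negPart_def,
    NonUnitalStarAlgHomClass.map_cfcₙ j (fun x : ℝ => x⁻) c (by fun_prop) (by simp) hcont hsa
      (IsSelfAdjoint.of_nonneg hc), ← CFC.negPart_def]
  exact (CFC.negPart_eq_zero_iff (j c) (IsSelfAdjoint.of_nonneg hc)).2 hc

theorem t_UZS : StUZS.{u} := by
  intro D E _ _ _ _ _ _ j hj hZ m x ε hε
  have hn := hj.norm
  obtain ⟨c₁, c₂, s, ⟨a, rfl⟩, ⟨b, rfl⟩, ⟨t, rfl⟩, h0, h1, h2, h3, h4⟩ :=
    hZ m (fun i => j (x i)) ε (fun i => ⟨x i, rfl⟩) hε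
  refine ⟨a, b, t, uzs_nonneg j hn a h0, ?_, ?_, ?_, fun i => ?_⟩
  · rw [← hn]; exact h1
  · rw [← hn]; exact h2
  · rw [← hn]; exact h3
  · obtain ⟨k1, k2, k3, k4, k5, k6, k7⟩ := h4 i
    refine ⟨?_, ?_, ?_, ?_, ?_, ?_, ?_⟩
    · rw [← hn, map_sub, map_mul, map_mul]; exact k1
    · rw [← hn, map_sub, map_mul, map_mul]; exact k2
    · rw [← hn, map_sub, map_mul, map_mul]; exact k3
    · rw [← hn, map_mul, map_mul, map_star]; exact k4
    · rw [← hn, map_mul, map_sub, map_mul, map_mul, map_star]; exact k5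
    · rw [← hn, map_sub, map_mul, map_add, map_add, map_mul, map_mul, map_mul, map_star, map_star]
      rw [sub_mul, one_mul] at k6
      exact k6
    · rw [← hn, map_mul, map_sub, map_mul]; exact k7

end Pool.Agent.H30R2.PZ
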