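import Pool.Agent.H667R5.NX.PZ.Stubs

/-!
# ZAPP: from the hereditary subalgebras to `A`
-/

set_option autoImplicit false

namespace Pool.Agent.H30R2.PZ

open Filter Topology Pool.Agent.H327R4.Pure Pool.Agent.H667R5.TW Pool.Agent.H270R2.NU
open scoped ENNReal CStarAlgebra ComplexOrder

universe u

namespace ZAPP

theorem cut_nonneg' {A : Type u} [NonUnitalCStarAlgebra A] [PartialOrder A] [StarOrderedRing A]
    (δ : ℝ) (u : A) : 0 ≤ cut δ u := by
  unfold cut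
  exact cfcₙ_nonneg fun x _ => le_max_right _ _

theorem cut_near {A : Type u} [NonUnitalCStarAlgebra A] [PartialOrder A] [StarOrderedRing A]
    (δ : ℝ) (hδ : 0 < δ) (u : A) (hu : 0 ≤ u) : ‖u - cut δ u‖ ≤ δ := by
  have hsa : IsSelfAdjoint u := IsSelfAdjoint.of_nonneg hu
  have h1 : u - cut δ u = cfcₙ (fun t : ℝ => t - max (t - δ) 0) u := by
    unfold cut
    rw [cfcₙ_sub (fun t : ℝ => t) (fun t : ℝ => max (t - δ) 0) u
      (hf0 := rfl) (hg0 := by simp [hδ.le]), cfcₙ_id' ℝ u]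
  rw [h1]
  refine norm_cfcₙ_le fun t ht => ?_
  have ht0 : 0 ≤ t := quasispectrum_nonneg_of_nonneg u hu t ht
  rw [Real.norm_eq_abs, abs_le]
  rcases le_total (t - δ) 0 with h | h
  · rw [max_eq_right h]; constructor <;> linarith
  · rw [max_eq_left h]; constructor <;> linarith

/-- products of an element of norm at most `K` and a small element -/
theorem mulL {A : Type u} [NonUnitalCStarAlgebra A] (c y : A) (K η : ℝ) (hK : 0 ≤ K)
    (hc : ‖c‖ ≤ K) (hy : ‖y‖ ≤ η) : ‖c * y‖ ≤ K * η :=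
  (norm_mul_le _ _).trans (mul_le_mul hc hy (norm_nonneg _) hK)

theorem mulR {A : Type u} [NonUnitalCStarAlgebra A] (c y : A) (K η : ℝ) (hK : 0 ≤ K)
    (hc : ‖c‖ ≤ K) (hy : ‖y‖ ≤ η) : ‖y * c‖ ≤ K * η := by
  refine (norm_mul_le _ _).trans ?_
  rw [mul_comm]
  exact mul_le_mul hc hy (norm_nonneg _) hK

theorem comm_close {A : Type u} [NonUnitalCStarAlgebra A] (c x x' : A) (ε η : ℝ)
    (hc : ‖c‖ ≤ 1) (hx : ‖x - x'‖ ≤ η) (h : ‖c * x' - x' * c‖ ≤ ε) :
    ‖c * x - x * c‖ ≤ ε + 2 * η := by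
  have e : c * x - x * c = (c * x' - x' * c) + (c * (x - x') - (x - x') * c) := by
    rw [mul_sub, sub_mul]; abel
  rw [e]
  have h1 := mulL c (x - x') 1 η zero_le_one hc hx
  have h2 := mulR c (x - x') 1 η zero_le_one hc hx
  have h3 := norm_add_le (c * x' - x' * c) (c * (x - x') - (x - x') * c)
  have h4 := norm_sub_le (c * (x - x')) ((x - x') * c)
  linarith

theorem left_close {A : Type u} [NonUnitalCStarAlgebra A] (c x x' : A) (ε η K : ℝ) (hK : 0 ≤ K)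
    (hc : ‖c‖ ≤ K) (hx : ‖x - x'‖ ≤ η) (h : ‖c * x'‖ ≤ ε) :
    ‖c * x‖ ≤ ε + K * η := by
  have e : c * x = c * x' + c * (x - x') := by rw [mul_sub]; abel
  rw [e]
  have h1 := mulL c (x - x') K η hK hc hx
  exact (norm_add_le _ _).trans (add_le_add h h1)

end ZAPP

theorem t_ZAPP (hHER : StHER.{u}) (hHB : StHB.{u}) (hAUN : StAUN.{u}) : StZAPP.{u} := by
  intro A _ _ _ hne hD m x ε hε
  obtain ⟨x0, hx0⟩ := hne
  have hx0n : 0 < ‖x0‖ := norm_pos_iff.2 hx0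
  obtain ⟨M, hM0, hMx0, hMx⟩ : ∃ M : ℝ, 0 ≤ M ∧ ‖x0‖ ≤ M ∧ ∀ j, ‖x j‖ ≤ M := by
    refine ⟨‖x0‖ + ∑ j, ‖x j‖, by positivity, ?_, fun j => ?_⟩
    · have : 0 ≤ ∑ j, ‖x j‖ := by positivity
      linarith
    · have h1 : ‖x j‖ ≤ ∑ j, ‖x j‖ :=
        Finset.single_le_sum (f := fun j => ‖x j‖) (fun i _ => norm_nonneg _) (Finset.mem_univ j)
      linarith
  set η : ℝ := min (ε / 8) (‖x0‖ / 2) with hη
  have hη0 : 0 < η := lt_min (by linarith) (by linarith)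
  have hη1 : η ≤ ε / 8 := min_le_left _ _
  have hη2 : η ≤ ‖x0‖ / 2 := min_le_right _ _
  set δ : ℝ := min 1 (η / (6 * (M + 1))) with hδ
  have hδ0 : 0 < δ := lt_min one_pos (by positivity)
  have hδ1 : δ ≤ 1 := min_le_left _ _
  have hδM : δ * M ≤ η / 6 := by
    have h1 : δ ≤ η / (6 * (M + 1)) := min_le_right _ _
    rw [le_div_iff₀ (by positivity)] at h1
    nlinarith
  classical
  obtain ⟨w, hw0, hw1, hwF⟩ := hAUN A (insert x0 (Finset.univ.image x)) (η / 4) (by linarith)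
  set v := cut δ w with hv
  have hv0 : 0 ≤ v := ZAPP.cut_nonneg' δ w
  have hwv : ‖w - v‖ ≤ δ := ZAPP.cut_near δ hδ0 w hw0
  have hv2 : ‖v‖ ≤ 2 := by
    have h1 := norm_sub_norm_le v w
    rw [norm_sub_rev] at h1
    linarith
  have happ : ∀ y ∈ insert x0 (Finset.univ.image x), ‖y‖ ≤ M → ‖y - v * y * v‖ ≤ η := by
    intro y hy hyM
    obtain ⟨h1, h2⟩ := hwF y hy
    have e : y - v * y * v = -(w * y - y) + -(w * (y * w - y)) + ((w - v) * (y * w)
        + v * y * (w - v)) := by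
      simp only [sub_mul, mul_sub, mul_assoc]
      abel
    rw [e]
    have k1 : ‖-(w * y - y)‖ ≤ η / 4 := by rw [norm_neg]; exact h1
    have k2 : ‖-(w * (y * w - y))‖ ≤ η / 4 := by
      rw [norm_neg]
      have := ZAPP.mulL w (y * w - y) 1 (η / 4) zero_le_one hw1 h2
      linarith
    have k3 : ‖(w - v) * (y * w)‖ ≤ δ * M := by
      have a1 : ‖y * w‖ ≤ M := by
        refine (norm_mul_le _ _).trans ?_
        nlinarith [norm_nonneg y, norm_nonneg w]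
      exact (norm_mul_le _ _).trans (mul_le_mul hwv a1 (norm_nonneg _) hδ0.le)
    have k4 : ‖v * y * (w - v)‖ ≤ 2 * (δ * M) := by
      have a1 : ‖v * y‖ ≤ 2 * M :=
        (norm_mul_le _ _).trans (mul_le_mul hv2 hyM (norm_nonneg _) (by norm_num))
      have a2 : ‖v * y * (w - v)‖ ≤ 2 * M * δ :=
        (norm_mul_le _ _).trans (mul_le_mul a1 hwv (norm_nonneg _) (by positivity))
      linarith
    have k5 := norm_add_le (-(w * y - y) + -(w * (y * w - y))) ((w - v) * (y * w)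
        + v * y * (w - v))
    have k6 := norm_add_le (-(w * y - y)) (-(w * (y * w - y)))
    have k7 := norm_add_le ((w - v) * (y * w)) (v * y * (w - v))
    linarith
  have hvne : v ≠ 0 := by
    intro h
    have h1 := happ x0 (Finset.mem_insert_self _ _) hMx0
    rw [h, zero_mul, zero_mul, sub_zero] at h1
    linarith
  obtain ⟨D, iD, pD, sD, ι, hι⟩ := hHER A v hv0
  have hZ : ZSN D := hD D ι w δ hw0 hδ0 hvne hι
  have hnn := (hHB A D ι v hv0 hι).2.1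
  have hx' : ∀ j, ∃ z : D, ι z = v * x j * v := by
    intro j
    have h1 : v * x j * v ∈ Set.range ι := by
      rw [hι.range]
      exact subset_closure ⟨x j, rfl⟩
    exact h1
  choose x' hx'1 using hx'
  have hxx : ∀ j, ‖x j - ι (x' j)‖ ≤ η := by
    intro j
    rw [hx'1 j]
    exact happ (x j) (Finset.mem_insert_of_mem (Finset.mem_image_of_mem x (Finset.mem_univ j)))
      (hMx j)
  obtain ⟨c₁, c₂, s, hc0, hc1, hc2, hs1, hall⟩ := hZ m x' (ε / 2) (by linarith)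
  have n1 : ‖ι c₁‖ ≤ 1 := by rw [hι.norm]; exact hc1
  have n2 : ‖ι c₂‖ ≤ 1 := by rw [hι.norm]; exact hc2
  have n3 : ‖ι s‖ ≤ 1 := by rw [hι.norm]; exact hs1
  refine ⟨ι c₁, ι c₂, ι s, (hnn c₁).1 hc0, n1, n2, n3, fun j => ?_⟩
  obtain ⟨a1, a2, a3, a4, a5, a6, a7⟩ := hall j
  have hj := hxx j
  have t1 : ‖ι c₁ * ι (x' j) - ι (x' j) * ι c₁‖ ≤ ε / 2 := by
    rw [← map_mul, ← map_mul, ← map_sub, hι.norm]; exact a1
  have t2 : ‖ι c₂ * ι (x' j) - ι (x' j) * ι c₂‖ ≤ ε / 2 := by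
    rw [← map_mul, ← map_mul, ← map_sub, hι.norm]; exact a2
  have t3 : ‖ι s * ι (x' j) - ι (x' j) * ι s‖ ≤ ε / 2 := by
    rw [← map_mul, ← map_mul, ← map_sub, hι.norm]; exact a3
  have t4 : ‖ι c₁ * star (ι c₂) * ι (x' j)‖ ≤ ε / 2 := by
    rw [← map_star, ← map_mul, ← map_mul, hι.norm]; exact a4
  have t5 : ‖(ι c₂ * star (ι c₂) - ι c₁ * ι c₁) * ι (x' j)‖ ≤ ε / 2 := by
    rw [← map_star, ← map_mul, ← map_mul, ← map_sub, ← map_mul, hι.norm]; exact a5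
  have t6 : ‖(ι c₁ * ι c₁ + star (ι c₂) * ι c₂ + star (ι s) * ι s) * ι (x' j) - ι (x' j)‖ ≤
      ε / 2 := by
    rw [← map_star, ← map_star, ← map_mul, ← map_mul, ← map_mul, ← map_add, ← map_add,
      ← map_mul, ← map_sub, hι.norm]
    exact a6
  have t7 : ‖(ι c₁ * ι s - ι s) * ι (x' j)‖ ≤ ε / 2 := by
    rw [← map_mul, ← map_sub, ← map_mul, hι.norm]; exact a7
  have m11 : ‖ι c₁ * ι c₁‖ ≤ 1 := by
    have := ZAPP.mulL (ι c₁) (ι c₁) 1 1 zero_le_one n1 n1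
    linarith
  have m12 : ‖ι c₁ * star (ι c₂)‖ ≤ 1 := by
    have := ZAPP.mulL (ι c₁) (star (ι c₂)) 1 1 zero_le_one n1 (by rw [norm_star]; exact n2)
    linarith
  have m22 : ‖ι c₂ * star (ι c₂)‖ ≤ 1 := by
    have := ZAPP.mulL (ι c₂) (star (ι c₂)) 1 1 zero_le_one n2 (by rw [norm_star]; exact n2)
    linarith
  have m22' : ‖star (ι c₂) * ι c₂‖ ≤ 1 := by
    have := ZAPP.mulL (star (ι c₂)) (ι c₂) 1 1 zero_le_one (by rw [norm_star]; exact n2) n2
    linarith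
  have m33 : ‖star (ι s) * ι s‖ ≤ 1 := by
    have := ZAPP.mulL (star (ι s)) (ι s) 1 1 zero_le_one (by rw [norm_star]; exact n3) n3
    linarith
  have m13 : ‖ι c₁ * ι s‖ ≤ 1 := by
    have := ZAPP.mulL (ι c₁) (ι s) 1 1 zero_le_one n1 n3
    linarith
  refine ⟨?_, ?_, ?_, ?_, ?_, ?_, ?_⟩
  · have := ZAPP.comm_close (ι c₁) (x j) (ι (x' j)) (ε / 2) η n1 hj t1
    linarith
  · have := ZAPP.comm_close (ι c₂) (x j) (ι (x' j)) (ε / 2) η n2 hj t2
    linarith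
  · have := ZAPP.comm_close (ι s) (x j) (ι (x' j)) (ε / 2) η n3 hj t3
    linarith
  · have := ZAPP.left_close (ι c₁ * star (ι c₂)) (x j) (ι (x' j)) (ε / 2) η 1 zero_le_one m12 hj t4
    linarith
  · have k : ‖ι c₂ * star (ι c₂) - ι c₁ * ι c₁‖ ≤ 2 := by
      have := norm_sub_le (ι c₂ * star (ι c₂)) (ι c₁ * ι c₁)
      linarith
    have := ZAPP.left_close _ (x j) (ι (x' j)) (ε / 2) η 2 (by norm_num) k hj t5
    linarith
  · have k : ‖ι c₁ * ι c₁ + star (ι c₂) * ι c₂ + star (ι s) * ι s‖ ≤ 3 := by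
      have h1 := norm_add_le (ι c₁ * ι c₁ + star (ι c₂) * ι c₂) (star (ι s) * ι s)
      have h2 := norm_add_le (ι c₁ * ι c₁) (star (ι c₂) * ι c₂)
      linarith
    set P := ι c₁ * ι c₁ + star (ι c₂) * ι c₂ + star (ι s) * ι s with hP
    have e : P * x j - x j = (P * ι (x' j) - ι (x' j)) + (P * (x j - ι (x' j)) -
        (x j - ι (x' j))) := by
      rw [mul_sub]; abel
    rw [e]
    have h1 := ZAPP.mulL P (x j - ι (x' j)) 3 η (by norm_num) k hj
    have h2 := norm_add_le (P * ι (x' j) - ι (x' j)) (P * (x j - ι (x' j)) - (x j - ι (x' j)))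
    have h3 := norm_sub_le (P * (x j - ι (x' j))) (x j - ι (x' j))
    linarith
  · have k : ‖ι c₁ * ι s - ι s‖ ≤ 2 := by
      have := norm_sub_le (ι c₁ * ι s) (ι s)
      linarith
    have := ZAPP.left_close _ (x j) (ι (x' j)) (ε / 2) η 2 (by norm_num) k hj t7
    linarith

end Pool.Agent.H30R2.PZ
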