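import Pool.Agent.H667R5.NX.NU.Defs

/-!
# Toms-Winter for general simple C*-algebras: definitions (reduction, PART 0)
-/

set_option autoImplicit false

namespace Pool.Agent.H30R2.PZ

open Filter Topology Pool.Agent.H327R4.Pure Pool.Agent.H667R5.TW Pool.Agent.H270R2.NU
open scoped ENNReal CStarAlgebra ComplexOrder

universe u

/-- `A` is non-zero and its only closed two-sided ideals are `0` and `A` -/
def SimpleN (A : Type u) [NonUnitalCStarAlgebra A] : Prop :=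
  (∃ x : A, x ≠ 0) ∧ ∀ I : Submodule ℂ A, IsClosed (I : Set A) → (∀ x y, y ∈ I → x * y ∈ I) →
    (∀ x y, x ∈ I → x * y ∈ I) → I = ⊥ ∨ I = ⊤

/-- `A` has no minimal projection: there is no projection `p ≠ 0` with `p A p = ℂ p`
(for simple `A`: `A` is not elementary, i.e. not isomorphic to the compact operators on a
Hilbert space) -/
def NonElem (A : Type u) [NonUnitalCStarAlgebra A] : Prop :=
  ∀ p : A, star p = p → p * p = p → p ≠ 0 → ∃ x : A, ∀ c : ℂ, p * x * p ≠ c • p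

/-- nuclear: the identity is a point-norm limit of completely positive contractions which
factor through matrix algebras -/
def NuclearN (A : Type u) [NonUnitalCStarAlgebra A] [PartialOrder A] [StarOrderedRing A] : Prop :=
  ∀ (F : Finset A) (ε : ℝ), 0 < ε → ∃ (k : ℕ) (ψ : A →CP CStarMatrix (Fin k) (Fin k) ℂ)
    (φ : CStarMatrix (Fin k) (Fin k) ℂ →CP A),
    (∀ x, ‖ψ x‖ ≤ ‖x‖) ∧ (∀ y, ‖φ y‖ ≤ ‖y‖) ∧ ∀ x ∈ F, ‖φ (ψ x) - x‖ ≤ ε

/-- a non-zero densely finite lower semicontinuous trace `τ : A_+ → [0,∞]` (the values of `f`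
outside of `A_+` are irrelevant) -/
structure LTr (A : Type u) [NonUnitalCStarAlgebra A] [PartialOrder A] [StarOrderedRing A] where
  /-- the trace -/
  f : A → ℝ≥0∞
  add : ∀ x y, 0 ≤ x → 0 ≤ y → f (x + y) = f x + f y
  smul : ∀ (c : ℝ) (x : A), 0 ≤ c → 0 ≤ x → f (c • x) = ENNReal.ofReal c * f x
  tr : ∀ x, f (star x * x) = f (x * star x)
  lsc : LowerSemicontinuousOn f {x | 0 ≤ x}
  dense : ∀ x, 0 ≤ x → ∀ ε : ℝ, 0 < ε → ∃ y, 0 ≤ y ∧ ‖x - y‖ ≤ ε ∧ f y ≠ ∞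
  nonzero : ∃ x, 0 ≤ x ∧ f x ≠ 0

/-- `d = d_τ(a) = lim_k (τ ⊗ Tr)(a ^ (1/k))` for `a` in `M_n(A)_+` -/
def IsRkN {A : Type u} [NonUnitalCStarAlgebra A] [PartialOrder A] [StarOrderedRing A]
    (τ : LTr A) {n : ℕ} (a : MM n A) (d : ℝ≥0∞) : Prop :=
  Tendsto (fun k : ℕ => ∑ i, τ.f ((rt k a) i i)) atTop (𝓝 d)

/-- strict comparison of positive elements in matrix algebras over `A` -/
def SCN (A : Type u) [NonUnitalCStarAlgebra A] [PartialOrder A] [StarOrderedRing A] : Prop :=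
  ∀ (n : ℕ) (a b : MM n A), 0 ≤ a → 0 ≤ b → b ≠ 0 →
    (∀ (τ : LTr A) (d d' : ℝ≥0∞), IsRkN τ a d → IsRkN τ b d' → d < d') → Cz a b

/-- local `Z`-stability: approximately central elements satisfying (up to `ε`, after
multiplication by `x j`) the relations of the dimension drop algebra `Z_{2,3}` -/
def ZSN (A : Type u) [NonUnitalCStarAlgebra A] [PartialOrder A] : Prop :=
  ∀ (m : ℕ) (x : Fin m → A) (ε : ℝ), 0 < ε →
    ∃ c₁ c₂ s : A, 0 ≤ c₁ ∧ ‖c₁‖ ≤ 1 ∧ ‖c₂‖ ≤ 1 ∧ ‖s‖ ≤ 1 ∧ ∀ j,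
      ‖c₁ * x j - x j * c₁‖ ≤ ε ∧ ‖c₂ * x j - x j * c₂‖ ≤ ε ∧ ‖s * x j - x j * s‖ ≤ ε ∧
      ‖c₁ * star c₂ * x j‖ ≤ ε ∧ ‖(c₂ * star c₂ - c₁ * c₁) * x j‖ ≤ ε ∧
      ‖(c₁ * c₁ + star c₂ * c₂ + star s * s) * x j - x j‖ ≤ ε ∧ ‖(c₁ * s - s) * x j‖ ≤ ε

/-- `ι` identifies `D` with the hereditary subalgebra `closure (a A a)` of `A` -/
structure IsHer {A D : Type u} [NonUnitalCStarAlgebra A] [NonUnitalCStarAlgebra D]
    (ι : D →⋆ₙₐ[ℂ] A) (a : A) : Prop where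
  norm : ∀ x, ‖ι x‖ = ‖x‖
  range : Set.range ι = closure (Set.range fun t : A => a * t * a)

/-- `e` is a unit for `a`, and `e` is in the Pedersen ideal -/
def Ped {A : Type u} [NonUnitalCStarAlgebra A] [PartialOrder A] (a e : A) : Prop :=
  0 ≤ e ∧ e * a = a ∧ a * e = a ∧ ∀ c : A, 0 ≤ c → c ≠ 0 →
    ∃ (n : ℕ) (y : Fin n → A), e = ∑ i, star (y i) * c * y i

/-- bounded traces are comparable on `D` -/
def LowN (D : Type u) [NonUnitalCStarAlgebra D] [PartialOrder D] : Prop :=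
  ∀ c : D, 0 ≤ c → c ≠ 0 → ∃ η : ℝ, 0 < η ∧ ∀ (T : Tr D) (d : D), 0 ≤ d → ‖d‖ ≤ 1 →
    η * (T.f d).re ≤ (T.f c).re

/-- `r = T-rank of a` for `a` in `M_n(D)_+` and a bounded trace `T` -/
def IsRkB {D : Type u} [NonUnitalCStarAlgebra D] [PartialOrder D] [StarOrderedRing D]
    (T : Tr D) {n : ℕ} (a : MM n D) (r : ℝ) : Prop :=
  Tendsto (fun k : ℕ => (∑ i, T.f ((rt k a) i i)).re) atTop (𝓝 r)

/-- strict comparison by the non-zero bounded traces -/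
def SCB (D : Type u) [NonUnitalCStarAlgebra D] [PartialOrder D] [StarOrderedRing D] : Prop :=
  ∀ (n : ℕ) (a b : MM n D), 0 ≤ a → 0 ≤ b → b ≠ 0 →
    (∀ (T : Tr D) (r r' : ℝ), (∃ x, T.f x ≠ 0) → IsRkB T a r → IsRkB T b r' → r < r') → Cz a b

/-- `j : D → E` is the minimal unitisation of `D` (`E = D` if `D` is unital) -/
structure IsUn {D E : Type u} [NonUnitalCStarAlgebra D] [CStarAlgebra E]
    (j : D →⋆ₙₐ[ℂ] E) : Prop where
  norm : ∀ x, ‖j x‖ = ‖x‖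
  ex : ∀ z : E, ∃ (c : ℂ) (x : D), z = c • 1 + j x
  ess : ∀ z : E, z ≠ 0 → ∃ x : D, z * j x ≠ 0

end Pool.Agent.H30R2.PZ
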