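import Pool.Agent.H667R5.NX.PZ.Defs

/-!
# Toms-Winter for general simple C*-algebras: statements of the reduction
-/

set_option autoImplicit false

namespace Pool.Agent.H30R2.PZ

open Filter Topology Pool.Agent.H327R4.Pure Pool.Agent.H667R5.TW Pool.Agent.H270R2.NU
open scoped ENNReal CStarAlgebra ComplexOrder

universe u

/-- HER: the hereditary subalgebra as a C*-algebra -/
def StHER : Prop := ∀ (A : Type u) [NonUnitalCStarAlgebra A] [PartialOrder A] [StarOrderedRing A]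
  (a : A), 0 ≤ a → ∃ (D : Type u) (_ : NonUnitalCStarAlgebra D) (_ : PartialOrder D)
    (_ : StarOrderedRing D) (ι : D →⋆ₙₐ[ℂ] A), IsHer ι a

/-- HB: basic facts on hereditary subalgebras -/
def StHB : Prop := ∀ (A D : Type u) [NonUnitalCStarAlgebra A] [PartialOrder A]
  [StarOrderedRing A] [NonUnitalCStarAlgebra D] [PartialOrder D] [StarOrderedRing D]
  (ι : D →⋆ₙₐ[ℂ] A) (a : A), 0 ≤ a → IsHer ι a →
    (∀ (x y : D) (t : A), ∃ z : D, ι z = ι x * t * ι y) ∧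
    (∀ x : D, 0 ≤ x ↔ 0 ≤ ι x) ∧
    (∀ x y : D, x ≤ y ↔ ι x ≤ ι y) ∧
    (∀ (f : ℝ → ℝ) (x : D), Continuous f → f 0 = 0 → 0 ≤ x → ι (cfcₙ f x) = cfcₙ f (ι x)) ∧
    (∃ z : D, ι z = a) ∧
    (∀ (c : A) (x : D), 0 ≤ c → c ≤ ι x → ∃ z : D, ι z = c) ∧
    ∀ (F : Finset D) (ε : ℝ), 0 < ε → ∃ u : D, 0 ≤ u ∧ ‖u‖ ≤ 1 ∧ ∀ x ∈ F,
      ‖u * x - x‖ ≤ ε ∧ ‖x * u - x‖ ≤ ε

/-- AUN: approximate units in any C*-algebra -/
def StAUN : Prop := ∀ (D : Type u) [NonUnitalCStarAlgebra D] [PartialOrder D]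
  [StarOrderedRing D] (F : Finset D) (ε : ℝ), 0 < ε → ∃ u : D, 0 ≤ u ∧ ‖u‖ ≤ 1 ∧ ∀ x ∈ F,
      ‖u * x - x‖ ≤ ε ∧ ‖x * u - x‖ ≤ ε

/-- FULLN: simple algebras, algebraic fullness -/
def StFULLN : Prop := ∀ (A : Type u) [NonUnitalCStarAlgebra A] [PartialOrder A]
  [StarOrderedRing A], SimpleN A → ∀ c h : A, 0 ≤ c → c ≠ 0 → 0 ≤ h → ∀ ε : ℝ, 0 < ε →
    ∃ (n : ℕ) (y : Fin n → A), ∑ i, star (y i) * c * y i = cut ε h

/-- PED: units in the Pedersen ideal -/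
def StPED : Prop := ∀ (A : Type u) [NonUnitalCStarAlgebra A] [PartialOrder A]
  [StarOrderedRing A], SimpleN A → ∀ (b : A) (δ : ℝ), 0 ≤ b → 0 < δ →
    ∃ e : A, Ped (cut δ b) e

/-- HSIM -/
def StHSIM : Prop := ∀ (A D : Type u) [NonUnitalCStarAlgebra A] [PartialOrder A]
  [StarOrderedRing A] [NonUnitalCStarAlgebra D] [PartialOrder D] [StarOrderedRing D]
  (ι : D →⋆ₙₐ[ℂ] A) (a : A), 0 ≤ a → a ≠ 0 → IsHer ι a → SimpleN A → SimpleN D

/-- HNE -/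
def StHNE : Prop := ∀ (A D : Type u) [NonUnitalCStarAlgebra A] [PartialOrder A]
  [StarOrderedRing A] [NonUnitalCStarAlgebra D] [PartialOrder D] [StarOrderedRing D]
  (ι : D →⋆ₙₐ[ℂ] A) (a : A), 0 ≤ a → IsHer ι a → NonElem A → NonElem D

/-- HNUC -/
def StHNUC : Prop := ∀ (A D : Type u) [NonUnitalCStarAlgebra A] [PartialOrder A]
  [StarOrderedRing A] [NonUnitalCStarAlgebra D] [PartialOrder D] [StarOrderedRing D]
  (ι : D →⋆ₙₐ[ℂ] A) (a : A), 0 ≤ a → IsHer ι a → NuclearN A → NuclearN D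

/-- HLOW -/
def StHLOW : Prop := ∀ (A D : Type u) [NonUnitalCStarAlgebra A] [PartialOrder A]
  [StarOrderedRing A] [NonUnitalCStarAlgebra D] [PartialOrder D] [StarOrderedRing D]
  (ι : D →⋆ₙₐ[ℂ] A) (a e : A), 0 ≤ a → IsHer ι a → Ped a e → LowN D

/-- EXT: a bounded trace on the positive cone extends -/
def StEXT : Prop := ∀ (D : Type u) [NonUnitalCStarAlgebra D] [PartialOrder D]
  [StarOrderedRing D] (g : D → ℝ) (C : ℝ), (∀ x, 0 ≤ x → 0 ≤ g x ∧ g x ≤ C * ‖x‖) →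
    (∀ x y, 0 ≤ x → 0 ≤ y → g (x + y) = g x + g y) →
    (∀ (c : ℝ) (x : D), 0 ≤ c → 0 ≤ x → g (c • x) = c * g x) →
    (∀ x, g (star x * x) = g (x * star x)) → ∃ T : Tr D, ∀ x, 0 ≤ x → (T.f x).re = g x

/-- HTR: restriction of a trace -/
def StHTR : Prop := ∀ (A D : Type u) [NonUnitalCStarAlgebra A] [PartialOrder A]
  [StarOrderedRing A] [NonUnitalCStarAlgebra D] [PartialOrder D] [StarOrderedRing D]
  (ι : D →⋆ₙₐ[ℂ] A) (a e : A), 0 ≤ a → a ≠ 0 → IsHer ι a → Ped a e → SimpleN A →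
    ∀ τ : LTr A, ∃ T : Tr D, (∃ x, T.f x ≠ 0) ∧
      ∀ x, 0 ≤ x → τ.f (ι x) = ENNReal.ofReal (T.f x).re

/-- HCZ: Cuntz comparison in hereditary subalgebras -/
def StHCZ : Prop := ∀ (A D : Type u) [NonUnitalCStarAlgebra A] [PartialOrder A]
  [StarOrderedRing A] [NonUnitalCStarAlgebra D] [PartialOrder D] [StarOrderedRing D]
  (ι : D →⋆ₙₐ[ℂ] A) (a : A), 0 ≤ a → IsHer ι a → ∀ (n : ℕ) (p q : MM n D), 0 ≤ p → 0 ≤ q →
    Cz (p.map ι) (q.map ι) → Cz p q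

/-- MAP: maps between matrix algebras -/
def StMAP : Prop := ∀ (A D : Type u) [NonUnitalCStarAlgebra A] [PartialOrder A]
  [StarOrderedRing A] [NonUnitalCStarAlgebra D] [PartialOrder D] [StarOrderedRing D]
  (ι : D →⋆ₙₐ[ℂ] A), (∀ x, ‖ι x‖ = ‖x‖) → ∀ n : ℕ,
    ∃ Φ : MM n D →⋆ₙₐ[ℂ] MM n A, (∀ p, Φ p = p.map ι) ∧ (∀ p, ‖Φ p‖ = ‖p‖) ∧
      (∀ p, 0 ≤ p ↔ 0 ≤ Φ p) ∧ (∀ (k : ℕ) (p : MM n D), 0 ≤ p → Φ (rt k p) = rt k (Φ p)) ∧
      (∀ p : MM n D, 0 ≤ p → ∀ i, 0 ≤ p i i)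

/-- HSCB -/
def StHSCB : Prop := ∀ (A D : Type u) [NonUnitalCStarAlgebra A] [PartialOrder A]
  [StarOrderedRing A] [NonUnitalCStarAlgebra D] [PartialOrder D] [StarOrderedRing D]
  (ι : D →⋆ₙₐ[ℂ] A) (a e : A), 0 ≤ a → a ≠ 0 → IsHer ι a → Ped a e → SimpleN A → SCN A → SCB D

/-- NILN: nilpotents in hereditary subalgebras -/
def StNILN : Prop := ∀ (D : Type u) [NonUnitalCStarAlgebra D] [PartialOrder D]
  [StarOrderedRing D], SimpleN D → NonElem D → ∀ c : D, 0 ≤ c → c ≠ 0 →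
    ∃ (x : D) (M : ℝ), 0 < M ∧ x ≠ 0 ∧ x * x = 0 ∧ star x * x ≤ M • c ∧ x * star x ≤ M • c

/-- UN: the minimal unitisation -/
def StUN : Prop := ∀ (D : Type u) [NonUnitalCStarAlgebra D] [PartialOrder D]
  [StarOrderedRing D], (∃ x : D, x ≠ 0) → ∃ (E : Type u) (_ : CStarAlgebra E)
    (_ : PartialOrder E) (_ : StarOrderedRing E) (j : D →⋆ₙₐ[ℂ] E), IsUn j

/-- UC0 -/
def StUC0 : Prop := ∀ (D E : Type u) [NonUnitalCStarAlgebra D] [PartialOrder D]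
  [StarOrderedRing D] [CStarAlgebra E] [PartialOrder E] [StarOrderedRing E]
  (j : D →⋆ₙₐ[ℂ] E), IsUn j → SimpleN D → NonElem D → Core0 E (Set.range j)

/-- UEXT: extension of bounded traces to the unitisation -/
def StUEXT : Prop := ∀ (D E : Type u) [NonUnitalCStarAlgebra D] [PartialOrder D]
  [StarOrderedRing D] [CStarAlgebra E] [PartialOrder E] [StarOrderedRing E]
  (j : D →⋆ₙₐ[ℂ] E), IsUn j → ∀ T : Tr D, (∃ x, T.f x ≠ 0) →
    ∃ (T' : TS E) (t : ℝ), 0 < t ∧ N1 (Set.range j) T' ∧ (∀ x, T.f x = (t : ℂ) * T'.1.f (j x)) ∧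
      ∀ C : ℝ, (∀ x, ‖T.f x‖ ≤ C * ‖x‖) → t ≤ C

/-- UCORE -/
def StUCORE : Prop := ∀ (D E : Type u) [NonUnitalCStarAlgebra D] [PartialOrder D]
  [StarOrderedRing D] [CStarAlgebra E] [PartialOrder E] [StarOrderedRing E]
  (j : D →⋆ₙₐ[ℂ] E), IsUn j → SimpleN D → LowN D → Core0 E (Set.range j) →
    Core E (Set.range j)

/-- USCD -/
def StUSCD : Prop := ∀ (D E : Type u) [NonUnitalCStarAlgebra D] [PartialOrder D]
  [StarOrderedRing D] [CStarAlgebra E] [PartialOrder E] [StarOrderedRing E]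
  (j : D →⋆ₙₐ[ℂ] E), IsUn j → SCB D → SCD E (Set.range j)

/-- UNUC -/
def StUNUC : Prop := ∀ (D E : Type u) [NonUnitalCStarAlgebra D] [PartialOrder D]
  [StarOrderedRing D] [CStarAlgebra E] [PartialOrder E] [StarOrderedRing E]
  (j : D →⋆ₙₐ[ℂ] E), IsUn j → NuclearN D → NuclearC E

/-- UZS -/
def StUZS : Prop := ∀ (D E : Type u) [NonUnitalCStarAlgebra D] [PartialOrder D]
  [StarOrderedRing D] [CStarAlgebra E] [PartialOrder E] [StarOrderedRing E]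
  (j : D →⋆ₙₐ[ℂ] E), IsUn j → ZSD E (Set.range j) → ZSN D

/-- ZAPP: from the hereditary subalgebras to `A` -/
def StZAPP : Prop := ∀ (A : Type u) [NonUnitalCStarAlgebra A] [PartialOrder A]
  [StarOrderedRing A], (∃ x : A, x ≠ 0) →
    (∀ (D : Type u) [NonUnitalCStarAlgebra D] [PartialOrder D]
      [StarOrderedRing D] (ι : D →⋆ₙₐ[ℂ] A) (b : A) (δ : ℝ), 0 ≤ b → 0 < δ → cut δ b ≠ 0 →
        IsHer ι (cut δ b) → ZSN D) → ZSN A

/-- the (E, D) theorem (project NU) -/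
def StNU : Prop := ∀ (E : Type u) [CStarAlgebra E] [PartialOrder E] [StarOrderedRing E]
  (D : Set E), Core E D → SCD E D → NuclearC E → ZSD E D

/-- the final theorem -/
theorem tw_of (hNU : StNU.{u}) (hPED : StPED.{u}) (hHSIM : StHSIM.{u}) (hHNE : StHNE.{u})
    (hHNUC : StHNUC.{u}) (hHLOW : StHLOW.{u}) (hHSCB : StHSCB.{u}) (hUN : StUN.{u})
    (hUC0 : StUC0.{u}) (hUCORE : StUCORE.{u}) (hUSCD : StUSCD.{u}) (hUNUC : StUNUC.{u})
    (hUZS : StUZS.{u}) (hZAPP : StZAPP.{u}) :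
    ∀ (A : Type u) [NonUnitalCStarAlgebra A] [PartialOrder A] [StarOrderedRing A],
      SimpleN A → NonElem A → NuclearN A → SCN A → ZSN A := by
  intro A _ _ _ hS hE hN hC
  refine hZAPP A hS.1 ?_
  intro D _ _ _ ι b δ hb hδ hne hι
  obtain ⟨e, he⟩ := hPED A hS b δ hb hδ
  have h0 : 0 ≤ cut δ b := by
    unfold cut
    exact cfcₙ_nonneg fun x _ => le_max_right _ _
  have hSD : SimpleN D := hHSIM A D ι _ h0 hne hι hS
  have hED : NonElem D := hHNE A D ι _ h0 hι hE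
  have hND : NuclearN D := hHNUC A D ι _ h0 hι hN
  have hLD : LowN D := hHLOW A D ι _ e h0 hι he
  have hCD : SCB D := hHSCB A D ι _ e h0 hne hι he hS hC
  obtain ⟨E, iE, pE, sE, j, hj⟩ := hUN D hSD.1
  have h1 : Core0 E (Set.range j) := hUC0 D E j hj hSD hED
  exact hUZS D E j hj (hNU E (Set.range j) (hUCORE D E j hj hSD hLD h1) (hUSCD D E j hj hCD)
    (hUNUC D E j hj hND))

end Pool.Agent.H30R2.PZ
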