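import Mathlib
import Pool.Agent.H667R5.NX.PZ.Stubs

/-!
Task HSIM (helper804, for the project of helper30): hereditary subalgebras of simple C*-algebras
are simple.
-/

set_option autoImplicit false

namespace Pool.Agent.H30R2.PZ

open Filter Topology Pool.Agent.H327R4.Pure Pool.Agent.H667R5.TW Pool.Agent.H270R2.NU
open scoped ENNReal CStarAlgebra ComplexOrder

universe u

theorem HSIM_cube {B : Type u} [NonUnitalCStarAlgebra B] {x : B} (hx : x ≠ 0) :
    star x * x * star x ≠ 0 := by
  intro h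
  have h1 : x * star x * star (x * star x) = 0 := by
    rw [star_mul, star_star, mul_assoc, ← mul_assoc (star x), h, mul_zero]
  have h2 : x * star x = 0 := CStarRing.mul_star_self_eq_zero_iff _ |>.1 h1
  exact hx (CStarRing.mul_star_self_eq_zero_iff _ |>.1 h2)

theorem t_HSIM (hHB : StHB.{u}) : StHSIM.{u} := by
  intro A D _ _ _ _ _ _ ι a ha ha0 hι hS
  obtain ⟨h1, -, -, -, ⟨z, hz⟩, -, h7⟩ := hHB A D ι a ha hι
  have hinj : Function.Injective ι := by
    intro x y hxy
    have h2 := hι.norm (x - y)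
    rw [map_sub, hxy, sub_self, norm_zero] at h2
    exact sub_eq_zero.1 (norm_eq_zero.1 h2.symm)
  refine ⟨⟨z, fun h => ha0 (by rw [← hz, h, map_zero])⟩, ?_⟩
  intro I hI hl hr
  by_cases hI0 : I = ⊥
  · exact Or.inl hI0
  right
  obtain ⟨x0, hx0, hx0ne⟩ := (Submodule.ne_bot_iff I).1 hI0
  let G : Set A := {y | ∃ (t s : A) (w w' x : D), x ∈ I ∧ y = t * ι (w * x * w') * s}
  let J : Submodule ℂ A := (Submodule.span ℂ G).topologicalClosure
  have hJc : IsClosed (J : Set A) := Submodule.isClosed_topologicalClosure _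
  have hGJ : ∀ y ∈ G, y ∈ J := fun y hy =>
    Submodule.le_topologicalClosure _ (Submodule.subset_span hy)
  have ind : ∀ K : Submodule ℂ A, IsClosed (K : Set A) → (∀ y ∈ G, y ∈ K) → J ≤ K :=
    fun K hK h => Submodule.topologicalClosure_minimal _ (Submodule.span_le.2 h) hK
  have hJl : ∀ x y, y ∈ J → x * y ∈ J := by
    intro x y hy
    refine ind (J.comap (LinearMap.mulLeft ℂ x)) (hJc.preimage
      (continuous_const.mul continuous_id)) ?_ hy
    rintro _ ⟨t, s, w, w', x', hx', rfl⟩
    exact hGJ _ ⟨x * t, s, w, w', x', hx', by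
      change x * (t * ι (w * x' * w') * s) = _
      simp only [mul_assoc]⟩
  have hJr : ∀ x y, x ∈ J → x * y ∈ J := by
    intro x y hx
    refine ind (J.comap (LinearMap.mulRight ℂ y)) (hJc.preimage
      (continuous_id.mul continuous_const)) ?_ hx
    rintro _ ⟨t, s, w, w', x', hx', rfl⟩
    exact hGJ _ ⟨t, s * y, w, w', x', hx', by
      change t * ι (w * x' * w') * s * y = _
      simp only [mul_assoc]⟩
  have hJ : J = ⊤ := by
    refine (hS.2 J hJc hJl hJr).resolve_left fun hbot => ?_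
    have hy0 : star x0 * x0 * star x0 ≠ 0 := HSIM_cube hx0ne
    have hy1 : ι (star x0 * x0 * star x0) ≠ 0 := fun h => hy0 (hinj (by rw [h, map_zero]))
    have hmem : star (ι (star x0 * x0 * star x0)) * ι (star x0 * x0 * star x0)
        * star (ι (star x0 * x0 * star x0)) ∈ J :=
      hGJ _ ⟨_, _, star x0, star x0, x0, hx0, rfl⟩
    rw [hbot, Submodule.mem_bot] at hmem
    exact HSIM_cube hy1 hmem
  let ιL : D →ₗ[ℂ] A :=
    { toFun := ι
      map_add' := map_add ι
      map_smul' := map_smul ι }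
  have hiso : Isometry ι := AddMonoidHomClass.isometry_of_norm ι hι.norm
  have hIc : IsClosed ((I.map ιL : Submodule ℂ A) : Set A) := by
    have h2 : ((I.map ιL : Submodule ℂ A) : Set A) = ι '' (I : Set D) := rfl
    rw [h2]
    exact hiso.isClosedEmbedding.isClosedMap _ hI
  have key : ∀ (p q : D) (y : A), ι p * y * ι q ∈ I.map ιL := by
    intro p q y
    have hy : y ∈ J := by rw [hJ]; trivial
    refine ind ((I.map ιL).comap ((LinearMap.mulRight ℂ (ι q)).comp (LinearMap.mulLeft ℂ (ι p))))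
      (hIc.preimage ((continuous_const.mul continuous_id).mul continuous_const)) ?_ hy
    rintro _ ⟨t, s, w, w', x', hx', rfl⟩
    obtain ⟨z1, hz1⟩ := h1 p w t
    obtain ⟨z2, hz2⟩ := h1 w' q s
    refine ⟨z1 * x' * z2, hr _ _ (hl _ _ hx'), ?_⟩
    change ι (z1 * x' * z2) = ι p * (t * ι (w * x' * w') * s) * ι q
    rw [map_mul, map_mul, hz1, hz2, map_mul, map_mul]
    simp only [mul_assoc]
  rw [Submodule.eq_top_iff']
  intro d
  have hd : d ∈ closure (I : Set D) := by
    rw [Metric.mem_closure_iff]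
    intro ε hε
    obtain ⟨v, -, hv1, hv⟩ := h7 {d} (ε / 3) (by positivity)
    obtain ⟨hva, hvb⟩ := hv d (Finset.mem_singleton_self d)
    obtain ⟨x, hx, hxd⟩ := key v v (ι d)
    have hxe : x = v * d * v := by
      apply hinj
      rw [map_mul, map_mul]
      exact hxd
    refine ⟨x, hx, ?_⟩
    rw [dist_comm, dist_eq_norm, hxe]
    have h2 : v * d * v - d = (v * d - d) * v + (d * v - d) := by
      rw [sub_mul]
      abel
    rw [h2]
    calc ‖(v * d - d) * v + (d * v - d)‖ ≤ ‖(v * d - d) * v‖ + ‖d * v - d‖ := norm_add_le _ _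
      _ ≤ ‖v * d - d‖ * ‖v‖ + ‖d * v - d‖ := by gcongr; exact norm_mul_le _ _
      _ ≤ ε / 3 * 1 + ε / 3 := by gcongr
      _ < ε := by linarith
  rwa [hI.closure_eq] at hd

end Pool.Agent.H30R2.PZ
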